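import Pool.Agent.H3.EB.SU

/-!
# EB Tup: tuples of positive integers with given product

`tup_eq`: the number of `a : Fin k → ℕ` with `∏ a i = m`, `m ≥ 1`, is `≤ C m^ε`.
Proof: every such tuple has `a i ∈ m.divisors` (`Finset.dvd_prod_of_mem`), so the number is at most
`(d(m))^k` (`Fintype.card_piFinset`), and `d(m) ≤ C' m^(ε/(k+1))` by `div_count`.

`tup_le`: the number of `a : Fin k → ℕ` with all `a i ≥ 1` and `∏ a i ≤ M`, `M ≥ 1`, is `≤ C M^(1+ε)`.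
Proof: sum `tup_eq` over `m ≤ M` (the set is the union over `m ∈ Icc 1 M` of the sets of `tup_eq`,
`Finset.card_biUnion_le`), each `≤ C M^ε`.
-/

set_option autoImplicit false

open Finset

namespace Pool.Agent.H3.EB

theorem tup_eq (k : ℕ) (ε : ℝ) (hε : 0 < ε) : ∃ C : ℝ, 0 < C ∧ ∀ m : ℕ, 1 ≤ m → ∀ T : Finset (Fin k → ℕ),
    (∀ a ∈ T, ∏ i, a i = m) → (T.card : ℝ) ≤ C * (m : ℝ) ^ ε := by
  have hk : (0 : ℝ) < (k : ℝ) + 1 := by positivity
  obtain ⟨C, hC, hdiv⟩ := div_count (ε / (k + 1)) (by positivity)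
  refine ⟨C ^ k, by positivity, ?_⟩
  intro m hm T hT
  have hm1 : (1 : ℝ) ≤ m := by exact_mod_cast hm
  have hsub : T ⊆ Fintype.piFinset (fun _ : Fin k => m.divisors) := by
    intro a ha
    rw [Fintype.mem_piFinset]
    intro i
    rw [Nat.mem_divisors]
    refine ⟨?_, by omega⟩
    rw [← hT a ha]
    exact Finset.dvd_prod_of_mem a (Finset.mem_univ i)
  have h1 : T.card ≤ m.divisors.card ^ k := by
    calc T.card ≤ (Fintype.piFinset (fun _ : Fin k => m.divisors)).card := Finset.card_le_card hsub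
      _ = m.divisors.card ^ k := by
          rw [Fintype.card_piFinset, Finset.prod_const, Finset.card_univ, Fintype.card_fin]
  have h2 : (T.card : ℝ) ≤ (m.divisors.card : ℝ) ^ k := by exact_mod_cast h1
  calc (T.card : ℝ) ≤ (m.divisors.card : ℝ) ^ k := h2
    _ ≤ (C * (m : ℝ) ^ (ε / (k + 1))) ^ k :=
        pow_le_pow_left₀ (Nat.cast_nonneg _) (hdiv m hm) k
    _ = C ^ k * ((m : ℝ) ^ (ε / (k + 1))) ^ k := mul_pow _ _ _
    _ ≤ C ^ k * (m : ℝ) ^ ε := by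
        apply mul_le_mul_of_nonneg_left _ (by positivity)
        rw [← Real.rpow_mul_natCast (by positivity)]
        apply Real.rpow_le_rpow_of_exponent_le hm1
        rw [div_mul_eq_mul_div, div_le_iff₀ hk]
        nlinarith

theorem tup_le (k : ℕ) (ε : ℝ) (hε : 0 < ε) : ∃ C : ℝ, 0 < C ∧ ∀ M : ℝ, 1 ≤ M → ∀ T : Finset (Fin k → ℕ),
    (∀ a ∈ T, (∀ i, 1 ≤ a i) ∧ ((∏ i, a i : ℕ) : ℝ) ≤ M) → (T.card : ℝ) ≤ C * M ^ (1 + ε) := by
  obtain ⟨C, hC, heq⟩ := tup_eq k ε hε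
  refine ⟨C, hC, ?_⟩
  intro M hM T hT
  have hM0 : 0 < M := zero_lt_one.trans_le hM
  have hmaps : Set.MapsTo (fun a : Fin k → ℕ => ∏ i, a i) (T : Set (Fin k → ℕ))
      (Icc 1 ⌊M⌋₊ : Finset ℕ) := by
    intro a ha
    obtain ⟨h1, h2⟩ := hT a ha
    rw [Finset.mem_coe, Finset.mem_Icc]
    have h5 : 0 < ∏ i, a i := Finset.prod_pos fun i _ => h1 i
    exact ⟨h5, Nat.le_floor h2⟩
  rw [Finset.card_eq_sum_card_fiberwise hmaps]
  push_cast
  have h3 : ∀ m ∈ Icc 1 ⌊M⌋₊, ((T.filter (fun a : Fin k → ℕ => ∏ i, a i = m)).card : ℝ)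
      ≤ C * M ^ ε := by
    intro m hm
    rw [Finset.mem_Icc] at hm
    have h4 := heq m hm.1 (T.filter (fun a : Fin k → ℕ => ∏ i, a i = m))
      (fun a ha => (Finset.mem_filter.1 ha).2)
    refine h4.trans (mul_le_mul_of_nonneg_left ?_ hC.le)
    apply Real.rpow_le_rpow (Nat.cast_nonneg _) _ hε.le
    calc (m : ℝ) ≤ (⌊M⌋₊ : ℝ) := by exact_mod_cast hm.2
      _ ≤ M := Nat.floor_le hM0.le
  calc ∑ m ∈ Icc 1 ⌊M⌋₊, ((T.filter (fun a : Fin k → ℕ => ∏ i, a i = m)).card : ℝ)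
      ≤ ∑ _m ∈ Icc 1 ⌊M⌋₊, C * M ^ ε := Finset.sum_le_sum h3
    _ = (⌊M⌋₊ : ℝ) * (C * M ^ ε) := by
        rw [Finset.sum_const, Nat.card_Icc, nsmul_eq_mul]
        simp
    _ ≤ M * (C * M ^ ε) :=
        mul_le_mul_of_nonneg_right (Nat.floor_le hM0.le) (by positivity)
    _ = C * M ^ (1 + ε) := by
        rw [Real.rpow_add hM0, Real.rpow_one]
        ring

end Pool.Agent.H3.EB
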