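import Pool.Agent.H3.EB.Lcm
import Pool.Agent.H3.EB.Tup

/-!
# EB BadP: large product of small square divisors

`bad_prod`: for every `k` and `ε > 0` there is `C` such that for all `X ≥ 1` and real `A0 ≥ 1` with
`A0 ≤ X` the number of `n < X` with `sqp (n+i+1) ≤ A0` for all `i < k` and `A n k > A0` is
`≤ C X^ε (X / A0 + A0^2)`.

Proof.  For such `n` let `j ≤ k` be minimal with `A n j = ∏_{i<j} sqp (n+i+1) > A0`; `j ≥ 1` because
`A n 0 = 1 ≤ A0`.  By minimality `A n (j-1) ≤ A0`, and `sqp (n+j) ≤ A0`, so `A0 < A n j ≤ A0^2`.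
So `n` is in the set `U j a := {n < X : ∀ i < j, (a i)^2 ∣ n+i+1}` for the tuple `a i = sqp (n+i+1)`
(`i : Fin j`; all `a i ≥ 1`), whose product `m` is in `(A0, A0^2]`.  For fixed `j` and `a` with product `m`,
`#U j a ≤ C_j X / m^2 + 1` by `crt_count` (with `e i = (a i)^2`, `∏ e i = m^2`); the number of tuples with
product `m` is `≤ C' m^(ε/2)` by `tup_eq` (with `ε/4` or so), and `m ≤ A0^2 ≤ X^2` so this is `≤ C' X^ε`
after adjusting `ε`.  Summing over `j ≤ k` and the integers `m ∈ (A0, A0^2]`: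
`≤ ∑_j C' X^ε (∑_{m > A0} C_j X / m^2 + A0^2) ≤ C'' X^ε (X / A0 + A0^2)`, using `∑_{A0 < m ≤ M} 1/m^2 ≤ 2/A0`.
-/

set_option autoImplicit false

open Finset

namespace Pool.Agent.H3.EB

/-- the numbers with given product `A n j = m`. -/
theorem badp_m (j : ℕ) (C1 ε : ℝ) (hC1 : 0 < C1)
    (H : ∀ m : ℕ, 1 ≤ m → ∀ T : Finset (Fin j → ℕ),
      (∀ a ∈ T, ∏ i, a i = m) → (T.card : ℝ) ≤ C1 * (m : ℝ) ^ ε) (X m : ℕ) (hm : 1 ≤ m) :
    (((range X).filter (fun n => A n j = m)).card : ℝ) ≤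
      C1 * (m : ℝ) ^ ε * (((j.factorial) ^ (j * j) : ℕ) * (X : ℝ) / (m : ℝ) ^ 2 + 1) := by
  classical
  obtain ⟨s, hs⟩ : ∃ s, s = (range X).filter (fun n => A n j = m) := ⟨_, rfl⟩
  obtain ⟨φ, hφ⟩ : ∃ φ : ℕ → (Fin j → ℕ), φ = fun n (i : Fin j) => sqp (n + (i : ℕ) + 1) :=
    ⟨_, rfl⟩
  rw [← hs]
  have hfib : ∀ b ∈ s.image φ, ((s.filter (fun n => φ n = b)).card : ℝ) ≤
      ((j.factorial) ^ (j * j) : ℕ) * (X : ℝ) / (m : ℝ) ^ 2 + 1 := by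
    intro b hb
    rw [mem_image] at hb
    obtain ⟨n0, hn0, rfl⟩ := hb
    rw [hs, mem_filter] at hn0
    have h1 := crt_count j X (fun i => sqp (n0 + i + 1) ^ 2)
      (fun i _ => pow_pos (sqp_pos (Nat.succ_pos _)) 2)
    have h2 : ∏ i ∈ range j, sqp (n0 + i + 1) ^ 2 = m ^ 2 := by
      rw [prod_pow]
      have : ∏ i ∈ range j, sqp (n0 + i + 1) = A n0 j := rfl
      rw [this, hn0.2]
    rw [h2] at h1
    push_cast at h1 ⊢
    refine le_trans ?_ h1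
    exact_mod_cast card_le_card (by
      intro n hn
      rw [mem_filter, hs, mem_filter] at hn
      rw [mem_filter]
      refine ⟨hn.1.1, fun i hi => ?_⟩
      have h3 := congrFun hn.2 ⟨i, hi⟩
      rw [hφ] at h3
      simp only at h3
      rw [← h3]
      exact sqp_sq_dvd _)
  have hT : ((s.image φ).card : ℝ) ≤ C1 * (m : ℝ) ^ ε := by
    apply H m hm
    intro a ha
    rw [mem_image] at ha
    obtain ⟨n, hn, rfl⟩ := ha
    rw [hs, mem_filter] at hn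
    rw [← hn.2, hφ]
    unfold A
    rw [prod_range]
  have hR0 : 0 ≤ ((j.factorial) ^ (j * j) : ℕ) * (X : ℝ) / (m : ℝ) ^ 2 + 1 := by positivity
  rw [card_eq_sum_card_image φ s]
  push_cast
  calc ∑ b ∈ s.image φ, ((s.filter (fun n => φ n = b)).card : ℝ)
      ≤ ∑ _b ∈ s.image φ, (((j.factorial) ^ (j * j) : ℕ) * (X : ℝ) / (m : ℝ) ^ 2 + 1) :=
        sum_le_sum hfib
    _ = ((s.image φ).card : ℝ) * (((j.factorial) ^ (j * j) : ℕ) * (X : ℝ) / (m : ℝ) ^ 2 + 1) := by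
        rw [sum_const, nsmul_eq_mul]
    _ ≤ C1 * (m : ℝ) ^ ε * (((j.factorial) ^ (j * j) : ℕ) * (X : ℝ) / (m : ℝ) ^ 2 + 1) :=
        mul_le_mul_of_nonneg_right hT hR0
    _ = _ := by push_cast; ring

theorem badp_j (j : ℕ) (ε : ℝ) (hε : 0 < ε) : ∃ C : ℝ, 0 < C ∧ ∀ X : ℕ, 1 ≤ X → ∀ A0 : ℝ,
    1 ≤ A0 → A0 ≤ X →
    (((range X).filter (fun n => A0 < (A n j : ℝ) ∧ (A n j : ℝ) ≤ A0 ^ 2)).card : ℝ) ≤
      C * (X : ℝ) ^ ε * ((X : ℝ) / A0 + A0 ^ 2) := by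
  classical
  obtain ⟨C1, hC1, H⟩ := tup_eq j (ε / 2) (by positivity)
  obtain ⟨K, hK⟩ : ∃ K : ℝ, K = (((j.factorial) ^ (j * j) : ℕ) : ℝ) := ⟨_, rfl⟩
  have hK0 : 0 ≤ K := by rw [hK]; positivity
  refine ⟨C1 * (2 * K + 1), by positivity, fun X hX A0 hA0 hA0X => ?_⟩
  have hX1 : (1 : ℝ) ≤ X := by exact_mod_cast hX
  have hA0p : 0 < A0 := by linarith
  have hfl : 1 ≤ ⌊A0⌋₊ := (Nat.one_le_floor_iff A0).mpr hA0
  obtain ⟨s, hs⟩ : ∃ s, s = (range X).filter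
    (fun n => A0 < (A n j : ℝ) ∧ (A n j : ℝ) ≤ A0 ^ 2) := ⟨_, rfl⟩
  rw [← hs]
  have hmap : ∀ n ∈ s, A n j ∈ Ioc ⌊A0⌋₊ ⌊A0 ^ 2⌋₊ := by
    intro n hn
    rw [hs, mem_filter] at hn
    rw [mem_Ioc]
    constructor
    · rw [Nat.floor_lt hA0p.le]
      exact hn.2.1
    · exact Nat.le_floor hn.2.2
  rw [card_eq_sum_card_fiberwise hmap]
  push_cast
  have hterm : ∀ m ∈ Ioc ⌊A0⌋₊ ⌊A0 ^ 2⌋₊, ((s.filter (fun n => A n j = m)).card : ℝ) ≤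
      C1 * (X : ℝ) ^ ε * (K * X * ((m : ℝ) ^ 2)⁻¹ + 1) := by
    intro m hm
    rw [mem_Ioc] at hm
    have hm1 : 1 ≤ m := by omega
    have hm0 : (0 : ℝ) < m := by exact_mod_cast hm1
    have h1 : ((s.filter (fun n => A n j = m)).card : ℝ) ≤
        (((range X).filter (fun n => A n j = m)).card : ℝ) := by
      exact_mod_cast card_le_card (by
        intro n hn
        rw [mem_filter, hs, mem_filter] at hn
        rw [mem_filter]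
        exact ⟨hn.1.1, hn.2⟩)
    have h2 := badp_m j C1 (ε / 2) hC1 H X m hm1
    rw [← hK] at h2
    have h3 : (m : ℝ) ^ (ε / 2) ≤ (X : ℝ) ^ ε := by
      have h4 : (m : ℝ) ≤ (X : ℝ) ^ (2 : ℝ) := by
        have h5 : (m : ℝ) ≤ A0 ^ 2 :=
          (Nat.le_floor_iff (by positivity)).mp hm.2
        have h6 : A0 ^ 2 ≤ (X : ℝ) ^ 2 := pow_le_pow_left₀ hA0p.le hA0X 2
        calc (m : ℝ) ≤ (X : ℝ) ^ 2 := h5.trans h6
          _ = _ := by rw [← Real.rpow_natCast]; norm_num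
      calc (m : ℝ) ^ (ε / 2) ≤ ((X : ℝ) ^ (2 : ℝ)) ^ (ε / 2) :=
            Real.rpow_le_rpow hm0.le h4 (by positivity)
        _ = (X : ℝ) ^ ε := by
            rw [← Real.rpow_mul (by positivity)]
            congr 1
            ring
    refine h1.trans (h2.trans ?_)
    have h7 : K * (X : ℝ) / (m : ℝ) ^ 2 + 1 = K * X * ((m : ℝ) ^ 2)⁻¹ + 1 := by
      rw [div_eq_mul_inv]
    rw [h7]
    apply mul_le_mul_of_nonneg_right _ (by positivity)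
    exact mul_le_mul_of_nonneg_left h3 hC1.le
  have hsq : ∑ m ∈ Ioc ⌊A0⌋₊ ⌊A0 ^ 2⌋₊, ((m : ℝ) ^ 2)⁻¹ ≤ 2 / A0 := by
    rcases le_total ⌊A0⌋₊ ⌊A0 ^ 2⌋₊ with h | h
    · have h1 := sum_Ioc_inv_sq_le_sub (α := ℝ) (by omega : ⌊A0⌋₊ ≠ 0) h
      have h2 : ((⌊A0⌋₊ : ℕ) : ℝ)⁻¹ ≤ 2 / A0 := by
        have h3 : (1 : ℝ) ≤ (⌊A0⌋₊ : ℝ) := by exact_mod_cast hfl
        have h4 := Nat.lt_floor_add_one A0
        rw [inv_eq_one_div, div_le_div_iff₀ (by linarith) hA0p]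
        linarith
      have h5 : (0 : ℝ) ≤ ((⌊A0 ^ 2⌋₊ : ℕ) : ℝ)⁻¹ := by positivity
      linarith
    · rw [Ioc_eq_empty_of_le h, sum_empty]
      positivity
  have hcard : ((Ioc ⌊A0⌋₊ ⌊A0 ^ 2⌋₊).card : ℝ) ≤ A0 ^ 2 := by
    rw [Nat.card_Ioc]
    have h1 : ((⌊A0 ^ 2⌋₊ - ⌊A0⌋₊ : ℕ) : ℝ) ≤ ((⌊A0 ^ 2⌋₊ : ℕ) : ℝ) := by
      exact_mod_cast Nat.sub_le _ _
    exact h1.trans (Nat.floor_le (by positivity))
  have hXε : 0 < (X : ℝ) ^ ε := by positivity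
  calc ∑ m ∈ Ioc ⌊A0⌋₊ ⌊A0 ^ 2⌋₊, ((s.filter (fun n => A n j = m)).card : ℝ)
      ≤ ∑ m ∈ Ioc ⌊A0⌋₊ ⌊A0 ^ 2⌋₊, C1 * (X : ℝ) ^ ε * (K * X * ((m : ℝ) ^ 2)⁻¹ + 1) :=
        sum_le_sum hterm
    _ = C1 * (X : ℝ) ^ ε * (K * X * ∑ m ∈ Ioc ⌊A0⌋₊ ⌊A0 ^ 2⌋₊, ((m : ℝ) ^ 2)⁻¹ +
        (Ioc ⌊A0⌋₊ ⌊A0 ^ 2⌋₊).card) := by
        rw [← mul_sum, sum_add_distrib, ← mul_sum, sum_const, nsmul_eq_mul, mul_one]
    _ ≤ C1 * (X : ℝ) ^ ε * (K * X * (2 / A0) + A0 ^ 2) := by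
        apply mul_le_mul_of_nonneg_left _ (by positivity)
        exact add_le_add (mul_le_mul_of_nonneg_left hsq (by positivity)) hcard
    _ = C1 * (X : ℝ) ^ ε * (2 * K * (X / A0) + 1 * A0 ^ 2) := by ring
    _ ≤ C1 * (X : ℝ) ^ ε * ((2 * K + 1) * (X / A0) + (2 * K + 1) * A0 ^ 2) := by
        apply mul_le_mul_of_nonneg_left _ (by positivity)
        apply add_le_add
        · exact mul_le_mul_of_nonneg_right (by linarith) (by positivity)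
        · exact mul_le_mul_of_nonneg_right (by linarith) (by positivity)
    _ = _ := by ring

theorem bad_prod (k : ℕ) (ε : ℝ) (hε : 0 < ε) : ∃ C : ℝ, 0 < C ∧ ∀ X : ℕ, 1 ≤ X → ∀ A0 : ℝ, 1 ≤ A0 →
    A0 ≤ X → (((range X).filter (fun n => (∀ i, i < k → (sqp (n + i + 1) : ℝ) ≤ A0) ∧
      A0 < (A n k : ℝ))).card : ℝ) ≤ C * (X : ℝ) ^ ε * ((X : ℝ) / A0 + A0 ^ 2) := by
  classical
  choose C hC H using fun j : ℕ => badp_j j ε hε
  refine ⟨∑ j ∈ range (k + 1), C j, sum_pos (fun j _ => hC j) ⟨0, by simp⟩,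
    fun X hX A0 hA0 hA0X => ?_⟩
  have hsub : ((range X).filter (fun n => (∀ i, i < k → (sqp (n + i + 1) : ℝ) ≤ A0) ∧
      A0 < (A n k : ℝ))) ⊆ (range (k + 1)).biUnion (fun j => (range X).filter
        (fun n => A0 < (A n j : ℝ) ∧ (A n j : ℝ) ≤ A0 ^ 2)) := by
    intro n hn
    rw [mem_filter] at hn
    obtain ⟨hnX, hsm, hbig⟩ := hn
    have hex : ∃ j, A0 < (A n j : ℝ) := ⟨k, hbig⟩
    have hj1 := Nat.find_spec hex
    have hj2 : Nat.find hex ≤ k := Nat.find_min' hex hbig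
    have hj3 : Nat.find hex ≠ 0 := by
      intro h0
      rw [h0] at hj1
      have : A n 0 = 1 := by unfold A; simp
      rw [this] at hj1
      push_cast at hj1
      linarith
    obtain ⟨i, hi⟩ := Nat.exists_eq_succ_of_ne_zero hj3
    rw [Nat.succ_eq_add_one] at hi
    have hj4 : ¬ A0 < (A n i : ℝ) := Nat.find_min hex (by omega)
    rw [mem_biUnion]
    refine ⟨Nat.find hex, mem_range.mpr (by omega), ?_⟩
    rw [mem_filter]
    refine ⟨hnX, hj1, ?_⟩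
    rw [hi]
    have e : A n (i + 1) = A n i * sqp (n + i + 1) := by
      unfold A
      rw [prod_range_succ]
    rw [e]
    push_cast
    push Not at hj4
    have h5 := hsm i (by omega)
    have h6 : (0 : ℝ) ≤ (sqp (n + i + 1) : ℝ) := Nat.cast_nonneg _
    calc (A n i : ℝ) * (sqp (n + i + 1) : ℝ) ≤ A0 * A0 :=
          mul_le_mul hj4 h5 h6 (by linarith)
      _ = A0 ^ 2 := by ring
  have h1 : (((range X).filter (fun n => (∀ i, i < k → (sqp (n + i + 1) : ℝ) ≤ A0) ∧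
      A0 < (A n k : ℝ))).card : ℝ) ≤ ∑ j ∈ range (k + 1), (((range X).filter
        (fun n => A0 < (A n j : ℝ) ∧ (A n j : ℝ) ≤ A0 ^ 2)).card : ℝ) := by
    exact_mod_cast (card_le_card hsub).trans card_biUnion_le
  refine h1.trans ?_
  rw [sum_mul, sum_mul]
  exact sum_le_sum fun j _ => H j X hX A0 hA0 hA0X

end Pool.Agent.H3.EB
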