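import Pool.Agent.H3.EB.BadS
import Pool.Agent.H3.EB.BadP

/-!
# EB Bad: the number of `n < X` with `A n k > A0` is `≤ C X^ε (X / A0 + X^(2/3))` for all real `A0 > 0`

Proof.  If `A0 < 1` the bound is trivial (`X ≤ X / A0`, `C ≥ 1`).  If `1 ≤ A0 ≤ X^(1/3)`: the set is contained
in the union of the sets of `bad_single` and `bad_prod`; `2k(X+k)/A0 ≤ 2k(k+1) X / A0` and
`A0^2 ≤ X / A0`.  If `A0 > X^(1/3) =: A1` (`A1 ≥ 1`): the set is contained in the one for `A1` and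
`X / A1 + A1^2 = 2 X^(2/3)`.
-/

set_option autoImplicit false

open Finset

namespace Pool.Agent.H3.EB

theorem bad_mid (k : ℕ) (ε : ℝ) (hε : 0 < ε) : ∃ D : ℝ, 0 < D ∧ ∀ X : ℕ, 1 ≤ X → ∀ A0 : ℝ, 1 ≤ A0 →
    A0 ^ 3 ≤ X → (((range X).filter (fun n => A0 < (A n k : ℝ))).card : ℝ) ≤
      D * (X : ℝ) ^ ε * ((X : ℝ) / A0) := by
  classical
  obtain ⟨C, hC, hP⟩ := bad_prod k ε hε
  refine ⟨2 * k * (k + 1) + 2 * C, by positivity, ?_⟩
  intro X hX A0 hA0 hA3
  have hX' : (1 : ℝ) ≤ X := by exact_mod_cast hX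
  have hA0' : 0 < A0 := by linarith
  have hAX : A0 ≤ X := by
    refine le_trans ?_ hA3
    nlinarith [mul_le_mul hA0 hA0 (by norm_num) hA0'.le]
  have hXe : (1 : ℝ) ≤ (X : ℝ) ^ ε := Real.one_le_rpow hX' hε.le
  have h1 := hP X hX A0 hA0 hAX
  have h2 := bad_single k X A0 hA0
  have hsub : (range X).filter (fun n => A0 < (A n k : ℝ)) ⊆
      (range X).filter (fun n => ∃ i, i < k ∧ A0 < (sqp (n + i + 1) : ℝ)) ∪
      (range X).filter (fun n => (∀ i, i < k → (sqp (n + i + 1) : ℝ) ≤ A0) ∧ A0 < (A n k : ℝ)) := by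
    intro n hn
    rw [mem_filter] at hn
    rw [mem_union, mem_filter, mem_filter]
    by_cases h : ∃ i, i < k ∧ A0 < (sqp (n + i + 1) : ℝ)
    · exact Or.inl ⟨hn.1, h⟩
    · push Not at h
      exact Or.inr ⟨hn.1, h, hn.2⟩
  have hcard : (((range X).filter (fun n => A0 < (A n k : ℝ))).card : ℝ) ≤
      (((range X).filter (fun n => ∃ i, i < k ∧ A0 < (sqp (n + i + 1) : ℝ))).card : ℝ) +
      (((range X).filter (fun n => (∀ i, i < k → (sqp (n + i + 1) : ℝ) ≤ A0) ∧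
        A0 < (A n k : ℝ))).card : ℝ) := by
    have := (card_le_card hsub).trans (card_union_le _ _)
    exact_mod_cast this
  have h3 : 2 * (k : ℝ) * ((X : ℝ) + k) / A0 ≤ 2 * k * (k + 1) * (X : ℝ) ^ ε * (X / A0) := by
    have h4 : (X : ℝ) + k ≤ (k + 1) * X := by
      have : (k : ℝ) * 1 ≤ k * X := mul_le_mul_of_nonneg_left hX' (by positivity)
      linarith
    have h5 : 2 * (k : ℝ) * ((X : ℝ) + k) ≤ 2 * k * ((k + 1) * X) :=
      mul_le_mul_of_nonneg_left h4 (by positivity)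
    calc 2 * (k : ℝ) * ((X : ℝ) + k) / A0 ≤ 2 * k * ((k + 1) * X) / A0 :=
          div_le_div_of_nonneg_right h5 hA0'.le
      _ = 2 * k * (k + 1) * 1 * (X / A0) := by ring
      _ ≤ 2 * k * (k + 1) * (X : ℝ) ^ ε * (X / A0) := by
          apply mul_le_mul_of_nonneg_right _ (by positivity)
          exact mul_le_mul_of_nonneg_left hXe (by positivity)
  have h6 : A0 ^ 2 ≤ X / A0 := by
    rw [le_div_iff₀ hA0']
    calc A0 ^ 2 * A0 = A0 ^ 3 := by ring
      _ ≤ (X : ℝ) := hA3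
  have h7 : C * (X : ℝ) ^ ε * ((X : ℝ) / A0 + A0 ^ 2) ≤ C * (X : ℝ) ^ ε * (2 * ((X : ℝ) / A0)) :=
    mul_le_mul_of_nonneg_left (by linarith) (by positivity)
  calc _ ≤ _ := hcard
    _ ≤ 2 * k * (k + 1) * (X : ℝ) ^ ε * (X / A0) + C * (X : ℝ) ^ ε * (2 * ((X : ℝ) / A0)) :=
        add_le_add (h2.trans h3) (h1.trans h7)
    _ = _ := by ring

theorem bad_count (k : ℕ) (ε : ℝ) (hε : 0 < ε) : ∃ C : ℝ, 0 < C ∧ ∀ X : ℕ, 1 ≤ X → ∀ A0 : ℝ, 0 < A0 →
    (((range X).filter (fun n => A0 < (A n k : ℝ))).card : ℝ) ≤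
      C * (X : ℝ) ^ ε * ((X : ℝ) / A0 + (X : ℝ) ^ (2 / 3 : ℝ)) := by
  obtain ⟨D, hD, hmid⟩ := bad_mid k ε hε
  refine ⟨D + 1, by positivity, ?_⟩
  intro X hX A0 hA0
  have hX' : (1 : ℝ) ≤ X := by exact_mod_cast hX
  have hX0 : (0 : ℝ) < X := by linarith
  have hXe : (1 : ℝ) ≤ (X : ℝ) ^ ε := Real.one_le_rpow hX' hε.le
  have hX23 : 0 < (X : ℝ) ^ (2 / 3 : ℝ) := Real.rpow_pos_of_pos hX0 _
  have hXA : 0 < (X : ℝ) / A0 := by positivity
  set A1 : ℝ := (X : ℝ) ^ (1 / 3 : ℝ) with hA1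
  have hA1' : 1 ≤ A1 := Real.one_le_rpow hX' (by norm_num)
  have hA13 : A1 ^ 3 = X := by
    rw [hA1, ← Real.rpow_natCast, ← Real.rpow_mul hX0.le]
    norm_num
  have hXA1 : (X : ℝ) / A1 = (X : ℝ) ^ (2 / 3 : ℝ) := by
    rw [hA1]
    nth_rewrite 1 [← Real.rpow_one (X : ℝ)]
    rw [← Real.rpow_sub hX0]
    norm_num
  rcases lt_or_ge A0 1 with h | h
  · have h1 : (((range X).filter (fun n => A0 < (A n k : ℝ))).card : ℝ) ≤ X := by
      have := card_filter_le (range X) (fun n => A0 < (A n k : ℝ))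
      rw [card_range] at this
      exact_mod_cast this
    have h2 : (X : ℝ) ≤ X / A0 := by
      rw [le_div_iff₀ hA0]
      calc (X : ℝ) * A0 ≤ X * 1 := mul_le_mul_of_nonneg_left h.le hX0.le
        _ = X := mul_one _
    calc _ ≤ (X : ℝ) := h1
      _ ≤ 1 * 1 * ((X : ℝ) / A0 + (X : ℝ) ^ (2 / 3 : ℝ)) := by linarith
      _ ≤ (D + 1) * (X : ℝ) ^ ε * ((X : ℝ) / A0 + (X : ℝ) ^ (2 / 3 : ℝ)) := by
          apply mul_le_mul_of_nonneg_right _ (by positivity)
          exact mul_le_mul (by linarith) hXe (by norm_num) (by positivity)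
  · rcases le_or_gt A0 A1 with h' | h'
    · have h3 : A0 ^ 3 ≤ X := by
        rw [← hA13]
        exact pow_le_pow_left₀ hA0.le h' 3
      refine (hmid X hX A0 h h3).trans ?_
      apply mul_le_mul _ (by linarith) hXA.le (by positivity)
      exact mul_le_mul_of_nonneg_right (by linarith) (by positivity)
    · have h3 : (((range X).filter (fun n => A0 < (A n k : ℝ))).card : ℝ) ≤
          (((range X).filter (fun n => A1 < (A n k : ℝ))).card : ℝ) := by
        have : (range X).filter (fun n => A0 < (A n k : ℝ)) ⊆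
            (range X).filter (fun n => A1 < (A n k : ℝ)) := by
          intro n hn
          rw [mem_filter] at hn ⊢
          exact ⟨hn.1, h'.trans hn.2⟩
        exact_mod_cast card_le_card this
      refine (h3.trans (hmid X hX A1 hA1' hA13.le)).trans ?_
      rw [hXA1]
      apply mul_le_mul _ (by linarith) hX23.le (by positivity)
      exact mul_le_mul_of_nonneg_right (by linarith) (by positivity)

end Pool.Agent.H3.EB
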