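import Pool.Agent.H3.EB.Defs

/-!
# EB BadS: a single large square divisor

The number of `n < X` such that `A < sqp (n+i+1)` for some `i < k` is `≤ 2 k (X + k) / A` (`A ≥ 1` real).

Proof.  For such `n` there are `i < k` and `a := sqp (n+i+1) > A` with `a^2 ∣ n+i+1 =: m`, `1 ≤ m ≤ X + k`
(`sqp_sq_dvd`), `a ≤ X + k`.  So the number is `≤ ∑_{i<k} ∑_{A < a ≤ X+k} #{m ∈ Icc 1 (X+k) : a^2 ∣ m}`
(for fixed `i` the map `n ↦ n+i+1` is injective) `≤ k ∑_{A<a≤X+k} (X+k)/a^2` (`Nat.card_multiples` or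
`Nat.Ioc_filter_dvd_card_eq_div`), and `∑_{A < a ≤ Y} 1/a^2 ≤ 2/A` for `A ≥ 1` (with `q = ⌊A⌋ ≥ 1`,
`∑_{a=q+1}^{Y} 1/a^2 ≤ 1/q - 1/Y ≤ 1/q ≤ 2/A`; telescoping `1/a^2 ≤ 1/(a-1) - 1/a`, or Mathlib
`sum_Ioc_inv_sq_le_sub`, `sum_Ioo_inv_sq_le`).
-/

set_option autoImplicit false

open Finset

namespace Pool.Agent.H3.EB

theorem bads_count (k X i a : ℕ) (hi : i < k) :
    ((range X).filter (fun n => a ^ 2 ∣ n + i + 1)).card ≤ (X + k) / a ^ 2 := by
  rw [← Nat.Ioc_filter_dvd_card_eq_div (X + k) (a ^ 2)]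
  refine card_le_card_of_injOn (fun n => n + i + 1) ?_ ?_
  · intro n hn
    rw [mem_coe, mem_filter, mem_range] at hn
    rw [mem_coe, mem_filter, mem_Ioc]
    exact ⟨⟨by show 0 < n + i + 1; omega, by show n + i + 1 ≤ X + k; omega⟩, hn.2⟩
  · intro n _ m _ h
    have h' : n + i + 1 = m + i + 1 := h
    omega

theorem bads_sum (q Y : ℕ) (hq : 1 ≤ q) :
    ∑ a ∈ Ioc q Y, ((a : ℝ) ^ 2)⁻¹ ≤ 1 / (q : ℝ) := by
  rcases le_or_gt q Y with h | h
  · have h1 := sum_Ioc_inv_sq_le_sub (α := ℝ) (by omega : q ≠ 0) h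
    have h2 : (0 : ℝ) ≤ (Y : ℝ)⁻¹ := by positivity
    rw [one_div]
    linarith
  · rw [Ioc_eq_empty (by omega), sum_empty]
    positivity

theorem bad_single (k X : ℕ) (A0 : ℝ) (hA : 1 ≤ A0) :
    (((range X).filter (fun n => ∃ i, i < k ∧ A0 < (sqp (n + i + 1) : ℝ))).card : ℝ) ≤
      2 * k * ((X : ℝ) + k) / A0 := by
  classical
  set q := ⌊A0⌋₊ with hq
  have hq1 : 1 ≤ q := by
    rw [hq]
    exact Nat.le_floor (by simpa using hA)
  have hsub : (range X).filter (fun n => ∃ i, i < k ∧ A0 < (sqp (n + i + 1) : ℝ)) ⊆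
      (range k ×ˢ Ioc q (X + k)).biUnion
        (fun p => (range X).filter (fun n => p.2 ^ 2 ∣ n + p.1 + 1)) := by
    intro n hn
    rw [mem_filter, mem_range] at hn
    obtain ⟨hnX, i, hi, hlt⟩ := hn
    rw [mem_biUnion]
    have hdvd := sqp_sq_dvd (n + i + 1)
    refine ⟨(i, sqp (n + i + 1)), ?_, ?_⟩
    · rw [mem_product, mem_range, mem_Ioc]
      refine ⟨hi, ?_, ?_⟩
      · show q < sqp (n + i + 1)
        rw [hq, Nat.floor_lt (by linarith)]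
        exact hlt
      · show sqp (n + i + 1) ≤ X + k
        have h1 : sqp (n + i + 1) ∣ n + i + 1 := (dvd_pow_self _ two_ne_zero).trans hdvd
        have h2 := Nat.le_of_dvd (by omega) h1
        omega
    · rw [mem_filter, mem_range]
      exact ⟨hnX, hdvd⟩
  have h1 : ((range X).filter (fun n => ∃ i, i < k ∧ A0 < (sqp (n + i + 1) : ℝ))).card ≤
      ∑ p ∈ range k ×ˢ Ioc q (X + k), (X + k) / p.2 ^ 2 := by
    refine (card_le_card hsub).trans (card_biUnion_le.trans ?_)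
    refine sum_le_sum fun p hp => ?_
    rw [mem_product, mem_range] at hp
    exact bads_count k X p.1 p.2 hp.1
  have h2 : (((range X).filter (fun n => ∃ i, i < k ∧ A0 < (sqp (n + i + 1) : ℝ))).card : ℝ) ≤
      ∑ p ∈ range k ×ˢ Ioc q (X + k), ((X : ℝ) + k) * ((p.2 : ℝ) ^ 2)⁻¹ := by
    calc (((range X).filter (fun n => ∃ i, i < k ∧ A0 < (sqp (n + i + 1) : ℝ))).card : ℝ) ≤
        ((∑ p ∈ range k ×ˢ Ioc q (X + k), (X + k) / p.2 ^ 2 : ℕ) : ℝ) := by exact_mod_cast h1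
      _ = ∑ p ∈ range k ×ˢ Ioc q (X + k), (((X + k) / p.2 ^ 2 : ℕ) : ℝ) := by push_cast; rfl
      _ ≤ _ := by
          refine sum_le_sum fun p _ => ?_
          have := Nat.cast_div_le (α := ℝ) (m := X + k) (n := p.2 ^ 2)
          push_cast at this
          rw [← div_eq_mul_inv]
          exact this
  rw [sum_product] at h2
  have h3 : ∑ i ∈ range k, ∑ a ∈ Ioc q (X + k), ((X : ℝ) + k) * ((a : ℝ) ^ 2)⁻¹ =
      k * (((X : ℝ) + k) * ∑ a ∈ Ioc q (X + k), ((a : ℝ) ^ 2)⁻¹) := by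
    rw [sum_const, card_range, nsmul_eq_mul]
    congr 1
    rw [mul_sum]
  have h4 := bads_sum q (X + k) hq1
  have hq0 : (0 : ℝ) < q := by exact_mod_cast hq1
  have hA0 : (0 : ℝ) < A0 := by linarith
  have h5 : 1 / (q : ℝ) ≤ 2 / A0 := by
    rw [div_le_div_iff₀ hq0 hA0]
    have h6 : A0 < q + 1 := Nat.lt_floor_add_one A0
    have h7 : (1 : ℝ) ≤ q := by exact_mod_cast hq1
    linarith
  have h8 : (0 : ℝ) ≤ (X : ℝ) + k := by positivity
  calc (((range X).filter (fun n => ∃ i, i < k ∧ A0 < (sqp (n + i + 1) : ℝ))).card : ℝ) ≤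
      k * (((X : ℝ) + k) * ∑ a ∈ Ioc q (X + k), ((a : ℝ) ^ 2)⁻¹) := by rw [← h3]; exact h2
    _ ≤ k * (((X : ℝ) + k) * (2 / A0)) := by
        have := h4.trans h5
        gcongr
    _ = 2 * k * ((X : ℝ) + k) / A0 := by ring

end Pool.Agent.H3.EB
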