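import Pool.Agent.H3.EB.Lcm

/-!
# EB Defect: `B n k` divides `(k!)^(k*k) * (A n k)^2 * rad (B n k)`

Proof.  `sqp_spec`: `n + i + 1 = sqp(n+i+1)^2 * b i` with `b i` squarefree.  So `B n k = (A n k)^2 * ∏ b i`.
`b i ∣ n + i + 1`, so by `prod_dvd_lcm`, `∏ b i ∣ (k!)^(k*k) * lcm (b i)`.  Each `b i` divides `rad (B n k)`:
`b i` is squarefree so `b i = ∏ p ∈ (b i).primeFactors, p` (`Nat.prod_primeFactors_of_squarefree`) and
`(b i).primeFactors ⊆ (B n k).primeFactors` (`b i ∣ n + i + 1 ∣ B n k`, `dvd_B`, `Nat.primeFactors_mono`), then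
`Finset.prod_dvd_prod_of_subset`.  Hence `lcm (b i) ∣ rad (B n k)` (`Finset.lcm_dvd`).
-/

set_option autoImplicit false

open Finset

namespace Pool.Agent.H3.EB

theorem defect (k n : ℕ) : B n k ∣ (k.factorial) ^ (k * k) * (A n k) ^ 2 * rad (B n k) := by
  choose b hb hsq using fun m => sqp_spec m
  have h1 : B n k = (A n k) ^ 2 * ∏ i ∈ range k, b (n + i + 1) := by
    unfold B A
    rw [← Finset.prod_pow, ← Finset.prod_mul_distrib]
    exact Finset.prod_congr rfl fun i _ => (hb (n + i + 1)).symm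
  have h2 : ∏ i ∈ range k, b (n + i + 1) ∣ (k.factorial) ^ (k * k) *
      (range k).lcm (fun i => b (n + i + 1)) :=
    prod_dvd_lcm k n (fun i => b (n + i + 1)) fun i _ => ⟨sqp (n + i + 1) ^ 2, by
      rw [mul_comm]; exact (hb (n + i + 1)).symm⟩
  have h3 : (range k).lcm (fun i => b (n + i + 1)) ∣ rad (B n k) := by
    refine Finset.lcm_dvd fun i hi => ?_
    have hd : b (n + i + 1) ∣ B n k :=
      (Dvd.intro_left _ (hb (n + i + 1))).trans (dvd_B (mem_range.1 hi))
    rw [← Nat.prod_primeFactors_of_squarefree (hsq (n + i + 1))]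
    unfold rad
    exact Finset.prod_dvd_prod_of_subset _ _ _ (Nat.primeFactors_mono hd (B_pos n k).ne')
  have h4 := h2.trans (Nat.mul_dvd_mul_left _ h3)
  rw [h1] at h4 ⊢
  refine (Nat.mul_dvd_mul_left _ h4).trans (dvd_of_eq ?_)
  ring

end Pool.Agent.H3.EB
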