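import Pool.Agent.H3.EB.Near

/-!
# EB Det: three solutions with the same ratio span a small determinant

`det_small`: let `(a1, a2), (b1, b2), (c1, c2)` be pairs with `x1 ≤ x2`,
`B x2 k = ρ * B x1 k` (the same real `ρ`), and `2^r ≤ x1 + 1 < 2^(r+1)` for `x = a, b, c`.  Then
`|(b1 - a1) (c2 - a2) - (c1 - a1) (b2 - a2)| ≤ k^2 ρ`.

Proof.  `θ = ρ^(1/k)`, `ρ ≥ 1`, `θ ≤ ρ` (`k ≥ 1`).  By `near`, `x2 + (k+1)/2 = θ (x1 + (k+1)/2) + δ_x` with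
`|δ_x| ≤ (k^2/4) θ / (x1 + (k+1)/2) ≤ (k^2/4) θ / 2^r` (as `(k+1)/2 ≥ 1`).  The determinant is
`(b1 - a1)(δ_c - δ_a) - (c1 - a1)(δ_b - δ_a)` (the `θ` parts cancel), and `|b1 - a1|, |c1 - a1| ≤ 2^r`, so it is
`≤ 2^r * 2 * (k^2/4) θ/2^r * 2 = k^2 θ ≤ k^2 ρ`.
-/

set_option autoImplicit false

open Finset

namespace Pool.Agent.H3.EB

theorem det_one (k : ℕ) (hk : 1 ≤ k) (ρ θ : ℝ) (hθ : 0 < θ) (hθk : θ ^ k = ρ) (r : ℕ) (x : ℕ × ℕ)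
    (h : x.1 ≤ x.2 ∧ (B x.2 k : ℝ) = ρ * (B x.1 k : ℝ) ∧ 2 ^ r ≤ x.1 + 1 ∧ x.1 + 1 < 2 ^ (r + 1)) :
    |((x.2 : ℝ) + (k + 1) / 2) - θ * ((x.1 : ℝ) + (k + 1) / 2)| ≤ (k : ℝ) ^ 2 / 4 * θ / 2 ^ r ∧
      1 ≤ θ := by
  obtain ⟨h1, h2, h3, h4⟩ := h
  have hB : (0 : ℝ) < (B x.1 k : ℝ) := by exact_mod_cast B_pos _ _
  have hq : θ ^ k = (B x.2 k : ℝ) / (B x.1 k : ℝ) := by
    rw [eq_div_iff hB.ne', hθk, h2]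
  obtain ⟨hn1, hn2⟩ := near k x.1 x.2 hk h1 θ hθ hq
  refine ⟨hn1.trans ?_, hn2⟩
  have hk' : (1 : ℝ) ≤ k := by exact_mod_cast hk
  have h3' : (2 : ℝ) ^ r ≤ (x.1 : ℝ) + 1 := by exact_mod_cast h3
  apply div_le_div_of_nonneg_left (by positivity) (by positivity)
  linarith

theorem det_diff (r : ℕ) (x y : ℕ × ℕ) (hx1 : 2 ^ r ≤ x.1 + 1) (hx2 : x.1 + 1 < 2 ^ (r + 1))
    (hy1 : 2 ^ r ≤ y.1 + 1) (hy2 : y.1 + 1 < 2 ^ (r + 1)) :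
    |(x.1 : ℝ) - y.1| ≤ 2 ^ r := by
  have a1 : (2 : ℝ) ^ r ≤ (x.1 : ℝ) + 1 := by exact_mod_cast hx1
  have a2 : (x.1 : ℝ) + 1 < 2 ^ (r + 1) := by exact_mod_cast hx2
  have b1 : (2 : ℝ) ^ r ≤ (y.1 : ℝ) + 1 := by exact_mod_cast hy1
  have b2 : (y.1 : ℝ) + 1 < 2 ^ (r + 1) := by exact_mod_cast hy2
  rw [pow_succ] at a2 b2
  rw [abs_le]
  constructor <;> linarith

theorem det_small (k : ℕ) (hk : 1 ≤ k) (ρ : ℝ) (r : ℕ) (a b c : ℕ × ℕ)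
    (h : ∀ x ∈ ({a, b, c} : Finset (ℕ × ℕ)), x.1 ≤ x.2 ∧ (B x.2 k : ℝ) = ρ * (B x.1 k : ℝ) ∧
      2 ^ r ≤ x.1 + 1 ∧ x.1 + 1 < 2 ^ (r + 1)) :
    |((b.1 : ℝ) - a.1) * ((c.2 : ℝ) - a.2) - ((c.1 : ℝ) - a.1) * ((b.2 : ℝ) - a.2)| ≤ (k : ℝ) ^ 2 * ρ := by
  have ha := h a (by simp)
  have hb := h b (by simp)
  have hc := h c (by simp)
  have hBa1 : (0 : ℝ) < (B a.1 k : ℝ) := by exact_mod_cast B_pos _ _
  have hBa2 : (0 : ℝ) < (B a.2 k : ℝ) := by exact_mod_cast B_pos _ _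
  have hρ : 0 < ρ := by
    have h1 := ha.2.1
    rw [h1] at hBa2
    exact (pos_iff_pos_of_mul_pos hBa2).2 hBa1
  set θ : ℝ := ρ ^ (1 / (k : ℝ)) with hθdef
  have hθ : 0 < θ := Real.rpow_pos_of_pos hρ _
  have hk0 : (k : ℝ) ≠ 0 := by
    have : k ≠ 0 := by omega
    exact_mod_cast this
  have hθk : θ ^ k = ρ := by
    rw [hθdef, ← Real.rpow_natCast, ← Real.rpow_mul hρ.le, one_div, inv_mul_cancel₀ hk0, Real.rpow_one]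
  obtain ⟨da, hθ1⟩ := det_one k hk ρ θ hθ hθk r a ha
  obtain ⟨db, -⟩ := det_one k hk ρ θ hθ hθk r b hb
  obtain ⟨dc, -⟩ := det_one k hk ρ θ hθ hθk r c hc
  have hθρ : θ ≤ ρ := by
    rw [← hθk]
    calc θ = θ ^ 1 := (pow_one _).symm
      _ ≤ θ ^ k := pow_le_pow_right₀ hθ1 hk
  have hba := det_diff r b a hb.2.2.1 hb.2.2.2 ha.2.2.1 ha.2.2.2
  have hca := det_diff r c a hc.2.2.1 hc.2.2.2 ha.2.2.1 ha.2.2.2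
  set M : ℝ := (k : ℝ) ^ 2 / 4 * θ / 2 ^ r with hM
  set δa : ℝ := ((a.2 : ℝ) + (k + 1) / 2) - θ * ((a.1 : ℝ) + (k + 1) / 2) with hδa
  set δb : ℝ := ((b.2 : ℝ) + (k + 1) / 2) - θ * ((b.1 : ℝ) + (k + 1) / 2) with hδb
  set δc : ℝ := ((c.2 : ℝ) + (k + 1) / 2) - θ * ((c.1 : ℝ) + (k + 1) / 2) with hδc
  have hM0 : 0 ≤ M := by positivity
  have e : ((b.1 : ℝ) - a.1) * ((c.2 : ℝ) - a.2) - ((c.1 : ℝ) - a.1) * ((b.2 : ℝ) - a.2) =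
      ((b.1 : ℝ) - a.1) * (δc - δa) - ((c.1 : ℝ) - a.1) * (δb - δa) := by
    rw [hδa, hδb, hδc]
    ring
  rw [e]
  have h1 : |δc - δa| ≤ 2 * M := by
    have := abs_sub δc δa
    linarith
  have h2 : |δb - δa| ≤ 2 * M := by
    have := abs_sub δb δa
    linarith
  have h3 : |((b.1 : ℝ) - a.1) * (δc - δa)| ≤ 2 ^ r * (2 * M) := by
    rw [abs_mul]
    exact mul_le_mul hba h1 (abs_nonneg _) (by positivity)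
  have h4 : |((c.1 : ℝ) - a.1) * (δb - δa)| ≤ 2 ^ r * (2 * M) := by
    rw [abs_mul]
    exact mul_le_mul hca h2 (abs_nonneg _) (by positivity)
  have h5 : (2 : ℝ) ^ r * (2 * M) + 2 ^ r * (2 * M) = (k : ℝ) ^ 2 * θ := by
    rw [hM]
    field_simp
    ring
  calc |((b.1 : ℝ) - a.1) * (δc - δa) - ((c.1 : ℝ) - a.1) * (δb - δa)|
      ≤ |((b.1 : ℝ) - a.1) * (δc - δa)| + |((c.1 : ℝ) - a.1) * (δb - δa)| := abs_sub _ _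
    _ ≤ 2 ^ r * (2 * M) + 2 ^ r * (2 * M) := add_le_add h3 h4
    _ = (k : ℝ) ^ 2 * θ := h5
    _ ≤ (k : ℝ) ^ 2 * ρ := mul_le_mul_of_nonneg_left hθρ (by positivity)

end Pool.Agent.H3.EB
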