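import Pool.Agent.H3.EB.Line
import Pool.Agent.H3.EB.Det
import Pool.Agent.H3.EB.Defect

/-!
# EB Class: few solutions in a class

A class is a set `T` of solutions `Pair k k n1 n2`, `n2 ≤ N`, on which all the following data are constant:
`sqp (n1+i+1)`, `sqp (n2+i+1)` for `i < k`, `B n1 k / rad (B n1 k)`, `B n2 k / rad (B n2 k)`,
`Nat.log 2 (n1 + 1)`.  `class_count`: `T.card ≤ C N^ε`  (`k ≥ 2`, `C` depends on `k, ε` only).

Proof.  If `T` has at most one element, fine (`N ≥ 1`).  Otherwise fix `P0 ≠ P1` in `T`, write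
`e i = sqp (n1+i+1)^2`, `f i = sqp (n2+i+1)^2` (constant on `T`), `D1 = lcm (e i)`, `D2 = lcm (f i)`,
`s = B n1 k / rad`, `t = B n2 k / rad` (constant, positive; the two radicals are equal by `Pair.rad_eq`), so
`B n2 k = ρ B n1 k` with `ρ = t / s` for all elements of `T`.
* `n1, n1'` of two elements of `T` are congruent modulo `D1` (each `e i` divides both `n1+i+1` and `n1'+i+1`, hence
  the difference), `n2, n2'` are congruent modulo `D2`.  So for `P2 ∈ T` the integer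
  `c = (P1.1 - P0.1)(P2.2 - P0.2) - (P2.1 - P0.1)(P1.2 - P0.2)` is divisible by `D1 D2`, in particular by `D2`.
* By `det_small` (`r = Nat.log 2 (n1+1)`), `|c| ≤ k^2 ρ ≤ k^2 t`.  By `defect`, `t` divides `(k!)^(k*k) (A n2 k)^2`,
  and `(A n2 k)^2 = ∏ f i` divides `(k!)^(k*k) D2` by `prod_dvd_lcm`.  So `t ≤ (k!)^(2k^2) D2` and
  `|c| ≤ K D2` with `K = k^2 (k!)^(2 k^2)`, `D2 ∣ c`: at most `2 K + 1` values of `c`.
* For a fixed value `c` the elements `P2` satisfy `α n1 + β n2 = γ` with `β = P1.1 - P0.1`,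
  `α = -(P1.2 - P0.2)`, `γ = c + β P0.2 + α P0.1`; `(α, β) ≠ (0,0)`, `|α|, |β| ≤ N`,
  `|γ| ≤ 2 N^2 + 2 N^2`.  `line_count` with `H = 4 N^2` (and exponent `ε/2`) gives `≤ C N^ε` (up to a constant).
  (`|c| ≤ 2 N^2` since all coordinates are `≤ N`.)
So `T.card ≤ (2K+1) C' N^ε` (`Finset.card_le_mul_card_image` or `card_eq_sum_card_fiberwise` for the map `P2 ↦ c`).
-/

set_option autoImplicit false

open Finset

namespace Pool.Agent.H3.EB

/-- the sixth parts: divisibility of a difference by the lcm -/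
theorem class_lcm_dvd (k a b : ℕ) (h : ∀ i, i < k → sqp (a + i + 1) = sqp (b + i + 1)) :
    (((range k).lcm (fun i => sqp (b + i + 1) ^ 2) : ℕ) : ℤ) ∣ (a : ℤ) - b := by
  rw [Int.natCast_dvd]
  refine Finset.lcm_dvd fun i hi => ?_
  rw [mem_range] at hi
  rw [← Int.natCast_dvd]
  have h1 : ((sqp (b + i + 1) ^ 2 : ℕ) : ℤ) ∣ ((a + i + 1 : ℕ) : ℤ) := by
    rw [Int.natCast_dvd_natCast, ← h i hi]
    exact sqp_sq_dvd _
  have h2 : ((sqp (b + i + 1) ^ 2 : ℕ) : ℤ) ∣ ((b + i + 1 : ℕ) : ℤ) := by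
    rw [Int.natCast_dvd_natCast]
    exact sqp_sq_dvd _
  have h3 := dvd_sub h1 h2
  push_cast at h3 ⊢
  have e : (a : ℤ) + i + 1 - (b + i + 1) = a - b := by ring
  rwa [e] at h3

/-- the quotient `B / rad` is at most a constant times the lcm -/
theorem class_t_le (k n : ℕ) :
    B n k / rad (B n k) ≤ (k.factorial ^ (k * k) * k.factorial ^ (k * k)) *
      (range k).lcm (fun i => sqp (n + i + 1) ^ 2) := by
  have hrp : 0 < rad (B n k) := rad_pos _
  have h1 := defect k n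
  obtain ⟨t, ht⟩ := rad_dvd (B n k)
  have ht' : B n k / rad (B n k) = t := Nat.div_eq_of_eq_mul_right hrp ht
  rw [ht']
  have h2 : rad (B n k) * t ∣ rad (B n k) * (k.factorial ^ (k * k) * A n k ^ 2) := by
    rw [← ht, mul_comm (rad (B n k))]
    exact h1
  have h3 : t ∣ k.factorial ^ (k * k) * A n k ^ 2 := Nat.dvd_of_mul_dvd_mul_left hrp h2
  have h4 : A n k ^ 2 ∣ k.factorial ^ (k * k) * (range k).lcm (fun i => sqp (n + i + 1) ^ 2) := by
    have h5 := prod_dvd_lcm k n (fun i => sqp (n + i + 1) ^ 2) fun i _ => sqp_sq_dvd _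
    have h6 : A n k ^ 2 = ∏ i ∈ range k, sqp (n + i + 1) ^ 2 := by
      unfold A
      rw [Finset.prod_pow]
    rw [h6]
    exact h5
  have h7 : t ∣ (k.factorial ^ (k * k) * k.factorial ^ (k * k)) *
      (range k).lcm (fun i => sqp (n + i + 1) ^ 2) := by
    rw [mul_assoc]
    exact h3.trans (mul_dvd_mul_left _ h4)
  refine Nat.le_of_dvd ?_ h7
  have hL : (range k).lcm (fun i => sqp (n + i + 1) ^ 2) ≠ 0 := by
    intro h0
    rw [Finset.lcm_eq_zero_iff] at h0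
    obtain ⟨i, _, hi⟩ := h0
    have := sqp_pos (Nat.succ_pos (n + i))
    exact absurd hi (pow_pos this 2).ne'
  have hf : 0 < k.factorial ^ (k * k) := pow_pos (Nat.factorial_pos k) _
  exact Nat.mul_pos (Nat.mul_pos hf hf) (Nat.pos_of_ne_zero hL)

theorem class_four_sq (N : ℕ) (hN : 1 ≤ N) : N ≤ 4 * N ^ 2 := by nlinarith

theorem class_line_eq (p1 p2 r1 r2 q1 q2 a1 a2 : ℤ)
    (h : (r1 - p1) * (q2 - p2) - (q1 - p1) * (r2 - p2) =
      (r1 - p1) * (a2 - p2) - (a1 - p1) * (r2 - p2)) :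
    -(r2 - p2) * a1 + (r1 - p1) * a2 = -(r2 - p2) * q1 + (r1 - p1) * q2 := by
  linarith

theorem class_lcm_pos (k n : ℕ) : 0 < (range k).lcm (fun i => sqp (n + i + 1) ^ 2) := by
  refine Nat.pos_of_ne_zero fun h0 => ?_
  rw [Finset.lcm_eq_zero_iff] at h0
  obtain ⟨i, _, hi⟩ := h0
  have := sqp_pos (Nat.succ_pos (n + i))
  exact absurd hi (pow_pos this 2).ne'

theorem class_count (k : ℕ) (hk : 2 ≤ k) (ε : ℝ) (hε : 0 < ε) : ∃ C : ℝ, 0 < C ∧ ∀ N : ℕ, 1 ≤ N →
    ∀ T : Finset (ℕ × ℕ), (∀ p ∈ T, Pair k k p.1 p.2 ∧ p.2 ≤ N) →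
      (∀ p ∈ T, ∀ q ∈ T, (∀ i, i < k → sqp (p.1 + i + 1) = sqp (q.1 + i + 1)) ∧
        (∀ i, i < k → sqp (p.2 + i + 1) = sqp (q.2 + i + 1)) ∧
        B p.1 k / rad (B p.1 k) = B q.1 k / rad (B q.1 k) ∧
        B p.2 k / rad (B p.2 k) = B q.2 k / rad (B q.2 k) ∧
        Nat.log 2 (p.1 + 1) = Nat.log 2 (q.1 + 1)) →
      (T.card : ℝ) ≤ C * (N : ℝ) ^ ε := by
  obtain ⟨C0, hC0, hline⟩ := line_count k hk (ε / 2) (by positivity)
  set K : ℕ := k ^ 2 * (k.factorial ^ (k * k) * k.factorial ^ (k * k)) with hK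
  refine ⟨(2 * K + 1) * (C0 * (4 : ℝ) ^ (ε / 2)) + 1, by positivity, ?_⟩
  intro N hN T hT hcl
  have hN1 : (1 : ℝ) ≤ N := by exact_mod_cast hN
  have hNe : (1 : ℝ) ≤ (N : ℝ) ^ ε := Real.one_le_rpow hN1 hε.le
  have hC4 : (0 : ℝ) ≤ (2 * K + 1) * (C0 * (4 : ℝ) ^ (ε / 2)) := by positivity
  rcases Nat.lt_or_ge 1 T.card with hcard | hcard
  swap
  · have h1 : (T.card : ℝ) ≤ 1 := by exact_mod_cast hcard
    nlinarith
  obtain ⟨P0, h0, P1, h1, hne⟩ := Finset.one_lt_card.1 hcard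
  set D : ℕ := (range k).lcm (fun i => sqp (P0.2 + i + 1) ^ 2) with hD
  have hDpos : 0 < D := class_lcm_pos k P0.2
  have hDz : (0 : ℤ) < D := by exact_mod_cast hDpos
  set c : ℕ × ℕ → ℤ := fun P => ((P1.1 : ℤ) - P0.1) * ((P.2 : ℤ) - P0.2) -
    ((P.1 : ℤ) - P0.1) * ((P1.2 : ℤ) - P0.2) with hc
  -- divisibility
  have hdvd : ∀ P ∈ T, (D : ℤ) ∣ c P := by
    intro P hP
    have e1 : (D : ℤ) ∣ (P.2 : ℤ) - P0.2 := class_lcm_dvd k P.2 P0.2 (hcl P hP P0 h0).2.1
    have e2 : (D : ℤ) ∣ (P1.2 : ℤ) - P0.2 := class_lcm_dvd k P1.2 P0.2 (hcl P1 h1 P0 h0).2.1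
    exact dvd_sub (e1.mul_left _) (e2.mul_left _)
  -- size
  set s : ℕ := B P0.1 k / rad (B P0.1 k) with hs
  set t : ℕ := B P0.2 k / rad (B P0.2 k) with ht
  have hspos : 0 < s := Nat.div_pos (Nat.le_of_dvd (B_pos _ _) (rad_dvd _)) (rad_pos _)
  have hρ : ∀ P ∈ T, (B P.2 k : ℝ) = ((t : ℝ) / s) * (B P.1 k : ℝ) := by
    intro P hP
    have e1 : B P.1 k = s * rad (B P.1 k) := by
      rw [hs, ← (hcl P hP P0 h0).2.2.1, Nat.div_mul_cancel (rad_dvd _)]
    have e2 : B P.2 k = t * rad (B P.2 k) := by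
      rw [ht, ← (hcl P hP P0 h0).2.2.2.1, Nat.div_mul_cancel (rad_dvd _)]
    have e3 : rad (B P.1 k) = rad (B P.2 k) := (hT P hP).1.rad_eq
    have e4 : (B P.1 k : ℝ) = s * (rad (B P.1 k) : ℝ) := by exact_mod_cast e1
    have e5 : (B P.2 k : ℝ) = t * (rad (B P.2 k) : ℝ) := by exact_mod_cast e2
    have hs' : (s : ℝ) ≠ 0 := by exact_mod_cast hspos.ne'
    rw [e4, e5, e3]
    field_simp
  have hbound : ∀ P ∈ T, |c P| ≤ (K : ℤ) * D := by
    intro P hP
    have hmem : ∀ x ∈ ({P0, P1, P} : Finset (ℕ × ℕ)), x ∈ T := by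
      intro x hx
      simp only [Finset.mem_insert, Finset.mem_singleton] at hx
      rcases hx with rfl | rfl | rfl <;> assumption
    have hd := det_small k (by omega) ((t : ℝ) / s) (Nat.log 2 (P0.1 + 1)) P0 P1 P (by
      intro x hx
      have hxT := hmem x hx
      refine ⟨((hT x hxT).1.lt (by omega)).le, hρ x hxT, ?_, ?_⟩
      · rw [← (hcl x hxT P0 h0).2.2.2.2]
        exact Nat.pow_log_le_self 2 (by omega)
      · rw [← (hcl x hxT P0 h0).2.2.2.2]
        exact Nat.lt_pow_succ_log_self (by norm_num) _)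
    have hts : (t : ℝ) / s ≤ t := by
      have : (1 : ℝ) ≤ s := by exact_mod_cast hspos
      exact div_le_self (Nat.cast_nonneg _) this
    have htD : (t : ℝ) ≤ ((k.factorial ^ (k * k) * k.factorial ^ (k * k) * D : ℕ) : ℝ) := by
      have := class_t_le k P0.2
      exact_mod_cast this
    have hcast : |((c P : ℤ) : ℝ)| ≤ ((K * D : ℕ) : ℝ) := by
      have e : ((c P : ℤ) : ℝ) = ((P1.1 : ℝ) - P0.1) * ((P.2 : ℝ) - P0.2) -
          ((P.1 : ℝ) - P0.1) * ((P1.2 : ℝ) - P0.2) := by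
        rw [hc]; push_cast; ring
      rw [e]
      refine hd.trans ?_
      calc (k : ℝ) ^ 2 * ((t : ℝ) / s) ≤ (k : ℝ) ^ 2 * t :=
            mul_le_mul_of_nonneg_left hts (by positivity)
        _ ≤ (k : ℝ) ^ 2 * ((k.factorial ^ (k * k) * k.factorial ^ (k * k) * D : ℕ) : ℝ) :=
            mul_le_mul_of_nonneg_left htD (by positivity)
        _ = ((K * D : ℕ) : ℝ) := by rw [hK]; push_cast; ring
    rw [← Int.cast_abs] at hcast
    exact_mod_cast hcast
  -- the map to a bounded interval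
  set g : ℕ × ℕ → ℤ := fun P => c P / D with hg
  have hgc : ∀ P ∈ T, c P = g P * D := fun P hP => (Int.ediv_mul_cancel (hdvd P hP)).symm
  have hgmem : ∀ P ∈ T, g P ∈ Finset.Icc (-(K : ℤ)) K := by
    intro P hP
    have h2 := hbound P hP
    rw [hgc P hP, abs_mul, abs_of_pos hDz] at h2
    have h3 : |g P| ≤ K := le_of_mul_le_mul_right h2 hDz
    rw [Finset.mem_Icc]
    exact abs_le.1 h3
  have hfib : ∀ b ∈ Finset.Icc (-(K : ℤ)) K,
      (((T.filter (fun P => g P = b)).card : ℕ) : ℝ) ≤ C0 * (4 : ℝ) ^ (ε / 2) * (N : ℝ) ^ ε := by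
    intro b _
    rcases (T.filter (fun P => g P = b)).eq_empty_or_nonempty with hemp | ⟨Q, hQ⟩
    · rw [hemp]
      simp only [Finset.card_empty, Nat.cast_zero]
      positivity
    rw [Finset.mem_filter] at hQ
    have hle : ∀ P ∈ T, (P.1 : ℤ) ≤ N ∧ (P.2 : ℤ) ≤ N := by
      intro P hP
      have e1 := (hT P hP).2
      have e2 := (hT P hP).1.lt (by omega)
      constructor
      · exact_mod_cast (by omega : P.1 ≤ N)
      · exact_mod_cast e1
    set α : ℤ := -((P1.2 : ℤ) - P0.2) with hα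
    set β : ℤ := (P1.1 : ℤ) - P0.1 with hβ
    have hab : α ≠ 0 ∨ β ≠ 0 := by
      by_contra hcon
      push Not at hcon
      apply hne
      have e1 : P0.1 = P1.1 := by
        have := hcon.2
        rw [hβ] at this
        omega
      have e2 : P0.2 = P1.2 := by
        have := hcon.1
        rw [hα] at this
        omega
      exact Prod.ext e1 e2
    have hNz : (1 : ℤ) ≤ N := by exact_mod_cast hN
    have l0 := hle P0 h0
    have l1 := hle P1 h1
    have lQ := hle Q hQ.1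
    have p0a : (0 : ℤ) ≤ P0.1 := Int.natCast_nonneg _
    have p0b : (0 : ℤ) ≤ P0.2 := Int.natCast_nonneg _
    have p1a : (0 : ℤ) ≤ P1.1 := Int.natCast_nonneg _
    have p1b : (0 : ℤ) ≤ P1.2 := Int.natCast_nonneg _
    have pQa : (0 : ℤ) ≤ Q.1 := Int.natCast_nonneg _
    have pQb : (0 : ℤ) ≤ Q.2 := Int.natCast_nonneg _
    have hαN : |α| ≤ N := by rw [hα, abs_le]; constructor <;> linarith
    have hβN : |β| ≤ N := by rw [hβ, abs_le]; constructor <;> linarith
    have hNN2 : N ≤ 4 * N ^ 2 := class_four_sq N hN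
    have hNN : (N : ℤ) ≤ ((4 * N ^ 2 : ℕ) : ℤ) := by exact_mod_cast hNN2
    have hγ : |α * Q.1 + β * Q.2| ≤ ((4 * N ^ 2 : ℕ) : ℤ) := by
      have e1 : |α * Q.1| ≤ N * N := by
        rw [abs_mul, abs_of_nonneg pQa]
        exact mul_le_mul hαN lQ.1 pQa (by linarith)
      have e2 : |β * Q.2| ≤ N * N := by
        rw [abs_mul, abs_of_nonneg pQb]
        exact mul_le_mul hβN lQ.2 pQb (by linarith)
      have e3 := abs_add_le (α * Q.1) (β * Q.2)
      have e4 : ((4 * N ^ 2 : ℕ) : ℤ) = 4 * (N * N : ℤ) := by push_cast; ring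
      have e5 : (0 : ℤ) ≤ N * N := mul_self_nonneg _
      rw [e4]
      linarith
    have hlin := hline (4 * N ^ 2) (hN.trans hNN2) α β (α * Q.1 + β * Q.2) hab
      (hαN.trans hNN) (hβN.trans hNN) hγ (T.filter (fun P => g P = b)) (by
        intro P hP
        rw [Finset.mem_filter] at hP
        refine ⟨(hT P hP.1).1, ?_, ?_⟩
        · exact (hT P hP.1).2.trans hNN2
        · have e1 := hgc P hP.1
          have e2 := hgc Q hQ.1
          rw [hP.2] at e1
          rw [hQ.2, ← e1] at e2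
          exact class_line_eq _ _ _ _ _ _ _ _ e2)
    refine hlin.trans (le_of_eq ?_)
    have e4 : ((4 * N ^ 2 : ℕ) : ℝ) ^ (ε / 2) = (4 : ℝ) ^ (ε / 2) * (N : ℝ) ^ ε := by
      push_cast
      rw [Real.mul_rpow (by norm_num) (by positivity), ← Real.rpow_natCast (N : ℝ) 2,
        ← Real.rpow_mul (by linarith)]
      congr 2
      push_cast
      ring
    rw [e4]
    ring
  have hsum : (T.card : ℝ) = ∑ b ∈ Finset.Icc (-(K : ℤ)) K,
      (((T.filter (fun P => g P = b)).card : ℕ) : ℝ) := by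
    have := Finset.card_eq_sum_card_fiberwise (f := g) (s := T) (t := Finset.Icc (-(K : ℤ)) K)
      (fun P hP => Finset.mem_coe.2 (hgmem P hP))
    exact_mod_cast this
  rw [hsum]
  refine (Finset.sum_le_card_nsmul _ _ _ hfib).trans ?_
  have hcI : (Finset.Icc (-(K : ℤ)) K).card = 2 * K + 1 := by
    rw [Int.card_Icc]
    omega
  rw [hcI, nsmul_eq_mul]
  push_cast
  nlinarith

end Pool.Agent.H3.EB
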