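import Mathlib

/-!
# PROJECT EB (MP_b43c01_nt, Erdos 931: blocks of consecutive integers with equal prime sets): definitions

`B n k = (n+1)(n+2)...(n+k)`, a pair `(n1, n2)` is a solution when `n1 + k1 ≤ n2` and the products
`B n1 k1` and `B n2 k2` have the same prime factors.

Final theorem (Main.lean): for `k1 ≥ k2 ≥ 1`, `k1 ≥ 2`, the number of solutions with `n2 ≤ N` is
`≤ C N^(θ+ε)` with `θ = 2/3` if `k1 = k2` and `θ = max (2/3) (k2/k1)` if `k1 > k2`.
-/

set_option autoImplicit false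

open Finset

namespace Pool.Agent.H3.EB

/-- the product `(n+1)(n+2)...(n+k)` -/
def B (n k : ℕ) : ℕ := ∏ i ∈ range k, (n + i + 1)

/-- the product of the prime factors -/
def rad (m : ℕ) : ℕ := ∏ p ∈ m.primeFactors, p

/-- the two disjoint blocks `(n1, n1+k1]`, `(n2, n2+k2]` have the same prime set -/
def Pair (k1 k2 n1 n2 : ℕ) : Prop := n1 + k1 ≤ n2 ∧ (B n1 k1).primeFactors = (B n2 k2).primeFactors

/-- a number `b` with `m = b ^ 2 * a`, `a` squarefree -/
noncomputable def sqp (m : ℕ) : ℕ := (Nat.sq_mul_squarefree m).choose_spec.choose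

/-- the product of the numbers `sqp` over the block `(n, n+k]` -/
noncomputable def A (n k : ℕ) : ℕ := ∏ i ∈ range k, sqp (n + i + 1)

open scoped Classical in
/-- the solutions with `n2 ≤ N` -/
noncomputable def S (k1 k2 N : ℕ) : Finset (ℕ × ℕ) :=
  ((range (N + 1)) ×ˢ (range (N + 1))).filter (fun p => Pair k1 k2 p.1 p.2)

theorem B_pos (n k : ℕ) : 0 < B n k := prod_pos fun _ _ => Nat.succ_pos _

theorem dvd_B {n k i : ℕ} (hi : i < k) : n + i + 1 ∣ B n k :=
  dvd_prod_of_mem (fun i => n + i + 1) (mem_range.2 hi)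

theorem rad_pos (m : ℕ) : 0 < rad m := prod_pos fun _ hp => (Nat.prime_of_mem_primeFactors hp).pos

theorem rad_dvd (m : ℕ) : rad m ∣ m := Nat.prod_primeFactors_dvd m

theorem sqp_spec (m : ℕ) : ∃ a : ℕ, sqp m ^ 2 * a = m ∧ Squarefree a := by
  exact ⟨_, (Nat.sq_mul_squarefree m).choose_spec.choose_spec⟩

theorem sqp_sq_dvd (m : ℕ) : sqp m ^ 2 ∣ m := by
  obtain ⟨a, h, _⟩ := sqp_spec m
  exact ⟨a, h.symm⟩

theorem sqp_pos {m : ℕ} (hm : 0 < m) : 0 < sqp m := by
  rcases Nat.eq_zero_or_pos (sqp m) with h | h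
  · exfalso
    obtain ⟨a, h1, _⟩ := sqp_spec m
    rw [h] at h1
    simp at h1
    omega
  · exact h

theorem A_pos (n k : ℕ) : 0 < A n k := prod_pos fun _ _ => sqp_pos (Nat.succ_pos _)

theorem B_le (n k : ℕ) : B n k ≤ (n + k) ^ k := by
  unfold B
  calc ∏ i ∈ range k, (n + i + 1) ≤ ∏ _i ∈ range k, (n + k) :=
        prod_le_prod' fun i hi => by rw [mem_range] at hi; omega
    _ = (n + k) ^ k := by rw [prod_const, card_range]

theorem le_B (n k : ℕ) : (n + 1) ^ k ≤ B n k := by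
  unfold B
  calc (n + 1) ^ k = ∏ _i ∈ range k, (n + 1) := by rw [prod_const, card_range]
    _ ≤ ∏ i ∈ range k, (n + i + 1) := prod_le_prod' fun i _ => by omega

theorem Pair.lt {k1 k2 n1 n2 : ℕ} (h : Pair k1 k2 n1 n2) (hk : 1 ≤ k1) : n1 < n2 := by
  have := h.1
  omega

theorem Pair.rad_eq {k1 k2 n1 n2 : ℕ} (h : Pair k1 k2 n1 n2) : rad (B n1 k1) = rad (B n2 k2) := by
  unfold rad
  rw [h.2]

theorem mem_S {k1 k2 N n1 n2 : ℕ} : (n1, n2) ∈ S k1 k2 N ↔ n2 ≤ N ∧ Pair k1 k2 n1 n2 := by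
  classical
  unfold S
  rw [mem_filter, mem_product, mem_range, mem_range]
  constructor
  · rintro ⟨⟨_, h⟩, h'⟩
    exact ⟨by omega, h'⟩
  · rintro ⟨h, h'⟩
    have := h'.1
    exact ⟨⟨by simp only; omega, by simp only; omega⟩, h'⟩

end Pool.Agent.H3.EB
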