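import Pool.Agent.H3.EB.SU

/-!
# EB Few: each of `n1, n2` determines the other one up to `C N^ε` possibilities

`few2`: given `n1 ≤ N`, the number of `n2 ≤ N` with `Pair k1 k2 n1 n2` is `≤ C N^ε` (`k2 ≥ 1`).
Proof: `n2 + 1 ∣ B n2 k2` (`dvd_B` with `i = 0`), so the prime factors of `n2 + 1` are contained in
`(B n2 k2).primeFactors = (B n1 k1).primeFactors` (`Nat.primeFactors_mono`).  Apply `su_count` with
`R = B n1 k1 ≤ (N + k1)^k1 ≤ ((k1+1) N)^k1` (`B_le`), `Y = N + 1 ≤ 2 N`, exponent `ε/(k1+2)`, to the image of the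
set under the injective map `n2 ↦ n2 + 1`.

`few1`: given `n2 ≤ N`, the number of `n1` with `Pair k1 k2 n1 n2` is `≤ C N^ε` (`k1 ≥ 1`), in the same way
(`n1 ≤ n2 ≤ N` from the definition of `Pair`).
-/

set_option autoImplicit false

open Finset

namespace Pool.Agent.H3.EB

theorem few_aux (k k' : ℕ) (hk' : 1 ≤ k') (ε : ℝ) (hε : 0 < ε) : ∃ C : ℝ, 0 < C ∧ ∀ N : ℕ, 1 ≤ N →
    ∀ m : ℕ, m ≤ N → ∀ T : Finset ℕ,
      (∀ n ∈ T, n ≤ N ∧ (B n k').primeFactors = (B m k).primeFactors) →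
      (T.card : ℝ) ≤ C * (N : ℝ) ^ ε := by
  have hk1 : (0 : ℝ) < (k : ℝ) + 1 := by positivity
  set δ : ℝ := ε / ((k : ℝ) + 1) with hδ
  have hδ0 : 0 < δ := div_pos hε hk1
  obtain ⟨C, hC, hcount⟩ := su_count δ hδ0
  refine ⟨C * ((((k : ℝ) + 1) ^ k * 2) ^ δ), by positivity, ?_⟩
  intro N hN m hm T hT
  have hR : 1 ≤ B m k := B_pos m k
  have hRle : B m k ≤ ((k + 1) * N) ^ k := by
    refine (B_le m k).trans (Nat.pow_le_pow_left ?_ k)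
    nlinarith
  have h1 := hcount (B m k) (N + 1) hR (by omega)
  have hsub : T.image (fun n => n + 1) ⊆
      (Icc 1 (N + 1)).filter (fun y => y.primeFactors ⊆ (B m k).primeFactors) := by
    intro y hy
    rw [mem_image] at hy
    obtain ⟨n, hn, rfl⟩ := hy
    obtain ⟨h2, h3⟩ := hT n hn
    rw [mem_filter, mem_Icc]
    refine ⟨⟨by omega, by omega⟩, ?_⟩
    rw [← h3]
    refine Nat.primeFactors_mono ?_ (B_pos n k').ne'
    have h4 : n + 0 + 1 ∣ B n k' := dvd_B (i := 0) (k := k') hk'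
    simpa using h4
  have hcard : T.card ≤
      ((Icc 1 (N + 1)).filter (fun y => y.primeFactors ⊆ (B m k).primeFactors)).card := by
    have h5 : (T.image (fun n => n + 1)).card = T.card :=
      card_image_of_injective T (fun a b h => by simpa using h)
    rw [← h5]
    exact card_le_card hsub
  have hNr : (1 : ℝ) ≤ (N : ℝ) := by exact_mod_cast hN
  have hRr : (B m k : ℝ) ≤ (((k : ℝ) + 1) * N) ^ k := by exact_mod_cast hRle
  have hprod : (B m k : ℝ) * ((N + 1 : ℕ) : ℝ) ≤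
      (((k : ℝ) + 1) ^ k * 2) * (N : ℝ) ^ ((k : ℝ) + 1) := by
    have h6 : (N : ℝ) ^ ((k : ℝ) + 1) = (N : ℝ) ^ k * N := by
      rw [Real.rpow_add_one (by positivity), Real.rpow_natCast]
    rw [h6]
    have h7 : ((N + 1 : ℕ) : ℝ) ≤ 2 * N := by push_cast; linarith
    calc (B m k : ℝ) * ((N + 1 : ℕ) : ℝ) ≤ (((k : ℝ) + 1) * N) ^ k * (2 * N) :=
          mul_le_mul hRr h7 (by positivity) (by positivity)
      _ = (((k : ℝ) + 1) ^ k * 2) * ((N : ℝ) ^ k * N) := by rw [mul_pow]; ring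
  calc (T.card : ℝ) ≤
      (((Icc 1 (N + 1)).filter (fun y => y.primeFactors ⊆ (B m k).primeFactors)).card : ℝ) := by
        exact_mod_cast hcard
    _ ≤ C * ((B m k : ℝ) * ((N + 1 : ℕ) : ℝ)) ^ δ := h1
    _ ≤ C * ((((k : ℝ) + 1) ^ k * 2) * (N : ℝ) ^ ((k : ℝ) + 1)) ^ δ := by
        refine mul_le_mul_of_nonneg_left ?_ hC.le
        exact Real.rpow_le_rpow (by positivity) hprod hδ0.le
    _ = C * ((((k : ℝ) + 1) ^ k * 2) ^ δ) * (N : ℝ) ^ ε := by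
        rw [Real.mul_rpow (by positivity) (by positivity), ← Real.rpow_mul (by positivity)]
        have h8 : ((k : ℝ) + 1) * δ = ε := by rw [hδ]; field_simp
        rw [h8]
        ring

theorem few2 (k1 k2 : ℕ) (hk2 : 1 ≤ k2) (ε : ℝ) (hε : 0 < ε) : ∃ C : ℝ, 0 < C ∧ ∀ N : ℕ, 1 ≤ N →
    ∀ n1 : ℕ, n1 ≤ N → ∀ T : Finset ℕ, (∀ n2 ∈ T, n2 ≤ N ∧ Pair k1 k2 n1 n2) →
      (T.card : ℝ) ≤ C * (N : ℝ) ^ ε := by
  obtain ⟨C, hC, h⟩ := few_aux k1 k2 hk2 ε hε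
  refine ⟨C, hC, fun N hN n1 hn1 T hT => h N hN n1 hn1 T fun n hn => ⟨(hT n hn).1, (hT n hn).2.2.symm⟩⟩

theorem few1 (k1 k2 : ℕ) (hk1 : 1 ≤ k1) (ε : ℝ) (hε : 0 < ε) : ∃ C : ℝ, 0 < C ∧ ∀ N : ℕ, 1 ≤ N →
    ∀ n2 : ℕ, n2 ≤ N → ∀ T : Finset ℕ, (∀ n1 ∈ T, Pair k1 k2 n1 n2) →
      (T.card : ℝ) ≤ C * (N : ℝ) ^ ε := by
  obtain ⟨C, hC, h⟩ := few_aux k2 k1 hk1 ε hε
  refine ⟨C, hC, fun N hN n2 hn2 T hT => h N hN n2 hn2 T fun n hn => ⟨?_, (hT n hn).2⟩⟩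
  have := (hT n hn).1
  omega

end Pool.Agent.H3.EB
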