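import Pool.Agent.H3.EB.Class
import Pool.Agent.H3.EB.Tup

/-!
# EB Good: solutions with small square parts

`good_pairs`: for `k ≥ 2`, `ε > 0` there is `C` such that for all `N ≥ 1`, real `M ≥ 1` with `M ≤ N`, the number of
solutions `Pair k k n1 n2`, `n2 ≤ N`, with `A n1 k ≤ M` and `A n2 k ≤ M` is `≤ C N^ε M^2`.

Proof.  Consider the map `p ↦ (a, c, s, t, r)` with `a i = sqp (p.1+i+1)` (`a : Fin k → ℕ`),
`c i = sqp (p.2+i+1)`, `s = B p.1 k / rad`, `t = B p.2 k / rad`, `r = Nat.log 2 (p.1+1)`.  Each fibre has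
`≤ C1 N^(ε')` elements by `class_count`.  The number of values: `a` and `c` are tuples of positive integers with
product `≤ M`, `≤ C2 M^(1+ε')` each by `tup_le` (`∏_{i : Fin k} a i = A p.1 k`, `Finset.prod_range`).
For given `a, c`: by `defect`, `B p.1 k ∣ (k!)^(k*k) (∏ a i)^2 * rad (B p.1 k)`, so
`s ∣ (k!)^(k*k) (∏ a i)^2`, at most `C3 (M^2)^(ε')` divisors (`div_count`); the same for `t`.
`r ≤ log2 (N+1) ≤ C4 N^(ε')`.  In total `≤ C M^2 (M N)^(c ε') ≤ C M^2 N^ε` for `ε'` small (e.g. `ε' = ε/20`).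
(Suggestion: bound `T.card` by `∑` over the image of the map to `(a, c)` first, then over `(s, t, r)` in
`divisors × divisors × range`, with `Finset.card_le_mul_card_image` twice, or
`Finset.card_eq_sum_card_fiberwise`.)
-/

set_option autoImplicit false

open Finset

namespace Pool.Agent.H3.EB

theorem good_fib {α β : Type*} [DecidableEq β] (f : α → β) (s : Finset α) (t : Finset β)
    (hf : ∀ a ∈ s, f a ∈ t) (n : ℝ) (hn : ∀ b ∈ t, ((s.filter (fun x => f x = b)).card : ℝ) ≤ n) :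
    (s.card : ℝ) ≤ n * t.card := by
  rw [Finset.card_eq_sum_card_fiberwise hf]
  push_cast
  calc ∑ b ∈ t, ((s.filter (fun x => f x = b)).card : ℝ) ≤ ∑ _b ∈ t, n := sum_le_sum hn
    _ = n * t.card := by rw [sum_const, nsmul_eq_mul]; ring

theorem good_dvd (k n : ℕ) :
    B n k / rad (B n k) ∣ (k.factorial) ^ (k * k) * (∏ i : Fin k, sqp (n + i + 1)) ^ 2 := by
  have hA : ∏ i : Fin k, sqp (n + i + 1) = A n k := by
    unfold A
    rw [Finset.prod_range (fun i => sqp (n + i + 1))]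
  rw [hA]
  have h := defect k n
  obtain ⟨s, hs⟩ := rad_dvd (B n k)
  have hr := rad_pos (B n k)
  have h1 : B n k / rad (B n k) = s := Nat.div_eq_of_eq_mul_right hr hs
  rw [h1]
  refine Nat.dvd_of_mul_dvd_mul_left hr ?_
  rw [← hs, mul_comm (rad (B n k))]
  exact h

theorem good_pairs (k : ℕ) (hk : 2 ≤ k) (ε : ℝ) (hε : 0 < ε) : ∃ C : ℝ, 0 < C ∧ ∀ N : ℕ, 1 ≤ N →
    ∀ M : ℝ, 1 ≤ M → M ≤ N → ∀ T : Finset (ℕ × ℕ),
      (∀ p ∈ T, Pair k k p.1 p.2 ∧ p.2 ≤ N ∧ (A p.1 k : ℝ) ≤ M ∧ (A p.2 k : ℝ) ≤ M) →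
      (T.card : ℝ) ≤ C * (N : ℝ) ^ ε * M ^ 2 := by
  have hδ : 0 < ε / 8 := by positivity
  set δ := ε / 8 with hδdef
  obtain ⟨C1, hC1, h1⟩ := class_count k hk δ hδ
  obtain ⟨C2, hC2, h2⟩ := tup_le k δ hδ
  obtain ⟨C3, hC3, h3⟩ := div_count δ hδ
  set K : ℕ := (k.factorial) ^ (k * k) with hK
  have hKpos : 0 < K := by rw [hK]; positivity
  have hKR : (0 : ℝ) < (K : ℝ) := by exact_mod_cast hKpos
  refine ⟨C1 * (C3 * (K : ℝ) ^ δ) ^ 2 * (C3 * (2 : ℝ) ^ δ) * C2 ^ 2, by positivity, ?_⟩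
  intro N hN M hM hMN T hT
  have hNR : (1 : ℝ) ≤ N := by exact_mod_cast hN
  have hN0 : (0 : ℝ) ≤ N := by linarith
  set x : ℝ := (N : ℝ) ^ δ with hx
  have hx0 : 0 < x := Real.rpow_pos_of_pos (by linarith) δ
  have hx8 : (N : ℝ) ^ ε = x ^ 8 := by
    rw [hx, ← Real.rpow_natCast, ← Real.rpow_mul hN0]
    congr 1
    rw [hδdef]
    push_cast
    ring
  -- the two maps
  let fa : ℕ × ℕ → (Fin k → ℕ) := fun p i => sqp (p.1 + i + 1)
  let fc : ℕ × ℕ → (Fin k → ℕ) := fun p i => sqp (p.2 + i + 1)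
  have hprodA : ∀ p : ℕ × ℕ, ∏ i, fa p i = A p.1 k := fun p => by
    show ∏ i : Fin k, sqp (p.1 + i + 1) = A p.1 k
    unfold A
    rw [Finset.prod_range (fun i => sqp (p.1 + i + 1))]
  have hprodC : ∀ p : ℕ × ℕ, ∏ i, fc p i = A p.2 k := fun p => by
    show ∏ i : Fin k, sqp (p.2 + i + 1) = A p.2 k
    unfold A
    rw [Finset.prod_range (fun i => sqp (p.2 + i + 1))]
  have hMx : M ^ (1 + δ) ≤ M * x := by
    rw [Real.rpow_add (by linarith), Real.rpow_one]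
    exact mul_le_mul_of_nonneg_left (Real.rpow_le_rpow (by linarith) hMN hδ.le) (by linarith)
  have hIa : ((T.image fa).card : ℝ) ≤ C2 * (M * x) := by
    refine le_trans (h2 M hM (T.image fa) ?_) (mul_le_mul_of_nonneg_left hMx hC2.le)
    intro a ha
    obtain ⟨p, hp, rfl⟩ := mem_image.1 ha
    refine ⟨fun i => sqp_pos (Nat.succ_pos _), ?_⟩
    rw [hprodA p]
    exact (hT p hp).2.2.1
  have hIc : ((T.image fc).card : ℝ) ≤ C2 * (M * x) := by
    refine le_trans (h2 M hM (T.image fc) ?_) (mul_le_mul_of_nonneg_left hMx hC2.le)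
    intro a ha
    obtain ⟨p, hp, rfl⟩ := mem_image.1 ha
    refine ⟨fun i => sqp_pos (Nat.succ_pos _), ?_⟩
    rw [hprodC p]
    exact (hT p hp).2.2.2
  -- the number of divisors
  have hdiv : ∀ m : ℕ, 1 ≤ m → (m : ℝ) ≤ M → ((K * m ^ 2).divisors.card : ℝ) ≤ C3 * ((K : ℝ) ^ δ * x ^ 2) := by
    intro m hm hmM
    refine le_trans (h3 (K * m ^ 2) (Nat.mul_pos hKpos (pow_pos hm 2))) (mul_le_mul_of_nonneg_left ?_ hC3.le)
    push_cast
    rw [Real.mul_rpow hKR.le (by positivity)]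
    refine mul_le_mul_of_nonneg_left ?_ (by positivity)
    have : x ^ 2 = ((N : ℝ) ^ 2) ^ δ := by
      rw [hx, ← Real.rpow_natCast, ← Real.rpow_natCast, ← Real.rpow_mul hN0, ← Real.rpow_mul hN0, mul_comm]
    rw [this]
    refine Real.rpow_le_rpow (by positivity) ?_ hδ.le
    have hm0 : (0 : ℝ) ≤ m := Nat.cast_nonneg m
    have hmN : (m : ℝ) ≤ N := le_trans hmM hMN
    gcongr
  have hlog : ((Nat.log 2 (N + 1) + 1 : ℕ) : ℝ) ≤ C3 * ((2 : ℝ) ^ δ * x) := by
    have h4 := h3 (2 ^ Nat.log 2 (N + 1)) (Nat.one_le_two_pow)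
    rw [Nat.divisors_prime_pow Nat.prime_two, card_map, card_range] at h4
    refine le_trans h4 (mul_le_mul_of_nonneg_left ?_ hC3.le)
    rw [hx, ← Real.mul_rpow (by norm_num) hN0]
    refine Real.rpow_le_rpow (Nat.cast_nonneg _) ?_ hδ.le
    have h5 : 2 ^ Nat.log 2 (N + 1) ≤ N + 1 := Nat.pow_log_le_self 2 (by omega)
    have h6 : 2 ^ Nat.log 2 (N + 1) ≤ 2 * N := by omega
    exact_mod_cast h6
  -- the fibres
  have hfib : ∀ b ∈ (T.image fa) ×ˢ (T.image fc),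
      ((T.filter (fun p => (fa p, fc p) = b)).card : ℝ) ≤
        (C1 * x) * ((C3 * ((K : ℝ) ^ δ * x ^ 2)) * ((C3 * ((K : ℝ) ^ δ * x ^ 2)) * (C3 * ((2 : ℝ) ^ δ * x)))) := by
    rintro ⟨a, c⟩ hb
    rw [mem_product] at hb
    obtain ⟨p0, hp0, hpa⟩ := mem_image.1 hb.1
    obtain ⟨q0, hq0, hqc⟩ := mem_image.1 hb.2
    simp only at hpa hqc
    have ha1 : ((K * (∏ i, a i) ^ 2).divisors.card : ℝ) ≤ C3 * ((K : ℝ) ^ δ * x ^ 2) := by
      rw [← hpa, hprodA p0]
      exact hdiv _ (A_pos _ _) (hT p0 hp0).2.2.1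
    have hc1 : ((K * (∏ i, c i) ^ 2).divisors.card : ℝ) ≤ C3 * ((K : ℝ) ^ δ * x ^ 2) := by
      rw [← hqc, hprodC q0]
      exact hdiv _ (A_pos _ _) (hT q0 hq0).2.2.2
    have ha0 : K * (∏ i, a i) ^ 2 ≠ 0 := by
      rw [← hpa, hprodA p0]
      exact (Nat.mul_pos hKpos (pow_pos (A_pos _ _) 2)).ne'
    have hc0 : K * (∏ i, c i) ^ 2 ≠ 0 := by
      rw [← hqc, hprodC q0]
      exact (Nat.mul_pos hKpos (pow_pos (A_pos _ _) 2)).ne'
    have hstep := good_fib (fun p : ℕ × ℕ => (B p.1 k / rad (B p.1 k), B p.2 k / rad (B p.2 k),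
      Nat.log 2 (p.1 + 1))) (T.filter (fun p => (fa p, fc p) = (a, c)))
      ((K * (∏ i, a i) ^ 2).divisors ×ˢ ((K * (∏ i, c i) ^ 2).divisors ×ˢ range (Nat.log 2 (N + 1) + 1)))
      ?_ (C1 * x) ?_
    · refine le_trans hstep (mul_le_mul_of_nonneg_left ?_ (by positivity))
      rw [card_product, card_product, card_range]
      push_cast
      push_cast at hlog
      gcongr
    · intro p hp
      rw [mem_filter] at hp
      obtain ⟨hpT, hpe⟩ := hp
      rw [Prod.mk.injEq] at hpe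
      rw [mem_product, mem_product, Nat.mem_divisors, Nat.mem_divisors, mem_range]
      refine ⟨⟨?_, ha0⟩, ⟨?_, hc0⟩, ?_⟩
      · rw [← hpe.1]
        exact good_dvd k p.1
      · rw [← hpe.2]
        exact good_dvd k p.2
      · have h7 : p.1 < p.2 := (hT p hpT).1.lt (by omega)
        have h8 : p.2 ≤ N := (hT p hpT).2.1
        have h9 : Nat.log 2 (p.1 + 1) ≤ Nat.log 2 (N + 1) := Nat.log_mono_right (by omega)
        exact Nat.lt_succ_of_le h9
    · rintro ⟨s, t, r⟩ _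
      refine h1 N hN _ ?_ ?_
      · intro p hp
        rw [mem_filter, mem_filter] at hp
        exact ⟨(hT p hp.1.1).1, (hT p hp.1.1).2.1⟩
      · intro p hp q hq
        rw [mem_filter, mem_filter] at hp hq
        obtain ⟨⟨_, hpe⟩, hps⟩ := hp
        obtain ⟨⟨_, hqe⟩, hqs⟩ := hq
        rw [Prod.mk.injEq] at hpe hqe
        rw [Prod.mk.injEq, Prod.mk.injEq] at hps hqs
        refine ⟨?_, ?_, hps.1.trans hqs.1.symm, hps.2.1.trans hqs.2.1.symm, hps.2.2.trans hqs.2.2.symm⟩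
        · intro i hi
          have := congrFun (hpe.1.trans hqe.1.symm) ⟨i, hi⟩
          exact this
        · intro i hi
          have := congrFun (hpe.2.trans hqe.2.symm) ⟨i, hi⟩
          exact this
  have hmain := good_fib (fun p => (fa p, fc p)) T ((T.image fa) ×ˢ (T.image fc))
    (fun p hp => mem_product.2 ⟨mem_image_of_mem _ hp, mem_image_of_mem _ hp⟩) _ hfib
  refine le_trans hmain ?_
  rw [card_product]
  push_cast
  have hcc : ((T.image fa).card : ℝ) * ((T.image fc).card : ℝ) ≤ (C2 * (M * x)) * (C2 * (M * x)) :=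
    mul_le_mul hIa hIc (Nat.cast_nonneg _) (by positivity)
  refine le_trans (mul_le_mul_of_nonneg_left hcc (by positivity)) ?_
  rw [hx8]
  apply le_of_eq
  ring

end Pool.Agent.H3.EB
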