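import Pool.Agent.H3.EB.Defs

/-!
# EB Lcm: the product of divisors of nearby numbers is almost their lcm

`prod_dvd_lcm`: if `e i ∣ n + i + 1` for all `i < j` then `∏_{i<j} e i` divides `(j!)^(j*j) * lcm (e i)`.

Proof.  First, for any `e` and `j`, by induction on `j`:
`∏_{i<j} e i ∣ (lcm_{i<j} e i) * ∏_{i<j} ∏_{i'<i} gcd (e i') (e i)`.
(Step: `∏_{i<j+1} e i = (∏_{i<j} e i) * e j` divides `L_j * G_j * e j`, and
`L_j * e j = lcm (L_j, e j) * gcd (L_j, e j)`, `gcd (L_j, e j) ∣ ∏_{i<j} gcd (e i, e j)` (since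
`gcd (lcm a b) c ∣ gcd a c * gcd b c`, by another induction).)
Second, `gcd (e i') (e i)` divides `(n + i + 1) - (n + i' + 1) = i - i'` with `0 < i - i' ≤ j`, hence it divides
`j!`; there are at most `j * j` factors, so `∏ ∏ gcd ∣ (j!)^(j*j)` (use `Finset.prod_dvd_prod_of_dvd` and
`Finset.prod_const`, `pow_dvd_pow`).

`crt_count`: the number of `n < X` with `e i ∣ n + i + 1` for all `i < j` is `≤ (j!)^(j*j) X / ∏ e i + 1`.
Proof: if there is no such `n` fine.  Two such `n, n'` differ by a multiple of `L = lcm (e i)`, so they are in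
one residue class modulo `L` and their number is `≤ X / L + 1` (`Nat.count_modEq_card` or injection
`n ↦ n / L` into `range ((X-1)/L + 1)`).  By `prod_dvd_lcm`, `∏ e i ≤ (j!)^(j*j) L`.
-/

set_option autoImplicit false

open Finset

namespace Pool.Agent.H3.EB

theorem lcm_gcd_dvd (a b c : ℕ) : Nat.gcd (Nat.lcm a b) c ∣ Nat.gcd a c * Nat.gcd b c := by
  have h1 : Nat.gcd (Nat.lcm a b) c ∣ Nat.gcd (a * b) c :=
    Nat.gcd_dvd_gcd_of_dvd_left c (Nat.lcm_dvd_mul a b)
  refine h1.trans ?_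
  rw [Nat.gcd_comm (a * b) c, Nat.gcd_comm a c, Nat.gcd_comm b c]
  exact Nat.gcd_mul_right_dvd_mul_gcd c a b

theorem lcm_gcd_range (j c : ℕ) (e : ℕ → ℕ) :
    Nat.gcd ((range j).lcm e) c ∣ ∏ i ∈ range j, Nat.gcd (e i) c := by
  induction j with
  | zero => simp
  | succ j ih =>
    rw [range_add_one, lcm_insert, prod_insert notMem_range_self]
    exact (lcm_gcd_dvd (e j) ((range j).lcm e) c).trans (mul_dvd_mul_left _ ih)

theorem lcm_prod_dvd (j : ℕ) (e : ℕ → ℕ) :
    ∏ i ∈ range j, e i ∣ (range j).lcm e * ∏ i ∈ range j, ∏ i' ∈ range i, Nat.gcd (e i') (e i) := by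
  induction j with
  | zero => simp
  | succ j ih =>
    rw [prod_range_succ, prod_range_succ]
    have h1 : (range (j + 1)).lcm e = Nat.lcm (e j) ((range j).lcm e) := by
      rw [range_add_one, lcm_insert]
      rfl
    have h2 : (range j).lcm e * e j ∣
        (range (j + 1)).lcm e * ∏ i' ∈ range j, Nat.gcd (e i') (e j) := by
      rw [h1, Nat.lcm_comm, ← Nat.gcd_mul_lcm ((range j).lcm e) (e j), mul_comm]
      exact mul_dvd_mul_left _ (lcm_gcd_range j (e j) e)
    calc (∏ i ∈ range j, e i) * e j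
        ∣ ((range j).lcm e * ∏ i ∈ range j, ∏ i' ∈ range i, Nat.gcd (e i') (e i)) * e j :=
          mul_dvd_mul_right ih _
      _ = ((range j).lcm e * e j) * ∏ i ∈ range j, ∏ i' ∈ range i, Nat.gcd (e i') (e i) := by ring
      _ ∣ ((range (j + 1)).lcm e * ∏ i' ∈ range j, Nat.gcd (e i') (e j)) *
          ∏ i ∈ range j, ∏ i' ∈ range i, Nat.gcd (e i') (e i) := mul_dvd_mul_right h2 _
      _ = _ := by ring

theorem prod_dvd_lcm (j n : ℕ) (e : ℕ → ℕ) (h : ∀ i, i < j → e i ∣ n + i + 1) :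
    ∏ i ∈ range j, e i ∣ (j.factorial) ^ (j * j) * (range j).lcm e := by
  refine (lcm_prod_dvd j e).trans ?_
  rw [mul_comm]
  refine mul_dvd_mul_right ?_ _
  have h1 : ∏ i ∈ range j, ∏ i' ∈ range i, Nat.gcd (e i') (e i) ∣
      ∏ _i ∈ range j, (j.factorial) ^ j := by
    refine prod_dvd_prod_of_dvd _ _ fun i hi => ?_
    rw [mem_range] at hi
    have h2 : ∏ i' ∈ range i, Nat.gcd (e i') (e i) ∣ ∏ _i' ∈ range i, j.factorial := by
      refine prod_dvd_prod_of_dvd _ _ fun i' hi' => ?_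
      rw [mem_range] at hi'
      have h3 : Nat.gcd (e i') (e i) ∣ n + i' + 1 := (Nat.gcd_dvd_left _ _).trans (h i' (by omega))
      have h4 : Nat.gcd (e i') (e i) ∣ n + i + 1 := (Nat.gcd_dvd_right _ _).trans (h i hi)
      have h5 : Nat.gcd (e i') (e i) ∣ i - i' := by
        have := Nat.dvd_sub h4 h3
        rwa [show n + i + 1 - (n + i' + 1) = i - i' by omega] at this
      exact h5.trans (Nat.dvd_factorial (by omega) (by omega))
    refine h2.trans ?_
    rw [prod_const, card_range]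
    exact pow_dvd_pow _ hi.le
  refine h1.trans ?_
  rw [prod_const, card_range, ← pow_mul]

theorem crt_count (j X : ℕ) (e : ℕ → ℕ) (he : ∀ i, i < j → 0 < e i) :
    (((range X).filter (fun n => ∀ i, i < j → e i ∣ n + i + 1)).card : ℝ) ≤
      ((j.factorial) ^ (j * j) : ℕ) * (X : ℝ) / ((∏ i ∈ range j, e i : ℕ) : ℝ) + 1 := by
  have hP : 0 < ∏ i ∈ range j, e i := prod_pos fun i hi => he i (mem_range.1 hi)
  have hP' : (0 : ℝ) < ((∏ i ∈ range j, e i : ℕ) : ℝ) := Nat.cast_pos.2 hP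
  rcases ((range X).filter (fun n => ∀ i, i < j → e i ∣ n + i + 1)).eq_empty_or_nonempty with h0 | h0
  · rw [h0, card_empty, Nat.cast_zero]
    positivity
  · obtain ⟨n0, hn0⟩ := h0
    rw [mem_filter] at hn0
    set L := (range j).lcm e with hL
    have hL0 : 0 < L := by
      rw [Nat.pos_iff_ne_zero, hL, Ne, Finset.lcm_eq_zero_iff]
      rintro ⟨i, hi, h⟩
      exact (he i (mem_range.1 hi)).ne' h
    have hmod : ∀ n, (∀ i, i < j → e i ∣ n + i + 1) → n % L = n0 % L := by
      intro n hn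
      have h1 : (L : ℤ) ∣ (n0 : ℤ) - n := by
        have h2 : ∀ i ∈ range j, (e i) ∣ ((n0 : ℤ) - n).natAbs := by
          intro i hi
          rw [mem_range] at hi
          rw [← Int.natCast_dvd]
          have a1 : ((e i : ℕ) : ℤ) ∣ ((n0 + i + 1 : ℕ) : ℤ) := Int.natCast_dvd_natCast.2 (hn0.2 i hi)
          have a2 : ((e i : ℕ) : ℤ) ∣ ((n + i + 1 : ℕ) : ℤ) := Int.natCast_dvd_natCast.2 (hn i hi)
          have a3 := dvd_sub a1 a2
          have a4 : ((n0 + i + 1 : ℕ) : ℤ) - ((n + i + 1 : ℕ) : ℤ) = (n0 : ℤ) - n := by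
            push_cast
            ring
          rwa [a4] at a3
        rw [Int.natCast_dvd]
        exact lcm_dvd h2
      exact (Nat.modEq_iff_dvd.2 h1)
    have hcard : ((range X).filter (fun n => ∀ i, i < j → e i ∣ n + i + 1)).card ≤ X / L + 1 := by
      rw [← card_range (X / L + 1)]
      refine card_le_card_of_injOn (fun n => n / L) ?_ ?_
      · intro n hn
        have hn' := (mem_filter.1 (mem_coe.1 hn)).1
        rw [mem_range] at hn'
        rw [mem_coe, mem_range]
        have : n / L ≤ X / L := Nat.div_le_div_right hn'.le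
        show n / L < X / L + 1
        omega
      · intro n hn n' hn' hnn
        have h1 := hmod n (mem_filter.1 (mem_coe.1 hn)).2
        have h2 := hmod n' (mem_filter.1 (mem_coe.1 hn')).2
        have h3 : n / L = n' / L := hnn
        rw [← Nat.div_add_mod n L, ← Nat.div_add_mod n' L, h1, h2, h3]
    have hdvd := prod_dvd_lcm j n0 e hn0.2
    have hle : ∏ i ∈ range j, e i ≤ (j.factorial) ^ (j * j) * L :=
      Nat.le_of_dvd (Nat.mul_pos (pow_pos (Nat.factorial_pos j) _) hL0) hdvd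
    have hle' : ((∏ i ∈ range j, e i : ℕ) : ℝ) ≤ ((j.factorial) ^ (j * j) : ℕ) * (L : ℝ) := by
      exact_mod_cast hle
    have hL0' : (0 : ℝ) < L := Nat.cast_pos.2 hL0
    have h5 : (X : ℝ) / L ≤
        ((j.factorial) ^ (j * j) : ℕ) * (X : ℝ) / ((∏ i ∈ range j, e i : ℕ) : ℝ) := by
      rw [div_le_div_iff₀ hL0' hP']
      calc (X : ℝ) * ((∏ i ∈ range j, e i : ℕ) : ℝ)
          ≤ (X : ℝ) * (((j.factorial) ^ (j * j) : ℕ) * (L : ℝ)) :=
            mul_le_mul_of_nonneg_left hle' (Nat.cast_nonneg _)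
        _ = _ := by ring
    calc (((range X).filter (fun n => ∀ i, i < j → e i ∣ n + i + 1)).card : ℝ)
        ≤ ((X / L + 1 : ℕ) : ℝ) := by exact_mod_cast hcard
      _ ≤ (X : ℝ) / L + 1 := by
          push_cast
          linarith [@Nat.cast_div_le ℝ _ _ _ X L]
      _ ≤ _ := by linarith

end Pool.Agent.H3.EB
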