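import Mathlib

/-!
# EB LineA: a line which passes through a grid point in every row and every column

Let `k ≥ 2`, `0 ≤ n1 < n2` and integers `α, β` not both zero, `γ`, with `α n1 + β n2 = γ`.  Put
`ℓ(i, j) = γ + α (i+1) + β (j+1)` for `0 ≤ i, j < k`.  Then some row or some column has no zero:
either there is `j < k` with `ℓ(i, j) ≠ 0` for all `i < k`, or there is `i < k` with `ℓ(i, j) ≠ 0` for all `j < k`.

Proof.  Suppose every column `j` has a zero and every row `i` has a zero.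
* `α = 0`: row `0` (any row) : `γ + β (j+1) = 0` has a zero for columns `j = 0` and `j = 1` both, so `β = 0`,
  contradiction.  In the same way `β = 0` is impossible.
* rows `0` and `k-1` give `j0, j1 < k` with `γ + α + β (j0+1) = 0`, `γ + α k + β (j1+1) = 0`, so
  `α (k-1) = β (j0 - j1)`, hence `|α| (k-1) ≤ |β| (k-1)`, `|α| ≤ |β|`; columns `0`, `k-1` give in the same way
  `|β| ≤ |α|`.  So `|α| = |β|` and `|j0 - j1| = k-1`, i.e. `{j0, j1} = {0, k-1}`.
* `α = -β`: then `j1 - j0 = k-1`, `j0 = 0`, so `γ = -α - β = 0` and `α n1 + β n2 = 0` gives `n1 = n2`, contradiction.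
* `α = β`: then `j0 - j1 = k-1`, `j0 = k-1`, `γ = -α - β k = -α (k+1)`, so `n1 + n2 = -(k+1)`, contradiction.
-/

set_option autoImplicit false

namespace Pool.Agent.H3.EB

theorem line_grid (k n1 n2 : ℕ) (hk : 2 ≤ k) (hn : n1 < n2) (α β γ : ℤ) (h0 : α ≠ 0 ∨ β ≠ 0)
    (hl : α * n1 + β * n2 = γ) :
    (∃ j : ℕ, j < k ∧ ∀ i : ℕ, i < k → γ + α * (i + 1) + β * (j + 1) ≠ 0) ∨
      (∃ i : ℕ, i < k ∧ ∀ j : ℕ, j < k → γ + α * (i + 1) + β * (j + 1) ≠ 0) := by
  by_contra hcon
  rw [not_or] at hcon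
  obtain ⟨hc, hr⟩ := hcon
  have hcol : ∀ j : ℕ, j < k → ∃ i : ℕ, i < k ∧ γ + α * (i + 1) + β * (j + 1) = 0 := by
    intro j hj
    by_contra h
    exact hc ⟨j, hj, fun i hi h' => h ⟨i, hi, h'⟩⟩
  have hrow : ∀ i : ℕ, i < k → ∃ j : ℕ, j < k ∧ γ + α * (i + 1) + β * (j + 1) = 0 := by
    intro i hi
    by_contra h
    exact hr ⟨i, hi, fun j hj h' => h ⟨j, hj, h'⟩⟩
  have hk1 : (2 : ℤ) ≤ k := by exact_mod_cast hk
  have hα : α ≠ 0 := by
    intro h
    obtain ⟨i, _, h1⟩ := hcol 0 (by omega)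
    obtain ⟨i', _, h2⟩ := hcol 1 (by omega)
    rw [h] at h1 h2
    push_cast at h1 h2
    rcases h0 with h3 | h3
    · exact h3 h
    · apply h3
      linarith
  have hβ : β ≠ 0 := by
    intro h
    obtain ⟨i, _, h1⟩ := hrow 0 (by omega)
    obtain ⟨i', _, h2⟩ := hrow 1 (by omega)
    rw [h] at h1 h2
    push_cast at h1 h2
    apply hα
    linarith
  obtain ⟨j0, hj0, e0⟩ := hrow 0 (by omega)
  obtain ⟨j1, hj1, e1⟩ := hrow (k - 1) (by omega)
  obtain ⟨i0, hi0, f0⟩ := hcol 0 (by omega)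
  obtain ⟨i1, hi1, f1⟩ := hcol (k - 1) (by omega)
  have hkc : ((k - 1 : ℕ) : ℤ) = k - 1 := by
    rw [Nat.cast_sub (by omega)]
    push_cast
    ring
  rw [hkc] at e1 f1
  push_cast at e0 f0
  have hj0' : (j0 : ℤ) < k := by exact_mod_cast hj0
  have hj1' : (j1 : ℤ) < k := by exact_mod_cast hj1
  have hi0' : (i0 : ℤ) < k := by exact_mod_cast hi0
  have hi1' : (i1 : ℤ) < k := by exact_mod_cast hi1
  have hj0n : (0 : ℤ) ≤ j0 := Nat.cast_nonneg _
  have hj1n : (0 : ℤ) ≤ j1 := Nat.cast_nonneg _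
  have hi0n : (0 : ℤ) ≤ i0 := Nat.cast_nonneg _
  have hi1n : (0 : ℤ) ≤ i1 := Nat.cast_nonneg _
  have g1 : α * (k - 1) = β * (j0 - j1) := by linear_combination e1 - e0
  have g2 : β * (k - 1) = α * (i0 - i1) := by linear_combination f1 - f0
  have a1 : |α| ≤ |β| := by
    have h1 : |α| * (k - 1) ≤ |β| * (k - 1) := by
      calc |α| * ((k : ℤ) - 1) = |α * (k - 1)| := by
            rw [abs_mul, abs_of_nonneg (show (0 : ℤ) ≤ k - 1 by linarith)]
        _ = |β| * |(j0 : ℤ) - j1| := by rw [g1, abs_mul]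
        _ ≤ |β| * (k - 1) := by
            apply mul_le_mul_of_nonneg_left _ (abs_nonneg _)
            rw [abs_le]
            constructor <;> linarith
    exact le_of_mul_le_mul_right h1 (by linarith)
  have a2 : |β| ≤ |α| := by
    have h1 : |β| * (k - 1) ≤ |α| * (k - 1) := by
      calc |β| * ((k : ℤ) - 1) = |β * (k - 1)| := by
            rw [abs_mul, abs_of_nonneg (show (0 : ℤ) ≤ k - 1 by linarith)]
        _ = |α| * |(i0 : ℤ) - i1| := by rw [g2, abs_mul]
        _ ≤ |α| * (k - 1) := by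
            apply mul_le_mul_of_nonneg_left _ (abs_nonneg _)
            rw [abs_le]
            constructor <;> linarith
    exact le_of_mul_le_mul_right h1 (by linarith)
  have hn' : (n1 : ℤ) < n2 := by exact_mod_cast hn
  have hn1 : (0 : ℤ) ≤ n1 := Nat.cast_nonneg _
  rcases abs_eq_abs.1 (le_antisymm a1 a2) with h | h
  · subst h
    have h1 : (k : ℤ) - 1 = j0 - j1 := mul_left_cancel₀ hα g1
    have h2 : (j0 : ℤ) = k - 1 := by linarith
    rw [h2] at e0
    have h3 : α * ((n1 : ℤ) + n2 + (k + 1)) = 0 := by linear_combination hl + e0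
    rcases mul_eq_zero.1 h3 with h4 | h4
    · exact hα h4
    · linarith
  · have h1 : (k : ℤ) - 1 = j1 - j0 := by
      apply mul_left_cancel₀ hα
      rw [g1, h]
      ring
    have h2 : (j0 : ℤ) = 0 := by linarith
    rw [h2] at e0
    have h3 : α * ((n1 : ℤ) - n2) = 0 := by
      have hb : β = -α := by rw [h]; ring
      rw [hb] at hl e0
      linear_combination hl + e0
    rcases mul_eq_zero.1 h3 with h4 | h4
    · exact hα h4
    · linarith

end Pool.Agent.H3.EB
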