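import Pool.Agent.H3.EB.Few
import Pool.Agent.H3.EB.LineA

/-!
# EB Line: few solutions on a line

`line_count`: `k ≥ 2`.  For every `ε > 0` there is `C` such that for all `H ≥ 1`, integers `α, β, γ` of absolute
value `≤ H`, `(α, β) ≠ (0, 0)`, the number of pairs `(n1, n2)`, `n2 ≤ H`, with `Pair k k n1 n2` and
`α n1 + β n2 = γ` is `≤ C H^ε`.

Proof.  Let `T` be a finite set of such pairs; if it is nonempty, `line_grid` applied to one of its elements gives
a row or a column without zero (this only depends on `α, β, γ`).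
* Column `j` without zero: `Λ := ∏_{i<k} |γ + α (i+1) + β (j+1)| ≥ 1`, `Λ ≤ (H + 2 k H)^k`.  Let `p` be a prime
  factor of `n2 + j + 1`.  It divides `B n2 k`, so it is a prime factor of `B n1 k`, so `p ∣ n1 + i + 1` for some
  `i < k` (`Prime.dvd_finset_prod_iff`), so `p` divides
  `α (n1+i+1) + β (n2+j+1) = γ + α (i+1) + β (j+1)`, hence `p ∣ Λ`.  So `(n2+j+1).primeFactors ⊆ Λ.primeFactors`
  and by `su_count` (`R = Λ`, `Y = H + k`) there are at most `C H^(ε/2)` values of `n2`; for each of them there are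
  at most `C H^(ε/2)` values of `n1` (`few1` with `N = H`).
* Row `i` without zero: in the same way with the roles exchanged, `n1 + i + 1 ≤ H + k`, then `few2`.
-/

set_option autoImplicit false

open Finset

namespace Pool.Agent.H3.EB

private theorem line_rad (k : ℕ) (ε : ℝ) (hε : 0 < ε) : ∃ C : ℝ, 0 < C ∧ ∀ H : ℕ, 1 ≤ H →
    ∀ c : ℕ → ℤ, (∀ i < k, c i ≠ 0) → (∀ i < k, |c i| ≤ (2 * k + 1) * H) →
      ∀ T : Finset ℕ, (∀ y ∈ T, 1 ≤ y ∧ y ≤ H + k ∧
        ∀ p : ℕ, p.Prime → p ∣ y → ∃ i < k, (p : ℤ) ∣ c i) →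
        (T.card : ℝ) ≤ C * (H : ℝ) ^ (ε / 2) := by
  have hk0 : (0 : ℝ) < 2 * (k + 1) := by positivity
  obtain ⟨C, hC, hsu⟩ := su_count (ε / (2 * (k + 1))) (by positivity)
  refine ⟨C * ((2 * k + 1 : ℝ) ^ (ε / 2)), by positivity, ?_⟩
  intro H hH c hc hcb T hT
  have hcn : ∀ i < k, (c i).natAbs ≤ (2 * k + 1) * H := by
    intro i hi
    have h := hcb i hi
    rw [Int.abs_eq_natAbs] at h
    exact_mod_cast h
  set R : ℕ := ∏ i ∈ range k, (c i).natAbs with hR
  have hR1 : 1 ≤ R := by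
    rw [hR]
    exact prod_pos fun i hi => Int.natAbs_pos.2 (hc i (mem_range.1 hi))
  have hRb : R ≤ ((2 * k + 1) * H) ^ k := by
    rw [hR]
    calc ∏ i ∈ range k, (c i).natAbs ≤ ∏ _i ∈ range k, ((2 * k + 1) * H) :=
          prod_le_prod' fun i hi => hcn i (mem_range.1 hi)
      _ = _ := by rw [prod_const, card_range]
  have hYb : H + k ≤ (2 * k + 1) * H := by nlinarith
  have h1 := hsu R (H + k) hR1 (by omega)
  have h2 : T ⊆ (Icc 1 (H + k)).filter (fun y => y.primeFactors ⊆ R.primeFactors) := by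
    intro y hy
    obtain ⟨h3, h4, h5⟩ := hT y hy
    refine mem_filter.2 ⟨mem_Icc.2 ⟨h3, h4⟩, ?_⟩
    intro p hp
    have hpp := Nat.prime_of_mem_primeFactors hp
    obtain ⟨i, hi, hd⟩ := h5 p hpp (Nat.dvd_of_mem_primeFactors hp)
    refine Nat.mem_primeFactors.2 ⟨hpp, ?_, by omega⟩
    have h6 : p ∣ (c i).natAbs := Int.natCast_dvd.1 hd
    exact h6.trans (dvd_prod_of_mem (fun i => (c i).natAbs) (mem_range.2 hi))
  have h3 : (T.card : ℝ) ≤ C * ((R : ℝ) * (H + k : ℕ)) ^ (ε / (2 * (k + 1))) := by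
    refine le_trans ?_ h1
    exact_mod_cast card_le_card h2
  refine h3.trans ?_
  have h4 : (R : ℝ) * (H + k : ℕ) ≤ ((2 * k + 1 : ℝ) * H) ^ (k + 1) := by
    have h5 : R * (H + k) ≤ ((2 * k + 1) * H) ^ (k + 1) := by
      rw [pow_succ]
      exact Nat.mul_le_mul hRb hYb
    exact_mod_cast h5
  have h5 : ((R : ℝ) * (H + k : ℕ)) ^ (ε / (2 * (k + 1))) ≤
      (((2 * k + 1 : ℝ) * H) ^ (k + 1)) ^ (ε / (2 * (k + 1))) :=
    Real.rpow_le_rpow (by positivity) h4 (by positivity)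
  have h6 : (((2 * k + 1 : ℝ) * H) ^ (k + 1)) ^ (ε / (2 * (k + 1))) =
      (2 * k + 1 : ℝ) ^ (ε / 2) * (H : ℝ) ^ (ε / 2) := by
    rw [← Real.rpow_natCast, ← Real.rpow_mul (by positivity),
      ← Real.mul_rpow (by positivity) (by positivity)]
    congr 1
    push_cast
    field_simp
  rw [h6] at h5
  calc C * ((R : ℝ) * (H + k : ℕ)) ^ (ε / (2 * (k + 1))) ≤
      C * ((2 * k + 1 : ℝ) ^ (ε / 2) * (H : ℝ) ^ (ε / 2)) :=
        mul_le_mul_of_nonneg_left h5 hC.le
    _ = _ := by ring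

private theorem line_dvd {k n p : ℕ} (hp : p.Prime) (h : p ∣ B n k) : ∃ i < k, p ∣ n + i + 1 := by
  unfold B at h
  obtain ⟨i, hi, hd⟩ := (hp.prime.dvd_finsetProd_iff _).1 h
  exact ⟨i, mem_range.1 hi, hd⟩

private theorem line_pf {m m' p : ℕ} (hm : 0 < m) (h : m.primeFactors = m'.primeFactors)
    (hp : p.Prime) (hd : p ∣ m) : p ∣ m' := by
  have h1 : p ∈ m.primeFactors := Nat.mem_primeFactors.2 ⟨hp, hd, hm.ne'⟩
  rw [h] at h1
  exact Nat.dvd_of_mem_primeFactors h1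

private theorem line_cnt (T : Finset (ℕ × ℕ)) (f g : ℕ × ℕ → ℕ) (a b : ℝ) (hb : 0 ≤ b)
    (hinj : ∀ p q : ℕ × ℕ, f p = f q → g p = g q → p = q)
    (h1 : ((T.image f).card : ℝ) ≤ a)
    (h2 : ∀ n ∈ T.image f, (((T.filter (fun p => f p = n)).image g).card : ℝ) ≤ b) :
    (T.card : ℝ) ≤ a * b := by
  have h3 := card_eq_sum_card_image f T
  have h4 : (T.card : ℝ) = ∑ n ∈ T.image f, ((T.filter (fun p => f p = n)).card : ℝ) := by
    rw [h3]
    push_cast
    rfl
  rw [h4]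
  calc ∑ n ∈ T.image f, ((T.filter (fun p => f p = n)).card : ℝ) ≤
      ∑ _n ∈ T.image f, b := by
        refine sum_le_sum fun n hn => ?_
        have h5 := h2 n hn
        rw [card_image_of_injOn] at h5
        · exact h5
        · intro p hp q hq hpq
          have hp' := (mem_filter.1 (mem_coe.1 hp)).2
          have hq' := (mem_filter.1 (mem_coe.1 hq)).2
          exact hinj p q (hp'.trans hq'.symm) hpq
    _ = ((T.image f).card : ℝ) * b := by rw [sum_const, nsmul_eq_mul]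
    _ ≤ a * b := mul_le_mul_of_nonneg_right h1 hb

theorem line_count (k : ℕ) (hk : 2 ≤ k) (ε : ℝ) (hε : 0 < ε) : ∃ C : ℝ, 0 < C ∧ ∀ H : ℕ, 1 ≤ H →
    ∀ α β γ : ℤ, (α ≠ 0 ∨ β ≠ 0) → |α| ≤ H → |β| ≤ H → |γ| ≤ H →
      ∀ T : Finset (ℕ × ℕ), (∀ p ∈ T, Pair k k p.1 p.2 ∧ p.2 ≤ H ∧ α * p.1 + β * p.2 = γ) →
        (T.card : ℝ) ≤ C * (H : ℝ) ^ ε := by
  obtain ⟨C0, hC0, hrad⟩ := line_rad k ε hε
  obtain ⟨C1, hC1, hf1⟩ := few1 k k (by omega) (ε / 2) (by positivity)
  obtain ⟨C2, hC2, hf2⟩ := few2 k k (by omega) (ε / 2) (by positivity)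
  refine ⟨C0 * (C1 + C2), by positivity, ?_⟩
  intro H hH α β γ h0 hα hβ hγ T hT
  have hH0 : (0 : ℝ) < H := by exact_mod_cast hH
  have hpow : (H : ℝ) ^ (ε / 2) * (H : ℝ) ^ (ε / 2) = (H : ℝ) ^ ε := by
    rw [← Real.rpow_add hH0]
    congr 1
    ring
  have hpos : (0 : ℝ) < (H : ℝ) ^ (ε / 2) := Real.rpow_pos_of_pos hH0 _
  rcases T.eq_empty_or_nonempty with hE | ⟨p₀, hp₀⟩
  · rw [hE, card_empty, Nat.cast_zero]
    positivity
  obtain ⟨hP₀, hH₀, hl₀⟩ := hT p₀ hp₀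
  have hbd : ∀ i j : ℕ, i < k → j < k →
      |γ + α * (i + 1) + β * (j + 1)| ≤ (2 * k + 1) * (H : ℤ) := by
    intro i j hi hj
    have hi' : ((i : ℤ) + 1) ≤ k := by exact_mod_cast hi
    have hj' : ((j : ℤ) + 1) ≤ k := by exact_mod_cast hj
    have e1 : |α * ((i : ℤ) + 1)| ≤ H * k := by
      rw [abs_mul, abs_of_nonneg (by positivity : (0 : ℤ) ≤ (i : ℤ) + 1)]
      exact mul_le_mul hα hi' (by positivity) (by positivity)
    have e2 : |β * ((j : ℤ) + 1)| ≤ H * k := by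
      rw [abs_mul, abs_of_nonneg (by positivity : (0 : ℤ) ≤ (j : ℤ) + 1)]
      exact mul_le_mul hβ hj' (by positivity) (by positivity)
    calc |γ + α * ((i : ℤ) + 1) + β * ((j : ℤ) + 1)|
        ≤ |γ| + |α * ((i : ℤ) + 1)| + |β * ((j : ℤ) + 1)| := abs_add_three _ _ _
      _ ≤ H + H * k + H * k := by linarith
      _ = _ := by ring
  rcases line_grid k p₀.1 p₀.2 hk (hP₀.lt (by omega)) α β γ h0 hl₀ with ⟨j, hj, hc⟩ | ⟨i, hi, hc⟩
  · have h1 : ((T.image Prod.snd).card : ℝ) ≤ C0 * (H : ℝ) ^ (ε / 2) := by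
      have h2 := hrad H hH (fun i => γ + α * (i + 1) + β * (j + 1)) hc
        (fun i hi => hbd i j hi hj) ((T.image Prod.snd).image (fun n => n + j + 1)) (by
          intro y hy
          obtain ⟨n2, hn2, rfl⟩ := mem_image.1 hy
          obtain ⟨p, hp, rfl⟩ := mem_image.1 hn2
          obtain ⟨hP, hle, hline⟩ := hT p hp
          refine ⟨by omega, by omega, ?_⟩
          intro l hl hld
          have h3 : l ∣ B p.1 k := line_pf (B_pos _ _) hP.2.symm hl (hld.trans (dvd_B hj))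
          obtain ⟨i, hi, hdi⟩ := line_dvd hl h3
          refine ⟨i, hi, ?_⟩
          have h4 : γ + α * ((i : ℤ) + 1) + β * ((j : ℤ) + 1) =
              α * ((p.1 + i + 1 : ℕ) : ℤ) + β * ((p.2 + j + 1 : ℕ) : ℤ) := by
            rw [← hline]
            push_cast
            ring
          rw [h4]
          exact dvd_add (Dvd.dvd.mul_left (Int.natCast_dvd_natCast.2 hdi) _)
            (Dvd.dvd.mul_left (Int.natCast_dvd_natCast.2 hld) _))
      rw [card_image_of_injective _ (fun a b hab => by omega)] at h2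
      exact h2
    have h2 := line_cnt T Prod.snd Prod.fst (C0 * (H : ℝ) ^ (ε / 2)) (C1 * (H : ℝ) ^ (ε / 2))
      (by positivity) (fun p q h1 h2 => Prod.ext h2 h1) h1 (by
        intro n hn
        obtain ⟨p, hp, rfl⟩ := mem_image.1 hn
        refine hf1 H hH p.2 (hT p hp).2.1 _ ?_
        intro m hm
        obtain ⟨q, hq, rfl⟩ := mem_image.1 hm
        obtain ⟨hq1, hq2⟩ := mem_filter.1 hq
        have := (hT q hq1).1
        rw [← hq2]
        exact this)
    calc (T.card : ℝ) ≤ C0 * (H : ℝ) ^ (ε / 2) * (C1 * (H : ℝ) ^ (ε / 2)) := h2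
      _ = C0 * C1 * ((H : ℝ) ^ (ε / 2) * (H : ℝ) ^ (ε / 2)) := by ring
      _ = C0 * C1 * (H : ℝ) ^ ε := by rw [hpow]
      _ ≤ C0 * (C1 + C2) * (H : ℝ) ^ ε := by
        have : C0 * C1 ≤ C0 * (C1 + C2) := by nlinarith
        exact mul_le_mul_of_nonneg_right this (by positivity)
  · have h1 : ((T.image Prod.fst).card : ℝ) ≤ C0 * (H : ℝ) ^ (ε / 2) := by
      have h2 := hrad H hH (fun j => γ + α * (i + 1) + β * (j + 1)) hc
        (fun j hj => hbd i j hi hj) ((T.image Prod.fst).image (fun n => n + i + 1)) (by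
          intro y hy
          obtain ⟨n1, hn1, rfl⟩ := mem_image.1 hy
          obtain ⟨p, hp, rfl⟩ := mem_image.1 hn1
          obtain ⟨hP, hle, hline⟩ := hT p hp
          have hlt := hP.lt (by omega : 1 ≤ k)
          refine ⟨by omega, by omega, ?_⟩
          intro l hl hld
          have h3 : l ∣ B p.2 k := line_pf (B_pos _ _) hP.2 hl (hld.trans (dvd_B hi))
          obtain ⟨j, hj, hdj⟩ := line_dvd hl h3
          refine ⟨j, hj, ?_⟩
          have h4 : γ + α * ((i : ℤ) + 1) + β * ((j : ℤ) + 1) =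
              α * ((p.1 + i + 1 : ℕ) : ℤ) + β * ((p.2 + j + 1 : ℕ) : ℤ) := by
            rw [← hline]
            push_cast
            ring
          rw [h4]
          exact dvd_add (Dvd.dvd.mul_left (Int.natCast_dvd_natCast.2 hld) _)
            (Dvd.dvd.mul_left (Int.natCast_dvd_natCast.2 hdj) _))
      rw [card_image_of_injective _ (fun a b hab => by omega)] at h2
      exact h2
    have h2 := line_cnt T Prod.fst Prod.snd (C0 * (H : ℝ) ^ (ε / 2)) (C2 * (H : ℝ) ^ (ε / 2))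
      (by positivity) (fun p q h1 h2 => Prod.ext h1 h2) h1 (by
        intro n hn
        obtain ⟨p, hp, rfl⟩ := mem_image.1 hn
        have hlt := (hT p hp).1.lt (by omega : 1 ≤ k)
        have hle := (hT p hp).2.1
        refine hf2 H hH p.1 (by omega) _ ?_
        intro m hm
        obtain ⟨q, hq, rfl⟩ := mem_image.1 hm
        obtain ⟨hq1, hq2⟩ := mem_filter.1 hq
        have := (hT q hq1)
        rw [← hq2]
        exact ⟨this.2.1, this.1⟩)
    calc (T.card : ℝ) ≤ C0 * (H : ℝ) ^ (ε / 2) * (C2 * (H : ℝ) ^ (ε / 2)) := h2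
      _ = C0 * C2 * ((H : ℝ) ^ (ε / 2) * (H : ℝ) ^ (ε / 2)) := by ring
      _ = C0 * C2 * (H : ℝ) ^ ε := by rw [hpow]
      _ ≤ C0 * (C1 + C2) * (H : ℝ) ^ ε := by
        have : C0 * C2 ≤ C0 * (C1 + C2) := by nlinarith
        exact mul_le_mul_of_nonneg_right this (by positivity)

end Pool.Agent.H3.EB
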