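import Pool.Agent.H3.EB.Defs

/-!
# EB SU: numbers whose prime factors divide `R`

`su_count`: for every `ε > 0` there is `C` with
`#{1 ≤ y ≤ Y : every prime factor of y divides R} ≤ C (R Y)^ε` for all `R, Y ≥ 1`.

Proof (Rankin's trick).  Let `s = R.primeFactors` and `f y = (y : ℝ) ^ (-ε)`, a completely multiplicative
function with `0 < f p < 1`.  Each counted `y` satisfies `1 ≤ (Y / y)^ε = Y^ε f y`, so the number is
`≤ Y^ε ∑_{y ∈ factoredNumbers s} f y = Y^ε ∏_{p ∈ s} (1 - p^(-ε))⁻¹`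
(Mathlib: `EulerProduct.summable_and_hasSum_factoredNumbers_prod_filter_prime_geometric` or similar, file
`Mathlib/NumberTheory/EulerProduct/Basic.lean`; alternatively an induction over the finite set of primes).
For primes `p ≥ P0 := 2^(1/ε)` one has `(1 - p^(-ε))⁻¹ ≤ p^ε` (because `p^ε - 1 ≥ 1`); for `p < P0` one has
`(1 - p^(-ε))⁻¹ ≤ c := (1 - 2^(-ε))⁻¹` and there are at most `P0` such primes.  So the product is
`≤ c^(P0+1) ∏_{p ∈ s} p^ε ≤ c^(P0+1) R^ε` since `∏_{p ∣ R} p ≤ R` (`rad_dvd`).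

`div_count`: the divisor bound, `d(n) ≤ C n^ε`.  Apply `su_count` with `ε/2` to `R = Y = n`: the divisors of
`n` are numbers `≤ n` whose prime factors divide `n`.
-/

set_option autoImplicit false

open Finset

namespace Pool.Agent.H3.EB

/-- the completely multiplicative function `y ^ (-ε)` -/
noncomputable def su_f (ε : ℝ) : ℕ →* ℝ where
  toFun y := (y : ℝ) ^ (-ε)
  map_one' := by simp
  map_mul' a b := by
    rw [Nat.cast_mul]
    exact Real.mul_rpow (Nat.cast_nonneg a) (Nat.cast_nonneg b)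

theorem su_f_apply (ε : ℝ) (y : ℕ) : su_f ε y = (y : ℝ) ^ (-ε) := rfl

theorem su_f_nonneg (ε : ℝ) (y : ℕ) : 0 ≤ su_f ε y := by
  rw [su_f_apply]
  positivity

theorem su_f_lt {ε : ℝ} (hε : 0 < ε) {p : ℕ} (hp : p.Prime) : su_f ε p < 1 := by
  rw [su_f_apply]
  exact Real.rpow_lt_one_of_one_lt_of_neg (by exact_mod_cast hp.one_lt) (by linarith)

/-- the bound for one factor -/
theorem su_factor {ε : ℝ} (hε : 0 < ε) (P0 : ℕ) (hP0 : 2 ≤ (P0 : ℝ) ^ ε) (p : ℕ) (hp : p.Prime) :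
    (1 - su_f ε p)⁻¹ ≤ (if p < P0 then (1 - (2 : ℝ) ^ (-ε))⁻¹ else 1) * (p : ℝ) ^ ε := by
  have h2 : (2 : ℝ) ≤ p := by exact_mod_cast hp.two_le
  have h1 : (1 : ℝ) ≤ (p : ℝ) ^ ε := Real.one_le_rpow (by linarith) hε.le
  have h2' : (2 : ℝ) ^ (-ε) < 1 := Real.rpow_lt_one_of_one_lt_of_neg (by norm_num) (by linarith)
  split_ifs with h
  · have h3 : su_f ε p ≤ (2 : ℝ) ^ (-ε) := by
      rw [su_f_apply]
      exact Real.rpow_le_rpow_of_nonpos (by norm_num) h2 (by linarith)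
    have h4 : (1 - su_f ε p)⁻¹ ≤ (1 - (2 : ℝ) ^ (-ε))⁻¹ := by
      apply inv_anti₀ (by linarith)
      linarith
    have h5 : 0 ≤ (1 - (2 : ℝ) ^ (-ε))⁻¹ := inv_nonneg.2 (by linarith)
    nlinarith
  · have h3 : (P0 : ℝ) ≤ p := by
      push Not at h
      exact_mod_cast h
    have h4 : (2 : ℝ) ≤ (p : ℝ) ^ ε :=
      hP0.trans (Real.rpow_le_rpow (Nat.cast_nonneg _) h3 hε.le)
    rw [su_f_apply, Real.rpow_neg (by linarith), one_mul]
    have h5 : (0 : ℝ) < (p : ℝ) ^ ε := by linarith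
    rw [inv_le_comm₀ (by
      have : ((p : ℝ) ^ ε)⁻¹ ≤ 2⁻¹ := inv_anti₀ (by norm_num) h4
      linarith) h5]
    have : ((p : ℝ) ^ ε)⁻¹ ≤ 2⁻¹ := inv_anti₀ (by norm_num) h4
    linarith

theorem su_prod {ε : ℝ} (hε : 0 < ε) (P0 : ℕ) (hP0 : 2 ≤ (P0 : ℝ) ^ ε) (R : ℕ) (hR : 1 ≤ R) :
    ∏ p ∈ R.primeFactors, (1 - su_f ε p)⁻¹ ≤
      (1 - (2 : ℝ) ^ (-ε))⁻¹ ^ P0 * (R : ℝ) ^ ε := by
  have h2' : (2 : ℝ) ^ (-ε) < 1 := Real.rpow_lt_one_of_one_lt_of_neg (by norm_num) (by linarith)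
  have h2'' : 0 < (2 : ℝ) ^ (-ε) := by positivity
  have hc : 1 ≤ (1 - (2 : ℝ) ^ (-ε))⁻¹ := by
    rw [one_le_inv₀ (by linarith)]
    linarith
  calc ∏ p ∈ R.primeFactors, (1 - su_f ε p)⁻¹
      ≤ ∏ p ∈ R.primeFactors, ((if p < P0 then (1 - (2 : ℝ) ^ (-ε))⁻¹ else 1) * (p : ℝ) ^ ε) := by
        apply prod_le_prod
        · intro p hp
          have := su_f_lt hε (Nat.prime_of_mem_primeFactors hp)
          exact inv_nonneg.2 (by linarith)
        · intro p hp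
          exact su_factor hε P0 hP0 p (Nat.prime_of_mem_primeFactors hp)
    _ = (∏ p ∈ R.primeFactors, (if p < P0 then (1 - (2 : ℝ) ^ (-ε))⁻¹ else 1)) *
          ∏ p ∈ R.primeFactors, (p : ℝ) ^ ε := prod_mul_distrib
    _ ≤ (1 - (2 : ℝ) ^ (-ε))⁻¹ ^ P0 * (R : ℝ) ^ ε := by
        apply mul_le_mul
        · rw [← prod_filter, prod_const]
          apply pow_le_pow_right₀ hc
          calc (R.primeFactors.filter (fun p => p < P0)).card ≤ (range P0).card := by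
                apply card_le_card
                intro p hp
                rw [mem_filter] at hp
                exact mem_range.2 hp.2
            _ = P0 := card_range P0
        · rw [Real.finsetProd_rpow _ _ (fun i _ => Nat.cast_nonneg i)]
          apply Real.rpow_le_rpow (prod_nonneg fun i _ => Nat.cast_nonneg i) _ hε.le
          rw [← Nat.cast_prod]
          exact_mod_cast Nat.le_of_dvd hR (Nat.prod_primeFactors_dvd R)
        · exact prod_nonneg fun i _ => Real.rpow_nonneg (Nat.cast_nonneg i) _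
        · positivity

theorem su_count (ε : ℝ) (hε : 0 < ε) : ∃ C : ℝ, 0 < C ∧ ∀ R Y : ℕ, 1 ≤ R → 1 ≤ Y →
    (((Icc 1 Y).filter (fun y => y.primeFactors ⊆ R.primeFactors)).card : ℝ) ≤ C * ((R : ℝ) * Y) ^ ε := by
  obtain ⟨P0, hP0⟩ : ∃ P0 : ℕ, 2 ≤ (P0 : ℝ) ^ ε := by
    refine ⟨⌈(2 : ℝ) ^ (1 / ε)⌉₊, ?_⟩
    calc (2 : ℝ) = ((2 : ℝ) ^ (1 / ε)) ^ ε := by
          rw [← Real.rpow_mul (by norm_num), one_div, inv_mul_cancel₀ hε.ne', Real.rpow_one]
      _ ≤ _ := Real.rpow_le_rpow (by positivity) (Nat.le_ceil _) hε.le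
  have h2' : (2 : ℝ) ^ (-ε) < 1 := Real.rpow_lt_one_of_one_lt_of_neg (by norm_num) (by linarith)
  have hcpos : 0 < (1 - (2 : ℝ) ^ (-ε))⁻¹ := inv_pos.2 (by linarith)
  refine ⟨(1 - (2 : ℝ) ^ (-ε))⁻¹ ^ P0, pow_pos hcpos _, ?_⟩
  intro R Y hR hY
  have hY0 : (0 : ℝ) < Y := by exact_mod_cast hY
  have hsum := (EulerProduct.summable_and_hasSum_factoredNumbers_prod_filter_prime_geometric
    (f := su_f ε) (fun {p} hp => by
      rw [Real.norm_of_nonneg (su_f_nonneg ε p)]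
      exact su_f_lt hε hp) R.primeFactors).2
  have hfil : R.primeFactors.filter Nat.Prime = R.primeFactors :=
    filter_true_of_mem fun p hp => Nat.prime_of_mem_primeFactors hp
  rw [hfil] at hsum
  have hind : HasSum ((Nat.factoredNumbers R.primeFactors).indicator (fun m => su_f ε m))
      (∏ p ∈ R.primeFactors, (1 - su_f ε p)⁻¹) := by
    rw [← hasSum_subtype_iff_indicator]
    exact hsum
  have h1 := sum_le_hasSum ((Icc 1 Y).filter (fun y => y.primeFactors ⊆ R.primeFactors))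
    (fun i _ => Set.indicator_nonneg (fun m _ => su_f_nonneg ε m) i) hind
  have h2 : (((Icc 1 Y).filter (fun y => y.primeFactors ⊆ R.primeFactors)).card : ℝ) ≤
      (Y : ℝ) ^ ε * ∑ y ∈ (Icc 1 Y).filter (fun y => y.primeFactors ⊆ R.primeFactors),
        (Nat.factoredNumbers R.primeFactors).indicator (fun m => su_f ε m) y := by
    rw [card_eq_sum_ones, Nat.cast_sum, mul_sum]
    apply sum_le_sum
    intro y hy
    rw [mem_filter, mem_Icc] at hy
    have hy0 : (0 : ℝ) < y := by exact_mod_cast hy.1.1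
    rw [Set.indicator_of_mem (Nat.mem_factoredNumbers_of_primeFactors_subset (by omega) hy.2),
      su_f_apply, Real.rpow_neg hy0.le, ← div_eq_mul_inv, ← Real.div_rpow hY0.le hy0.le,
      Nat.cast_one]
    apply Real.one_le_rpow _ hε.le
    rw [one_le_div hy0]
    exact_mod_cast hy.1.2
  calc (((Icc 1 Y).filter (fun y => y.primeFactors ⊆ R.primeFactors)).card : ℝ)
      ≤ (Y : ℝ) ^ ε * ∏ p ∈ R.primeFactors, (1 - su_f ε p)⁻¹ :=
        h2.trans (mul_le_mul_of_nonneg_left h1 (by positivity))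
    _ ≤ (Y : ℝ) ^ ε * ((1 - (2 : ℝ) ^ (-ε))⁻¹ ^ P0 * (R : ℝ) ^ ε) :=
        mul_le_mul_of_nonneg_left (su_prod hε P0 hP0 R hR) (by positivity)
    _ = (1 - (2 : ℝ) ^ (-ε))⁻¹ ^ P0 * ((R : ℝ) * Y) ^ ε := by
        rw [Real.mul_rpow (Nat.cast_nonneg R) hY0.le]
        ring

theorem div_count (ε : ℝ) (hε : 0 < ε) : ∃ C : ℝ, 0 < C ∧ ∀ n : ℕ, 1 ≤ n →
    (n.divisors.card : ℝ) ≤ C * (n : ℝ) ^ ε := by
  obtain ⟨C, hC, h⟩ := su_count (ε / 2) (by linarith)
  refine ⟨C, hC, ?_⟩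
  intro n hn
  have h1 : n.divisors ⊆ (Icc 1 n).filter (fun y => y.primeFactors ⊆ n.primeFactors) := by
    intro y hy
    rw [Nat.mem_divisors] at hy
    rw [mem_filter, mem_Icc]
    have hy0 : 0 < y := Nat.pos_of_dvd_of_pos hy.1 (by omega)
    exact ⟨⟨hy0, Nat.le_of_dvd (by omega) hy.1⟩, Nat.primeFactors_mono hy.1 hy.2⟩
  have hn0 : (0 : ℝ) ≤ n := Nat.cast_nonneg n
  calc (n.divisors.card : ℝ)
      ≤ (((Icc 1 n).filter (fun y => y.primeFactors ⊆ n.primeFactors)).card : ℝ) := by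
        exact_mod_cast card_le_card h1
    _ ≤ C * ((n : ℝ) * n) ^ (ε / 2) := h n n hn hn
    _ = C * (n : ℝ) ^ ε := by
        rw [Real.mul_rpow hn0 hn0, ← Real.rpow_add (by exact_mod_cast hn)]
        congr 2
        ring

end Pool.Agent.H3.EB
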