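import Pool.Agent.H3.EB.NCount
import Pool.Agent.H3.EB.SU
import Pool.Agent.H3.EB.Defect

/-!
# EB MainU: `k1 > k2`, uniformly in `k1`

For `K > k2 ≥ 1` the number of triples `(k1, n1, n2)` with `k1 ≥ K`, `n2 ≤ N` and `Pair k1 k2 n1 n2` is
`≤ C N^(max (2/3) (k2/K) + ε)`.

Proof.
* `n1`: only the first `K` elements of the left block are used.
  `n1^K ≤ B n1 K ≤ (K!)^(K*K) (A n1 K)^2 rad (B n1 K)` and `rad (B n1 K) ≤ rad (B n1 k1) = rad (B n2 k2)`, so `n_count`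
  applies and there are `≤ C N^ε (N^(k2/K) + N^(2/3))` values of `n1`.
* `k1 ≤ C N^ε`: every prime `p ≤ k1` divides `B n1 k1`, so all `y ≤ k1` have their prime factors among those of
  `B n2 k2`, and `su_count` bounds their number, which is `k1`.
* `n2`: the prime factors of `n2 + 1` are among those of `R = rad (B n1 k1) = rad (B n2' k2)`, `R ≤ (N + k2)^k2`.
-/

set_option autoImplicit false

open Finset

namespace Pool.Agent.H3.EB

theorem mainU_card {α β : Type*} [DecidableEq β] (T : Finset α) (U : Finset β) (f : α → β)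
    (h : ∀ a ∈ T, f a ∈ U) (c : ℝ) (hc : ∀ b ∈ U, ((T.filter (fun a => f a = b)).card : ℝ) ≤ c) :
    (T.card : ℝ) ≤ c * U.card := by
  rw [card_eq_sum_card_fiberwise h]
  push_cast
  calc ∑ b ∈ U, ((T.filter (fun a => f a = b)).card : ℝ) ≤ ∑ _b ∈ U, c := sum_le_sum hc
    _ = c * U.card := by rw [sum_const, nsmul_eq_mul, mul_comm]

theorem mainU_B_dvd {n K k : ℕ} (h : K ≤ k) : B n K ∣ B n k := by
  unfold B
  exact prod_dvd_prod_of_subset _ _ _ (range_subset_range.2 h)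

theorem mainU_rad_mono {a b : ℕ} (h : a.primeFactors ⊆ b.primeFactors) : rad a ≤ rad b := by
  unfold rad
  refine Nat.le_of_dvd (rad_pos b) ?_
  exact prod_dvd_prod_of_subset _ _ _ h

theorem mainU_rad_primeFactors (m : ℕ) : (rad m).primeFactors = m.primeFactors := by
  unfold rad
  exact Nat.primeFactors_prod fun p hp => Nat.prime_of_mem_primeFactors hp

/-- a prime `p ≤ k` divides the product of `k` consecutive integers -/
theorem mainU_prime_dvd {n k p : ℕ} (hp : 0 < p) (hpk : p ≤ k) : p ∣ B n k := by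
  have h1 : p ∣ n + (p - 1 - n % p) + 1 := by
    have h2 : n % p < p := Nat.mod_lt _ hp
    have h3 : n + (p - 1 - n % p) + 1 = p * (n / p) + p := by
      have := Nat.div_add_mod n p
      omega
    rw [h3]
    exact Dvd.dvd.add ⟨_, rfl⟩ ⟨1, by ring⟩
  exact h1.trans (dvd_B (by omega))

/-- bound of the length of the left block -/
theorem mainU_k1 (k2 : ℕ) (ε : ℝ) (hε : 0 < ε) : ∃ C : ℝ, 0 < C ∧ ∀ N : ℕ, 1 ≤ N → ∀ k1 n1 n2 : ℕ,
    n2 ≤ N → Pair k1 k2 n1 n2 → (k1 : ℝ) ≤ C * (N : ℝ) ^ ε := by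
  obtain ⟨C, hC, h⟩ := su_count (ε / (k2 + 1)) (by positivity)
  refine ⟨C * (((k2 : ℝ) + 1) ^ k2) ^ (ε / (k2 + 1)) + 1, by positivity, fun N hN k1 n1 n2 hn hP => ?_⟩
  have hN1 : (1 : ℝ) ≤ N := by exact_mod_cast hN
  have hN0 : (0 : ℝ) < N := by linarith
  rcases Nat.eq_zero_or_pos k1 with hk | hk
  · rw [hk]
    push_cast
    positivity
  have h1 := h (B n2 k2) k1 (B_pos _ _) hk
  have h2 : (Icc 1 k1).filter (fun y => y.primeFactors ⊆ (B n2 k2).primeFactors) = Icc 1 k1 := by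
    refine filter_true_of_mem fun y hy p hp => ?_
    rw [mem_Icc] at hy
    have hpp := Nat.prime_of_mem_primeFactors hp
    have hpy := Nat.le_of_dvd (by omega) (Nat.dvd_of_mem_primeFactors hp)
    rw [← hP.2, Nat.mem_primeFactors]
    exact ⟨hpp, mainU_prime_dvd hpp.pos (by omega), (B_pos _ _).ne'⟩
  rw [h2, Nat.card_Icc, Nat.add_sub_cancel] at h1
  refine h1.trans ?_
  have h3 : (B n2 k2 : ℝ) ≤ ((k2 : ℝ) + 1) ^ k2 * (N : ℝ) ^ k2 := by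
    have : B n2 k2 ≤ (N + k2) ^ k2 := (B_le _ _).trans (Nat.pow_le_pow_left (by omega) _)
    have h4 : (B n2 k2 : ℝ) ≤ ((N : ℝ) + k2) ^ k2 := by exact_mod_cast this
    refine h4.trans ?_
    rw [← mul_pow]
    refine pow_le_pow_left₀ (by positivity) ?_ _
    nlinarith [Nat.cast_nonneg (α := ℝ) k2]
  have h5 : (k1 : ℝ) ≤ N := by
    have := hP.1
    exact_mod_cast (by omega : k1 ≤ N)
  have h6 : (B n2 k2 : ℝ) * k1 ≤ ((k2 : ℝ) + 1) ^ k2 * (N : ℝ) ^ (k2 + 1) := by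
    calc (B n2 k2 : ℝ) * k1 ≤ ((k2 : ℝ) + 1) ^ k2 * (N : ℝ) ^ k2 * N :=
          mul_le_mul h3 h5 (Nat.cast_nonneg _) (by positivity)
      _ = _ := by ring
  have h7 : ((B n2 k2 : ℝ) * k1) ^ (ε / (k2 + 1)) ≤ (((k2 : ℝ) + 1) ^ k2) ^ (ε / (k2 + 1)) * (N : ℝ) ^ ε := by
    refine (Real.rpow_le_rpow (by positivity) h6 (by positivity)).trans ?_
    rw [Real.mul_rpow (by positivity) (by positivity)]
    refine mul_le_mul_of_nonneg_left (le_of_eq ?_) (by positivity)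
    rw [← Real.rpow_natCast, ← Real.rpow_mul hN0.le]
    congr 1
    push_cast
    field_simp
  have h8 : (0 : ℝ) < (N : ℝ) ^ ε := by positivity
  calc C * ((B n2 k2 : ℝ) * k1) ^ (ε / (k2 + 1)) ≤
        C * ((((k2 : ℝ) + 1) ^ k2) ^ (ε / (k2 + 1)) * (N : ℝ) ^ ε) := mul_le_mul_of_nonneg_left h7 hC.le
    _ ≤ (C * (((k2 : ℝ) + 1) ^ k2) ^ (ε / (k2 + 1)) + 1) * (N : ℝ) ^ ε := by nlinarith

/-- few `n2` for given `k1, n1`, uniformly in `k1` -/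
theorem mainU_few (k2 : ℕ) (hk2 : 1 ≤ k2) (ε : ℝ) (hε : 0 < ε) : ∃ C : ℝ, 0 < C ∧ ∀ N : ℕ, 1 ≤ N →
    ∀ k1 n1 : ℕ, ∀ T : Finset ℕ, (∀ n2 ∈ T, n2 ≤ N ∧ Pair k1 k2 n1 n2) → (T.card : ℝ) ≤ C * (N : ℝ) ^ ε := by
  classical
  obtain ⟨C, hC, h⟩ := su_count (ε / (k2 + 1)) (by positivity)
  refine ⟨C * (((k2 : ℝ) + 1) ^ k2 * 2) ^ (ε / (k2 + 1)), by positivity, fun N hN k1 n1 T hT => ?_⟩
  have hN1 : (1 : ℝ) ≤ N := by exact_mod_cast hN
  have hN0 : (0 : ℝ) < N := by linarith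
  rcases T.eq_empty_or_nonempty with rfl | ⟨n2', hn2'⟩
  · rw [card_empty]
    push_cast
    positivity
  obtain ⟨hb, hP⟩ := hT n2' hn2'
  set R := rad (B n1 k1) with hR
  have hRle : (R : ℝ) ≤ ((k2 : ℝ) + 1) ^ k2 * (N : ℝ) ^ k2 := by
    have : R ≤ (N + k2) ^ k2 := by
      rw [hR, hP.rad_eq]
      exact (Nat.le_of_dvd (B_pos _ _) (rad_dvd _)).trans ((B_le _ _).trans
        (Nat.pow_le_pow_left (by omega) _))
    have h4 : (R : ℝ) ≤ ((N : ℝ) + k2) ^ k2 := by exact_mod_cast this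
    refine h4.trans ?_
    rw [← mul_pow]
    refine pow_le_pow_left₀ (by positivity) ?_ _
    nlinarith [Nat.cast_nonneg (α := ℝ) k2]
  have h1 := h R (N + 1) (rad_pos _) (by omega)
  have hsub : T.image (fun n => n + 1) ⊆ (Icc 1 (N + 1)).filter (fun y => y.primeFactors ⊆ R.primeFactors) := by
    intro y hy
    rw [mem_image] at hy
    obtain ⟨n2, hn2, rfl⟩ := hy
    obtain ⟨hb2, hP2⟩ := hT n2 hn2
    rw [mem_filter, mem_Icc, hR, mainU_rad_primeFactors, hP2.2]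
    refine ⟨⟨by omega, by omega⟩, ?_⟩
    refine Nat.primeFactors_mono ?_ (B_pos _ _).ne'
    have := dvd_B (n := n2) (k := k2) (i := 0) (by omega)
    simpa using this
  have hcard : (T.card : ℝ) ≤ C * ((R : ℝ) * ((N + 1 : ℕ) : ℝ)) ^ (ε / (k2 + 1)) := by
    refine le_trans ?_ h1
    rw [← card_image_of_injective T (fun a b h => by simpa using h : Function.Injective (fun n : ℕ => n + 1))]
    exact_mod_cast card_le_card hsub
  refine hcard.trans ?_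
  have h6 : (R : ℝ) * ((N + 1 : ℕ) : ℝ) ≤ ((k2 : ℝ) + 1) ^ k2 * 2 * (N : ℝ) ^ (k2 + 1) := by
    calc (R : ℝ) * ((N + 1 : ℕ) : ℝ) ≤ ((k2 : ℝ) + 1) ^ k2 * (N : ℝ) ^ k2 * (2 * N) := by
          refine mul_le_mul hRle ?_ (Nat.cast_nonneg _) (by positivity)
          push_cast
          linarith
      _ = _ := by ring
  have h7 : ((R : ℝ) * ((N + 1 : ℕ) : ℝ)) ^ (ε / (k2 + 1)) ≤
      (((k2 : ℝ) + 1) ^ k2 * 2) ^ (ε / (k2 + 1)) * (N : ℝ) ^ ε := by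
    refine (Real.rpow_le_rpow (by positivity) h6 (by positivity)).trans ?_
    rw [Real.mul_rpow (by positivity) (by positivity)]
    refine mul_le_mul_of_nonneg_left (le_of_eq ?_) (by positivity)
    rw [← Real.rpow_natCast, ← Real.rpow_mul hN0.le]
    congr 1
    push_cast
    field_simp
  calc C * ((R : ℝ) * ((N + 1 : ℕ) : ℝ)) ^ (ε / (k2 + 1)) ≤
        C * ((((k2 : ℝ) + 1) ^ k2 * 2) ^ (ε / (k2 + 1)) * (N : ℝ) ^ ε) := mul_le_mul_of_nonneg_left h7 hC.le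
    _ = _ := by ring

theorem main_u (K k2 : ℕ) (hk2 : 1 ≤ k2) (hk : k2 < K) (ε : ℝ) (hε : 0 < ε) : ∃ C : ℝ, 0 < C ∧
    ∀ N : ℕ, 1 ≤ N → ∀ T : Finset (ℕ × ℕ × ℕ), (∀ t ∈ T, K ≤ t.1 ∧ t.2.2 ≤ N ∧ Pair t.1 k2 t.2.1 t.2.2) →
      (T.card : ℝ) ≤ C * (N : ℝ) ^ (max (2 / 3) ((k2 : ℝ) / K) + ε) := by
  classical
  set c : ℝ := ((K.factorial) ^ (K * K) : ℕ) * ((k2 : ℝ) + 1) ^ k2 with hc
  have hc0 : 0 < c := by
    have : 0 < (K.factorial) ^ (K * K) := pow_pos (Nat.factorial_pos _) _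
    have h2 : (0 : ℝ) < ((K.factorial) ^ (K * K) : ℕ) := by exact_mod_cast this
    positivity
  obtain ⟨C1, hC1, h1⟩ := n_count K (by omega) (ε / 3) c (by positivity) hc0
  obtain ⟨C2, hC2, h2⟩ := mainU_few k2 hk2 (ε / 3) (by positivity)
  obtain ⟨C3, hC3, h3⟩ := mainU_k1 k2 (ε / 3) (by positivity)
  refine ⟨2 * C1 * C2 * (C3 + 1), by positivity, fun N hN T hT => ?_⟩
  have hN1 : (1 : ℝ) ≤ N := by exact_mod_cast hN
  have hN0 : (0 : ℝ) < N := by linarith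
  have hk1R : (0 : ℝ) < K := by exact_mod_cast (by omega : 0 < K)
  set X0 : ℝ := (N : ℝ) ^ ((k2 : ℝ) / K) with hX0
  have hX1 : 1 ≤ X0 := Real.one_le_rpow hN1 (by positivity)
  have hXk : X0 ^ K = (N : ℝ) ^ k2 := by
    rw [hX0, ← Real.rpow_natCast, ← Real.rpow_mul hN0.le, div_mul_cancel₀ _ hk1R.ne', Real.rpow_natCast]
  set U := (range (N + 1)).filter (fun n : ℕ => (n : ℝ) ^ K ≤ c * (A n K : ℝ) ^ 2 * X0 ^ K) with hU
  set M : ℕ := ⌊C3 * (N : ℝ) ^ (ε / 3)⌋₊ with hM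
  have hmem : ∀ t ∈ T, (t.1, t.2.1) ∈ (range (M + 1)) ×ˢ U := by
    rintro ⟨k1, n1, n2⟩ ht
    obtain ⟨hK1, hn2, hP⟩ := hT _ ht
    simp only at hK1 hn2 hP ⊢
    have hp1 : n1 ≤ N := by have := hP.1; omega
    rw [mem_product, mem_range]
    refine ⟨?_, mem_filter.2 ⟨mem_range.2 (by omega), ?_⟩⟩
    · have := Nat.le_floor (h3 N hN k1 n1 n2 hn2 hP)
      omega
    rw [hXk]
    have e1 : n1 ^ K ≤ B n1 K := (Nat.pow_le_pow_left (Nat.le_succ _) _).trans (le_B _ _)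
    have e2 : B n1 K ≤ (K.factorial) ^ (K * K) * (A n1 K) ^ 2 * rad (B n1 K) := by
      refine Nat.le_of_dvd ?_ (defect K n1)
      have h3 : 0 < (K.factorial) ^ (K * K) := pow_pos (Nat.factorial_pos _) _
      exact Nat.mul_pos (Nat.mul_pos h3 (pow_pos (A_pos _ _) _)) (rad_pos _)
    have e3 : rad (B n1 K) ≤ (N + k2) ^ k2 := by
      refine (mainU_rad_mono (Nat.primeFactors_mono (mainU_B_dvd hK1) (B_pos _ _).ne')).trans ?_
      rw [hP.rad_eq]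
      exact (Nat.le_of_dvd (B_pos _ _) (rad_dvd _)).trans ((B_le _ _).trans
        (Nat.pow_le_pow_left (by omega) _))
    have e4 : ((N : ℝ) + k2) ^ k2 ≤ ((k2 : ℝ) + 1) ^ k2 * (N : ℝ) ^ k2 := by
      rw [← mul_pow]
      refine pow_le_pow_left₀ (by positivity) ?_ _
      nlinarith [Nat.cast_nonneg (α := ℝ) k2]
    have e5 : (n1 : ℝ) ^ K ≤ ((K.factorial) ^ (K * K) : ℕ) * (A n1 K : ℝ) ^ 2 * ((N : ℝ) + k2) ^ k2 := by
      have := (e1.trans e2).trans (Nat.mul_le_mul_left _ e3)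
      exact_mod_cast this
    refine e5.trans ?_
    calc ((K.factorial) ^ (K * K) : ℕ) * (A n1 K : ℝ) ^ 2 * ((N : ℝ) + k2) ^ k2
        ≤ ((K.factorial) ^ (K * K) : ℕ) * (A n1 K : ℝ) ^ 2 * (((k2 : ℝ) + 1) ^ k2 * (N : ℝ) ^ k2) :=
          mul_le_mul_of_nonneg_left e4 (by positivity)
      _ = c * (A n1 K : ℝ) ^ 2 * (N : ℝ) ^ k2 := by rw [hc]; ring
  have hcard : (T.card : ℝ) ≤ C2 * (N : ℝ) ^ (ε / 3) * ((range (M + 1)) ×ˢ U).card := by
    refine mainU_card _ _ (fun t : ℕ × ℕ × ℕ => (t.1, t.2.1)) hmem _ fun b hb => ?_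
    have hinj : Set.InjOn (fun t : ℕ × ℕ × ℕ => t.2.2)
        ((T.filter (fun a => (a.1, a.2.1) = b) : Finset (ℕ × ℕ × ℕ)) : Set (ℕ × ℕ × ℕ)) := by
      rintro ⟨x1, x2, x3⟩ hx ⟨y1, y2, y3⟩ hy hxy
      rw [mem_coe, mem_filter] at hx hy
      have h4 := hx.2.trans hy.2.symm
      simp only [Prod.mk.injEq] at h4 hxy ⊢
      exact ⟨h4.1, h4.2, hxy⟩
    rw [← card_image_of_injOn hinj]
    refine h2 N hN b.1 b.2 _ fun n2 hn2 => ?_
    rw [mem_image] at hn2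
    obtain ⟨t, ht, rfl⟩ := hn2
    rw [mem_filter] at ht
    obtain ⟨_, hb2, hP⟩ := hT t ht.1
    rw [← ht.2]
    exact ⟨hb2, hP⟩
  have hUc : (U.card : ℝ) ≤ C1 * (N : ℝ) ^ (ε / 3) * (X0 + (N : ℝ) ^ (2 / 3 : ℝ)) := h1 N hN X0 hX1
  set θ : ℝ := max (2 / 3) ((k2 : ℝ) / K) with hθ
  have f1 : X0 ≤ (N : ℝ) ^ θ := Real.rpow_le_rpow_of_exponent_le hN1 (le_max_right _ _)
  have f2 : (N : ℝ) ^ (2 / 3 : ℝ) ≤ (N : ℝ) ^ θ := Real.rpow_le_rpow_of_exponent_le hN1 (le_max_left _ _)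
  have f3 : (N : ℝ) ^ (θ + ε) = (N : ℝ) ^ (ε / 3) * (N : ℝ) ^ (ε / 3) * (N : ℝ) ^ (ε / 3) * (N : ℝ) ^ θ := by
    rw [← Real.rpow_add hN0, ← Real.rpow_add hN0, ← Real.rpow_add hN0]
    congr 1
    ring
  have f4 : (((range (M + 1)) ×ˢ U).card : ℝ) ≤ (C3 + 1) * (N : ℝ) ^ (ε / 3) * U.card := by
    rw [card_product, card_range]
    push_cast
    refine mul_le_mul_of_nonneg_right ?_ (Nat.cast_nonneg _)
    have g1 : (M : ℝ) ≤ C3 * (N : ℝ) ^ (ε / 3) := Nat.floor_le (by positivity)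
    have g2 : (1 : ℝ) ≤ (N : ℝ) ^ (ε / 3) := Real.one_le_rpow hN1 (by positivity)
    nlinarith
  calc (T.card : ℝ) ≤ C2 * (N : ℝ) ^ (ε / 3) * ((range (M + 1)) ×ˢ U).card := hcard
    _ ≤ C2 * (N : ℝ) ^ (ε / 3) * ((C3 + 1) * (N : ℝ) ^ (ε / 3) *
        (C1 * (N : ℝ) ^ (ε / 3) * ((N : ℝ) ^ θ + (N : ℝ) ^ θ))) := by
        refine mul_le_mul_of_nonneg_left (f4.trans ?_) (by positivity)
        refine mul_le_mul_of_nonneg_left (hUc.trans ?_) (by positivity)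
        exact mul_le_mul_of_nonneg_left (add_le_add f1 f2) (by positivity)
    _ = 2 * C1 * C2 * (C3 + 1) * (N : ℝ) ^ (θ + ε) := by rw [f3]; ring

end Pool.Agent.H3.EB
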