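import Pool.Agent.H3.EB.MainEq
import Pool.Agent.H3.EB.MainU

/-!
# EB Main
-/

set_option autoImplicit false

open Finset

namespace Pool.Agent.H3.EB

theorem B_eq (n k : ℕ) : ∏ i ∈ Icc 1 k, (n + i) = B n k := by
  unfold B
  induction k with
  | zero => simp
  | succ k ih => rw [Finset.prod_Icc_succ_top (by omega), ih, prod_range_succ, add_assoc]

theorem card_S (k1 k2 N : ℕ) : Nat.card {p : ℕ × ℕ // p.2 ≤ N ∧ p.1 + k1 ≤ p.2 ∧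
    (∏ i ∈ Icc 1 k1, (p.1 + i)).primeFactors = (∏ i ∈ Icc 1 k2, (p.2 + i)).primeFactors} =
    (S k1 k2 N).card := by
  classical
  refine Nat.subtype_card _ fun p => ?_
  obtain ⟨n1, n2⟩ := p
  rw [mem_S, B_eq, B_eq]
  rfl

theorem card_triples (K k2 N : ℕ) (c : ℝ) (hT : ∀ T : Finset (ℕ × ℕ × ℕ),
    (∀ t ∈ T, K ≤ t.1 ∧ t.2.2 ≤ N ∧ Pair t.1 k2 t.2.1 t.2.2) → (T.card : ℝ) ≤ c) :
    (Nat.card {t : ℕ × ℕ × ℕ // K ≤ t.1 ∧ t.2.2 ≤ N ∧ t.2.1 + t.1 ≤ t.2.2 ∧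
      (∏ i ∈ Icc 1 t.1, (t.2.1 + i)).primeFactors = (∏ i ∈ Icc 1 k2, (t.2.2 + i)).primeFactors} : ℝ) ≤ c := by
  classical
  set T : Finset (ℕ × ℕ × ℕ) := ((range (N + 1)) ×ˢ ((range (N + 1)) ×ˢ (range (N + 1)))).filter
    (fun t => K ≤ t.1 ∧ t.2.2 ≤ N ∧ Pair t.1 k2 t.2.1 t.2.2) with hTd
  have h1 : Nat.card {t : ℕ × ℕ × ℕ // K ≤ t.1 ∧ t.2.2 ≤ N ∧ t.2.1 + t.1 ≤ t.2.2 ∧
      (∏ i ∈ Icc 1 t.1, (t.2.1 + i)).primeFactors = (∏ i ∈ Icc 1 k2, (t.2.2 + i)).primeFactors} = T.card := by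
    refine Nat.subtype_card _ fun t => ?_
    obtain ⟨k1, n1, n2⟩ := t
    rw [hTd, mem_filter, mem_product, mem_product, mem_range, mem_range, mem_range, B_eq, B_eq]
    simp only
    constructor
    · rintro ⟨_, h⟩
      exact h
    · intro h
      have := h.2.2.1
      exact ⟨⟨by omega, by omega, by omega⟩, h⟩
  rw [h1]
  exact hT T fun t ht => (mem_filter.1 ht).2

end Pool.Agent.H3.EB
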