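import Pool.Agent.H3.EB.Good
import Pool.Agent.H3.EB.Bad
import Pool.Agent.H3.EB.Few

/-!
# EB MainEq: equal lengths, `#S k k N ≤ C N^(2/3+ε)`

Proof.  `M = N^(1/3)`.  Split `S k k N` into the pairs with `A n1 k ≤ M` and `A n2 k ≤ M` (`good_pairs` with `ε`:
`≤ C N^ε N^(2/3)`), the pairs with `A n2 k > M` (the number of `n2 < N+1` is, by `bad_count` with `X = N+1`,
`≤ C (2N)^(ε/2) (2 N / N^(1/3) + (2N)^(2/3)) ≤ C' N^(2/3+ε/2)`, and each has `≤ C N^(ε/2)` partners `n1` by `few1`),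
and the pairs with `A n1 k > M` (the same with `few2`).
-/

set_option autoImplicit false

open Finset

namespace Pool.Agent.H3.EB

theorem mainEq_card {α β : Type*} [DecidableEq β] (T : Finset α) (U : Finset β) (f : α → β)
    (h : ∀ a ∈ T, f a ∈ U) (c : ℝ) (hc : ∀ b ∈ U, ((T.filter (fun a => f a = b)).card : ℝ) ≤ c) :
    (T.card : ℝ) ≤ c * U.card := by
  rw [card_eq_sum_card_fiberwise h]
  push_cast
  calc ∑ b ∈ U, ((T.filter (fun a => f a = b)).card : ℝ) ≤ ∑ _b ∈ U, c := sum_le_sum hc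
    _ = c * U.card := by rw [sum_const, nsmul_eq_mul, mul_comm]

/-- the number of `n ≤ N` with large `A n k` -/
theorem mainEq_U (k : ℕ) (ε : ℝ) (hε : 0 < ε) : ∃ C : ℝ, 0 < C ∧ ∀ N : ℕ, 1 ≤ N →
    (((range (N + 1)).filter (fun n => (N : ℝ) ^ (1 / 3 : ℝ) < (A n k : ℝ))).card : ℝ) ≤
      C * (N : ℝ) ^ (2 / 3 + ε) := by
  obtain ⟨C, hC, h⟩ := bad_count k ε hε
  refine ⟨C * 2 ^ ε * 4, by positivity, fun N hN => ?_⟩
  have hN1 : (1 : ℝ) ≤ N := by exact_mod_cast hN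
  have hN0 : (0 : ℝ) < N := by linarith
  have h1 := h (N + 1) (by omega) ((N : ℝ) ^ (1 / 3 : ℝ)) (by positivity)
  refine h1.trans ?_
  have hX : ((N + 1 : ℕ) : ℝ) ≤ 2 * N := by push_cast; linarith
  have hX0 : (0 : ℝ) ≤ ((N + 1 : ℕ) : ℝ) := Nat.cast_nonneg _
  have e1 : ((N + 1 : ℕ) : ℝ) ^ ε ≤ 2 ^ ε * (N : ℝ) ^ ε := by
    rw [← Real.mul_rpow (by norm_num) hN0.le]
    exact Real.rpow_le_rpow hX0 hX hε.le
  have e2 : ((N + 1 : ℕ) : ℝ) / (N : ℝ) ^ (1 / 3 : ℝ) ≤ 2 * (N : ℝ) ^ (2 / 3 : ℝ) := by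
    rw [div_le_iff₀ (by positivity), mul_assoc, ← Real.rpow_add hN0]
    norm_num
    push_cast at hX
    linarith
  have e3 : ((N + 1 : ℕ) : ℝ) ^ (2 / 3 : ℝ) ≤ 2 * (N : ℝ) ^ (2 / 3 : ℝ) := by
    have : ((N + 1 : ℕ) : ℝ) ^ (2 / 3 : ℝ) ≤ (2 * (N : ℝ)) ^ (2 / 3 : ℝ) :=
      Real.rpow_le_rpow hX0 hX (by norm_num)
    refine this.trans ?_
    rw [Real.mul_rpow (by norm_num) hN0.le]
    refine mul_le_mul_of_nonneg_right ?_ (by positivity)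
    calc (2 : ℝ) ^ (2 / 3 : ℝ) ≤ (2 : ℝ) ^ (1 : ℝ) := Real.rpow_le_rpow_of_exponent_le (by norm_num) (by norm_num)
      _ = 2 := Real.rpow_one 2
  calc C * ((N + 1 : ℕ) : ℝ) ^ ε * (((N + 1 : ℕ) : ℝ) / (N : ℝ) ^ (1 / 3 : ℝ) + ((N + 1 : ℕ) : ℝ) ^ (2 / 3 : ℝ))
      ≤ C * (2 ^ ε * (N : ℝ) ^ ε) * (2 * (N : ℝ) ^ (2 / 3 : ℝ) + 2 * (N : ℝ) ^ (2 / 3 : ℝ)) := by
        refine mul_le_mul (mul_le_mul_of_nonneg_left e1 hC.le) (add_le_add e2 e3) (by positivity) (by positivity)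
    _ = C * 2 ^ ε * 4 * ((N : ℝ) ^ (2 / 3 : ℝ) * (N : ℝ) ^ ε) := by ring
    _ = C * 2 ^ ε * 4 * (N : ℝ) ^ (2 / 3 + ε) := by rw [← Real.rpow_add hN0]

/-- pairs with `A n2 k2 > M` or `A n1 k1 > M`, general lengths -/
theorem bad_pairs (k1 k2 : ℕ) (hk1 : 1 ≤ k1) (hk2 : 1 ≤ k2) (ε : ℝ) (hε : 0 < ε) : ∃ C : ℝ, 0 < C ∧
    ∀ N : ℕ, 1 ≤ N → ∀ T : Finset (ℕ × ℕ), (∀ p ∈ T, Pair k1 k2 p.1 p.2 ∧ p.2 ≤ N ∧
      ((N : ℝ) ^ (1 / 3 : ℝ) < A p.1 k1 ∨ (N : ℝ) ^ (1 / 3 : ℝ) < A p.2 k2)) →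
      (T.card : ℝ) ≤ C * (N : ℝ) ^ (2 / 3 + ε) := by
  classical
  obtain ⟨C1, hC1, h1⟩ := mainEq_U k1 (ε / 2) (by positivity)
  obtain ⟨C2, hC2, h2⟩ := mainEq_U k2 (ε / 2) (by positivity)
  obtain ⟨C3, hC3, h3⟩ := few2 k1 k2 hk2 (ε / 2) (by positivity)
  obtain ⟨C4, hC4, h4⟩ := few1 k1 k2 hk1 (ε / 2) (by positivity)
  refine ⟨C3 * C1 + C4 * C2, by positivity, fun N hN T hT => ?_⟩
  have hN1 : (1 : ℝ) ≤ N := by exact_mod_cast hN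
  have hN0 : (0 : ℝ) < N := by linarith
  set U1 := (range (N + 1)).filter (fun n => (N : ℝ) ^ (1 / 3 : ℝ) < (A n k1 : ℝ)) with hU1
  set U2 := (range (N + 1)).filter (fun n => (N : ℝ) ^ (1 / 3 : ℝ) < (A n k2 : ℝ)) with hU2
  have hsub : T ⊆ T.filter (fun p => p.1 ∈ U1) ∪ T.filter (fun p => p.2 ∈ U2) := by
    intro p hp
    obtain ⟨ha, hb, hc⟩ := hT p hp
    have hp1 : p.1 ≤ N := by have := ha.1; omega
    rw [mem_union]
    rcases hc with hc | hc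
    · exact Or.inl (mem_filter.2 ⟨hp, mem_filter.2 ⟨mem_range.2 (by omega), hc⟩⟩)
    · exact Or.inr (mem_filter.2 ⟨hp, mem_filter.2 ⟨mem_range.2 (by omega), hc⟩⟩)
  have hT1 : ((T.filter (fun p => p.1 ∈ U1)).card : ℝ) ≤ C3 * (N : ℝ) ^ (ε / 2) * U1.card := by
    refine mainEq_card _ U1 Prod.fst (fun a ha => (mem_filter.1 ha).2) _ fun b hb => ?_
    have hbN : b ≤ N := by
      rw [hU1, mem_filter, mem_range] at hb
      omega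
    have hinj : Set.InjOn (Prod.snd : ℕ × ℕ → ℕ)
        (((T.filter (fun p => p.1 ∈ U1)).filter (fun a => a.1 = b) : Finset (ℕ × ℕ)) : Set (ℕ × ℕ)) := by
      intro x hx y hy hxy
      rw [mem_coe, mem_filter] at hx hy
      exact Prod.ext (hx.2.trans hy.2.symm) hxy
    rw [← card_image_of_injOn hinj]
    refine h3 N hN b hbN _ fun n2 hn2 => ?_
    rw [mem_image] at hn2
    obtain ⟨p, hp, rfl⟩ := hn2
    rw [mem_filter, mem_filter] at hp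
    obtain ⟨ha, hb', _⟩ := hT p hp.1.1
    rw [← hp.2]
    exact ⟨hb', ha⟩
  have hT2 : ((T.filter (fun p => p.2 ∈ U2)).card : ℝ) ≤ C4 * (N : ℝ) ^ (ε / 2) * U2.card := by
    refine mainEq_card _ U2 Prod.snd (fun a ha => (mem_filter.1 ha).2) _ fun b hb => ?_
    have hbN : b ≤ N := by
      rw [hU2, mem_filter, mem_range] at hb
      omega
    have hinj : Set.InjOn (Prod.fst : ℕ × ℕ → ℕ)
        (((T.filter (fun p => p.2 ∈ U2)).filter (fun a => a.2 = b) : Finset (ℕ × ℕ)) : Set (ℕ × ℕ)) := by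
      intro x hx y hy hxy
      rw [mem_coe, mem_filter] at hx hy
      exact Prod.ext hxy (hx.2.trans hy.2.symm)
    rw [← card_image_of_injOn hinj]
    refine h4 N hN b hbN _ fun n1 hn1 => ?_
    rw [mem_image] at hn1
    obtain ⟨p, hp, rfl⟩ := hn1
    rw [mem_filter, mem_filter] at hp
    obtain ⟨ha, _, _⟩ := hT p hp.1.1
    rw [← hp.2]
    exact ha
  have hcard : (T.card : ℝ) ≤ (T.filter (fun p => p.1 ∈ U1)).card + (T.filter (fun p => p.2 ∈ U2)).card := by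
    exact_mod_cast (card_le_card hsub).trans (card_union_le _ _)
  have hpow : (N : ℝ) ^ (2 / 3 + ε) = (N : ℝ) ^ (ε / 2) * (N : ℝ) ^ (2 / 3 + ε / 2) := by
    rw [← Real.rpow_add hN0]
    congr 1
    ring
  have a1 : C3 * (N : ℝ) ^ (ε / 2) * U1.card ≤ C3 * (N : ℝ) ^ (ε / 2) * (C1 * (N : ℝ) ^ (2 / 3 + ε / 2)) :=
    mul_le_mul_of_nonneg_left (h1 N hN) (by positivity)
  have a2 : C4 * (N : ℝ) ^ (ε / 2) * U2.card ≤ C4 * (N : ℝ) ^ (ε / 2) * (C2 * (N : ℝ) ^ (2 / 3 + ε / 2)) :=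
    mul_le_mul_of_nonneg_left (h2 N hN) (by positivity)
  rw [hpow]
  calc (T.card : ℝ) ≤ C3 * (N : ℝ) ^ (ε / 2) * (C1 * (N : ℝ) ^ (2 / 3 + ε / 2)) +
        C4 * (N : ℝ) ^ (ε / 2) * (C2 * (N : ℝ) ^ (2 / 3 + ε / 2)) := by linarith
    _ = (C3 * C1 + C4 * C2) * ((N : ℝ) ^ (ε / 2) * (N : ℝ) ^ (2 / 3 + ε / 2)) := by ring

theorem main_eq (k : ℕ) (hk : 2 ≤ k) (ε : ℝ) (hε : 0 < ε) : ∃ C : ℝ, 0 < C ∧ ∀ N : ℕ, 1 ≤ N →
    ((S k k N).card : ℝ) ≤ C * (N : ℝ) ^ (2 / 3 + ε) := by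
  classical
  obtain ⟨C1, hC1, h1⟩ := good_pairs k hk ε hε
  obtain ⟨C2, hC2, h2⟩ := bad_pairs k k (by omega) (by omega) ε hε
  refine ⟨C1 + C2, by positivity, fun N hN => ?_⟩
  have hN1 : (1 : ℝ) ≤ N := by exact_mod_cast hN
  have hN0 : (0 : ℝ) < N := by linarith
  set P : ℕ × ℕ → Prop := fun p => (N : ℝ) ^ (1 / 3 : ℝ) < A p.1 k ∨ (N : ℝ) ^ (1 / 3 : ℝ) < A p.2 k with hP
  have b1 : (((S k k N).filter (fun p => ¬ P p)).card : ℝ) ≤ C1 * (N : ℝ) ^ ε * ((N : ℝ) ^ (1 / 3 : ℝ)) ^ 2 := by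
    refine h1 N hN _ (Real.one_le_rpow hN1 (by norm_num)) ?_ _ fun p hp => ?_
    · calc (N : ℝ) ^ (1 / 3 : ℝ) ≤ (N : ℝ) ^ (1 : ℝ) := Real.rpow_le_rpow_of_exponent_le hN1 (by norm_num)
        _ = N := Real.rpow_one _
    · rw [mem_filter, hP] at hp
      obtain ⟨hp1, hp2⟩ := hp
      rw [not_or, not_lt, not_lt] at hp2
      have := (mem_S (n1 := p.1) (n2 := p.2)).1 hp1
      exact ⟨this.2, this.1, hp2.1, hp2.2⟩
  have b2 : (((S k k N).filter (fun p => P p)).card : ℝ) ≤ C2 * (N : ℝ) ^ (2 / 3 + ε) := by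
    refine h2 N hN _ fun p hp => ?_
    rw [mem_filter, hP] at hp
    have := (mem_S (n1 := p.1) (n2 := p.2)).1 hp.1
    exact ⟨this.2, this.1, hp.2⟩
  have b3 : ((S k k N).card : ℝ) = ((S k k N).filter (fun p => P p)).card +
      ((S k k N).filter (fun p => ¬ P p)).card := by
    exact_mod_cast (card_filter_add_card_filter_not (s := S k k N) (fun p => P p)).symm
  have b4 : C1 * (N : ℝ) ^ ε * ((N : ℝ) ^ (1 / 3 : ℝ)) ^ 2 = C1 * (N : ℝ) ^ (2 / 3 + ε) := by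
    rw [← Real.rpow_natCast, ← Real.rpow_mul hN0.le, mul_assoc, ← Real.rpow_add hN0]
    congr 2
    norm_num
    ring
  rw [b3]
  rw [b4] at b1
  linarith

end Pool.Agent.H3.EB
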