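import Pool.Agent.H3.EB.Bad

/-!
# EB NCount: few `n` with large square part relative to their size

`n_count`: let `K ≥ 2`, `ε > 0`, `c > 0`.  There is `C` such that for all `N ≥ 1` and all real `X0 ≥ 1` the number
of `n ≤ N` with `n^K ≤ c (A n K)^2 X0^K` is `≤ C N^ε (X0 + N^(2/3))`.

Proof.  The `n ≤ X0` are at most `X0 + 1 ≤ 2 X0`.  The other ones (up to `N`) are in dyadic ranges
`X ≤ n < 2 X`, `X = 2^j`, `2 X > X0`, `j ≤ log2 N`.  There `(A n K)^2 ≥ (X / X0)^K / c`, i.e.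
`A n K > A0 := (X / X0)^(K/2) / (2 √c)`.  `bad_count` with range `2 X ≤ 2 N` (and exponent `ε/2`):
`≤ C' (2N)^(ε/2) (2 X / A0 + (2N)^(2/3))` and `X / A0 = 2 √c X (X0/X)^(K/2) ≤ C'' X0`, because
`(X0/X)^(K/2) ≤ C''' (X0/X)` (`X0 / X < 2`, `K/2 ≥ 1`).  Sum over the `≤ log2 N + 1 ≤ C N^(ε/2)` values of `j`.
-/

set_option autoImplicit false

open Finset

namespace Pool.Agent.H3.EB

theorem nCount_log (ε : ℝ) (hε : 0 < ε) : ∃ C : ℝ, 0 < C ∧ ∀ N : ℕ, 1 ≤ N →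
    ((Nat.log 2 N : ℝ) + 1) ≤ C * (N : ℝ) ^ ε := by
  refine ⟨1 / (ε * Real.log 2) + 1, by positivity, fun N hN => ?_⟩
  have hN1 : (1 : ℝ) ≤ N := by exact_mod_cast hN
  have hl2 : 0 < Real.log 2 := Real.log_pos (by norm_num)
  have h1 : (Nat.log 2 N : ℝ) * Real.log 2 ≤ Real.log N := by
    have h2 : 2 ^ Nat.log 2 N ≤ N := Nat.pow_log_le_self 2 (by omega)
    have h3 : ((2 : ℝ) ^ Nat.log 2 N) ≤ N := by exact_mod_cast h2
    have h4 := Real.log_le_log (by positivity) h3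
    rwa [Real.log_pow] at h4
  have h2 : Real.log N ≤ (N : ℝ) ^ ε / ε := Real.log_le_rpow_div (by linarith) hε
  have h3 : (1 : ℝ) ≤ (N : ℝ) ^ ε := Real.one_le_rpow hN1 hε.le
  have h4 : (Nat.log 2 N : ℝ) ≤ 1 / (ε * Real.log 2) * (N : ℝ) ^ ε := by
    rw [div_mul_eq_mul_div, le_div_iff₀ (by positivity), one_mul]
    calc (Nat.log 2 N : ℝ) * (ε * Real.log 2) = ε * ((Nat.log 2 N : ℝ) * Real.log 2) := by ring
      _ ≤ ε * ((N : ℝ) ^ ε / ε) := mul_le_mul_of_nonneg_left (h1.trans h2) hε.le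
      _ = (N : ℝ) ^ ε := by field_simp
  linarith

theorem n_count (K : ℕ) (hK : 2 ≤ K) (ε c : ℝ) (hε : 0 < ε) (hc : 0 < c) : ∃ C : ℝ, 0 < C ∧ ∀ N : ℕ, 1 ≤ N →
    ∀ X0 : ℝ, 1 ≤ X0 → (((range (N + 1)).filter (fun n : ℕ => (n : ℝ) ^ K ≤ c * (A n K : ℝ) ^ 2 * X0 ^ K)).card : ℝ) ≤
      C * (N : ℝ) ^ ε * (X0 + (N : ℝ) ^ (2 / 3 : ℝ)) := by
  classical
  obtain ⟨C1, hC1, h1⟩ := bad_count K (ε / 2) (by positivity)
  obtain ⟨C3, hC3, h3⟩ := nCount_log (ε / 2) (by positivity)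
  set C2 : ℝ := Real.sqrt (16 * c * 2 ^ K) with hC2
  have hC20 : 0 < C2 := Real.sqrt_pos.2 (by positivity)
  have hC2s : C2 ^ 2 = 16 * c * 2 ^ K := Real.sq_sqrt (by positivity)
  refine ⟨2 + C3 * (C1 * 2 ^ (ε / 2) * (C2 + 2)), by positivity, fun N hN X0 hX => ?_⟩
  have hN1 : (1 : ℝ) ≤ N := by exact_mod_cast hN
  have hN0 : (0 : ℝ) < N := by linarith
  have hX0 : 0 < X0 := by linarith
  set S0 := (range (N + 1)).filter (fun n : ℕ => (n : ℝ) ^ K ≤ c * (A n K : ℝ) ^ 2 * X0 ^ K) with hS0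
  set a0 : ℕ → ℝ := fun j => Real.sqrt (((2 : ℝ) ^ j / X0) ^ K / (4 * c)) with ha0
  have ha0p : ∀ j, 0 < a0 j := fun j => Real.sqrt_pos.2 (by positivity)
  have ha0s : ∀ j, a0 j ^ 2 = ((2 : ℝ) ^ j / X0) ^ K / (4 * c) := fun j => Real.sq_sqrt (by positivity)
  set J := (range (Nat.log 2 N + 1)).filter (fun j => X0 < (2 : ℝ) ^ (j + 1)) with hJ
  set D : ℕ → Finset ℕ := fun j => (range (2 ^ (j + 1))).filter (fun n => a0 j < (A n K : ℝ)) with hD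
  have hsub : S0 ⊆ range (⌊X0⌋₊ + 1) ∪ J.biUnion D := by
    intro n hn
    rw [hS0, mem_filter, mem_range] at hn
    obtain ⟨hnN, hn⟩ := hn
    rw [mem_union]
    rcases le_or_gt (n : ℝ) X0 with h | h
    · left
      rw [mem_range]
      have := Nat.le_floor h
      omega
    · right
      have hn1 : 1 ≤ n := by
        have : (0 : ℝ) < n := by linarith
        exact_mod_cast this
      have e1 : 2 ^ Nat.log 2 n ≤ n := Nat.pow_log_le_self 2 (by omega)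
      have e2 : n < 2 ^ (Nat.log 2 n + 1) := Nat.lt_pow_succ_log_self (by norm_num) n
      have e1' : ((2 : ℝ) ^ Nat.log 2 n) ≤ n := by exact_mod_cast e1
      have e2' : (n : ℝ) < (2 : ℝ) ^ (Nat.log 2 n + 1) := by exact_mod_cast e2
      rw [mem_biUnion]
      refine ⟨Nat.log 2 n, mem_filter.2 ⟨mem_range.2 ?_, by linarith⟩, mem_filter.2 ⟨mem_range.2 e2, ?_⟩⟩
      · have : Nat.log 2 n ≤ Nat.log 2 N := Nat.log_mono_right (by omega)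
        omega
      · have hA : (0 : ℝ) < A n K := by exact_mod_cast A_pos n K
        refine (Real.sqrt_lt' hA).2 ?_
        rw [div_lt_iff₀ (by positivity), div_pow, div_lt_iff₀ (by positivity)]
        have e3 : ((2 : ℝ) ^ Nat.log 2 n) ^ K ≤ (n : ℝ) ^ K := pow_le_pow_left₀ (by positivity) e1' _
        have e4 : 0 < c * (A n K : ℝ) ^ 2 * X0 ^ K := by positivity
        nlinarith
  have hDc : ∀ j ∈ J, ((D j).card : ℝ) ≤ C1 * 2 ^ (ε / 2) * (N : ℝ) ^ (ε / 2) * (C2 * X0 + 2 * (N : ℝ) ^ (2 / 3 : ℝ)) := by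
    intro j hj
    rw [hJ, mem_filter, mem_range] at hj
    obtain ⟨hj1, hj2⟩ := hj
    have e0 : 2 ^ j ≤ N := (Nat.pow_le_pow_right (by norm_num) (by omega)).trans
      (Nat.pow_log_le_self 2 (by omega))
    have e0' : ((2 : ℝ) ^ j) ≤ N := by exact_mod_cast e0
    have e1 := h1 (2 ^ (j + 1)) (Nat.one_le_two_pow) (a0 j) (ha0p j)
    refine e1.trans ?_
    have hcast : ((2 ^ (j + 1) : ℕ) : ℝ) = 2 * (2 : ℝ) ^ j := by push_cast; ring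
    rw [hcast]
    have hle : 2 * (2 : ℝ) ^ j ≤ 2 * N := by linarith
    have f1 : (2 * (2 : ℝ) ^ j) ^ (ε / 2) ≤ 2 ^ (ε / 2) * (N : ℝ) ^ (ε / 2) := by
      rw [← Real.mul_rpow (by norm_num) hN0.le]
      exact Real.rpow_le_rpow (by positivity) hle (by positivity)
    have f2 : (2 * (2 : ℝ) ^ j) ^ (2 / 3 : ℝ) ≤ 2 * (N : ℝ) ^ (2 / 3 : ℝ) := by
      refine (Real.rpow_le_rpow (by positivity) hle (by norm_num)).trans ?_
      rw [Real.mul_rpow (by norm_num) hN0.le]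
      refine mul_le_mul_of_nonneg_right ?_ (by positivity)
      calc (2 : ℝ) ^ (2 / 3 : ℝ) ≤ (2 : ℝ) ^ (1 : ℝ) := Real.rpow_le_rpow_of_exponent_le (by norm_num) (by norm_num)
        _ = 2 := Real.rpow_one 2
    have f3 : 2 * (2 : ℝ) ^ j / a0 j ≤ C2 * X0 := by
      rw [div_le_iff₀ (ha0p j)]
      refine le_of_sq_le_sq ?_ (by have := ha0p j; positivity)
      rw [mul_pow, mul_pow, mul_pow, hC2s, ha0s j]
      set r : ℝ := (2 : ℝ) ^ j / X0 with hr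
      have hrX : (2 : ℝ) ^ j = r * X0 := by rw [hr]; field_simp
      have hr1 : 1 ≤ 2 * r := by
        rw [hr]
        have : X0 < 2 * (2 : ℝ) ^ j := by rw [← pow_succ']; exact hj2
        rw [mul_div_assoc', le_div_iff₀ hX0]
        linarith
      have hr2 : (2 * r) ^ 2 ≤ (2 * r) ^ K := pow_le_pow_right₀ hr1 hK
      rw [hrX]
      have hr3 : 16 * c * 2 ^ K * X0 ^ 2 * (r ^ K / (4 * c)) = 4 * X0 ^ 2 * (2 * r) ^ K := by
        rw [mul_pow 2 r K]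
        field_simp
        ring
      rw [hr3]
      nlinarith [sq_nonneg X0, sq_nonneg r, mul_le_mul_of_nonneg_left hr2 (sq_nonneg X0)]
    calc C1 * (2 * (2 : ℝ) ^ j) ^ (ε / 2) * (2 * (2 : ℝ) ^ j / a0 j + (2 * (2 : ℝ) ^ j) ^ (2 / 3 : ℝ))
        ≤ C1 * (2 ^ (ε / 2) * (N : ℝ) ^ (ε / 2)) * (C2 * X0 + 2 * (N : ℝ) ^ (2 / 3 : ℝ)) := by
          refine mul_le_mul (mul_le_mul_of_nonneg_left f1 hC1.le) (add_le_add f3 f2) ?_ (by positivity)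
          have := ha0p j
          positivity
      _ = _ := by ring
  have hcard1 : (S0.card : ℝ) ≤ (⌊X0⌋₊ + 1 : ℝ) + ∑ j ∈ J, ((D j).card : ℝ) := by
    have g1 : S0.card ≤ (⌊X0⌋₊ + 1) + ∑ j ∈ J, (D j).card := by
      refine (card_le_card hsub).trans ((card_union_le _ _).trans ?_)
      rw [card_range]
      exact Nat.add_le_add_left card_biUnion_le _
    exact_mod_cast g1
  have hsum : ∑ j ∈ J, ((D j).card : ℝ) ≤
      C3 * (N : ℝ) ^ (ε / 2) * (C1 * 2 ^ (ε / 2) * (N : ℝ) ^ (ε / 2) * (C2 * X0 + 2 * (N : ℝ) ^ (2 / 3 : ℝ))) := by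
    refine (sum_le_sum hDc).trans ?_
    rw [sum_const, nsmul_eq_mul]
    refine mul_le_mul_of_nonneg_right ?_ (by positivity)
    refine le_trans ?_ (h3 N hN)
    have g2 : J.card ≤ Nat.log 2 N + 1 := by
      refine (card_filter_le _ _).trans ?_
      rw [card_range]
    exact_mod_cast g2
  have hfl : (⌊X0⌋₊ : ℝ) ≤ X0 := Nat.floor_le hX0.le
  have hpow : (N : ℝ) ^ ε = (N : ℝ) ^ (ε / 2) * (N : ℝ) ^ (ε / 2) := by
    rw [← Real.rpow_add hN0]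
    congr 1
    ring
  have hNe : (1 : ℝ) ≤ (N : ℝ) ^ ε := Real.one_le_rpow hN1 hε.le
  have hN23 : (0 : ℝ) < (N : ℝ) ^ (2 / 3 : ℝ) := by positivity
  have t1 : (⌊X0⌋₊ + 1 : ℝ) ≤ 2 * (N : ℝ) ^ ε * (X0 + (N : ℝ) ^ (2 / 3 : ℝ)) := by
    have : X0 + (N : ℝ) ^ (2 / 3 : ℝ) ≤ (N : ℝ) ^ ε * (X0 + (N : ℝ) ^ (2 / 3 : ℝ)) :=
      le_mul_of_one_le_left (by positivity) hNe
    nlinarith
  have t2 : C2 * X0 + 2 * (N : ℝ) ^ (2 / 3 : ℝ) ≤ (C2 + 2) * (X0 + (N : ℝ) ^ (2 / 3 : ℝ)) := by nlinarith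
  have t3 : C3 * (N : ℝ) ^ (ε / 2) * (C1 * 2 ^ (ε / 2) * (N : ℝ) ^ (ε / 2) * (C2 * X0 + 2 * (N : ℝ) ^ (2 / 3 : ℝ))) ≤
      C3 * (C1 * 2 ^ (ε / 2) * (C2 + 2)) * (N : ℝ) ^ ε * (X0 + (N : ℝ) ^ (2 / 3 : ℝ)) := by
    rw [hpow]
    have := mul_le_mul_of_nonneg_left t2 (show 0 ≤ C3 * (C1 * 2 ^ (ε / 2)) * ((N : ℝ) ^ (ε / 2) * (N : ℝ) ^ (ε / 2)) by positivity)
    calc _ = C3 * (C1 * 2 ^ (ε / 2)) * ((N : ℝ) ^ (ε / 2) * (N : ℝ) ^ (ε / 2)) * (C2 * X0 + 2 * (N : ℝ) ^ (2 / 3 : ℝ)) := by ring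
      _ ≤ _ := this
      _ = _ := by ring
  calc (S0.card : ℝ) ≤ 2 * (N : ℝ) ^ ε * (X0 + (N : ℝ) ^ (2 / 3 : ℝ)) +
        C3 * (C1 * 2 ^ (ε / 2) * (C2 + 2)) * (N : ℝ) ^ ε * (X0 + (N : ℝ) ^ (2 / 3 : ℝ)) := by linarith
    _ = _ := by ring

end Pool.Agent.H3.EB
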