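import Pool.Agent.H3.EB.Defs

/-!
# EB Near: `v` is close to `θ u`

`u = n1 + (k+1)/2`, `v = n2 + (k+1)/2`, `n1 ≤ n2`, `ρ = B n2 k / B n1 k ≥ 1`, `θ = ρ^(1/k)`.
Then `|v - θ u| ≤ k^2/4 * θ / u`.  (`k ≥ 1`.)

Proof.  For a natural number `n` let `w = n + (k+1)/2` and `F = (B n k)^(1/k)`.
* `F ≤ w`: pairing `i` with `k-1-i`, `(B n k)^2 = ∏_{i<k} (n+i+1) (n+k-i)` and each factor is
  `w^2 - (i - (k-1)/2)^2 ≤ w^2`, so `(B n k)^2 ≤ (w^2)^k`, i.e. `B n k ≤ w^k`.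
* `F ≥ w - k^2/(4 w)`: each factor is `≥ w^2 - k^2/4 > 0`, so `(B n k)^2 ≥ (w^2 - k^2/4)^k`,
  `F^2 ≥ w^2 - k^2/4 ≥ (w - k^2/(4w))^2` as `w - k^2/(4w) ≥ 0` (`w > k/2`) and
  `(w - c/w)^2 = w^2 - 2c + c^2/w^2 ≤ w^2 - c` for `c = k^2/4 ≤ w^2`.
Now `F2 = θ F1` (with `F1, F2` for `n1, n2`), so `v - θ u = (v - F2) - θ (u - F1)` where
`0 ≤ v - F2 ≤ k^2/(4v)`, `0 ≤ u - F1 ≤ k^2/(4u)`; so
`|v - θ u| ≤ max (k^2/(4v), θ k^2/(4u)) = θ k^2/(4u)` as `v ≥ u`, `θ ≥ 1`.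
-/

set_option autoImplicit false

open Finset

namespace Pool.Agent.H3.EB

theorem near_sq (n k : ℕ) : ((B n k : ℕ) : ℝ) ^ 2 =
    ∏ i ∈ range k, (((n : ℝ) + (k + 1) / 2) ^ 2 - ((i : ℝ) - (k - 1) / 2) ^ 2) := by
  have h1 : ((B n k : ℕ) : ℝ) = ∏ i ∈ range k, ((n : ℝ) + i + 1) := by
    unfold B
    push_cast
    rfl
  have h2 : ((B n k : ℕ) : ℝ) = ∏ i ∈ range k, ((n : ℝ) + ((k - 1 - i : ℕ) : ℝ) + 1) := by
    rw [h1]
    exact (prod_range_reflect (fun i : ℕ => (n : ℝ) + i + 1) k).symm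
  rw [pow_two]
  nth_rewrite 1 [h1]
  rw [h2, ← prod_mul_distrib]
  apply prod_congr rfl
  intro i hi
  rw [mem_range] at hi
  have h3 : ((k - 1 - i : ℕ) : ℝ) = (k : ℝ) - 1 - i := by
    rw [Nat.cast_sub (by omega), Nat.cast_sub (by omega)]
    push_cast
    ring
  rw [h3]
  ring

theorem near_fac {k i : ℕ} (hi : i < k) : ((i : ℝ) - (k - 1) / 2) ^ 2 ≤ (k : ℝ) ^ 2 / 4 := by
  have h1 : (i : ℝ) + 1 ≤ k := by exact_mod_cast hi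
  have h2 : (0 : ℝ) ≤ i := Nat.cast_nonneg i
  have h3 : |(i : ℝ) - (k - 1) / 2| ≤ (k : ℝ) / 2 := by
    rw [abs_le]
    constructor <;> linarith
  have h4 := sq_le_sq' (abs_le.1 h3).1 (abs_le.1 h3).2
  calc ((i : ℝ) - (k - 1) / 2) ^ 2 ≤ ((k : ℝ) / 2) ^ 2 := h4
    _ = (k : ℝ) ^ 2 / 4 := by ring

theorem near_root (n k : ℕ) (hk : 1 ≤ k) (F : ℝ) (hF : 0 < F) (h : F ^ k = (B n k : ℝ)) :
    F ≤ (n : ℝ) + (k + 1) / 2 ∧
      (n : ℝ) + (k + 1) / 2 - (k : ℝ) ^ 2 / 4 / ((n : ℝ) + (k + 1) / 2) ≤ F := by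
  have hn : (0 : ℝ) ≤ n := Nat.cast_nonneg n
  have hk' : (1 : ℝ) ≤ k := by exact_mod_cast hk
  obtain ⟨w, hw⟩ : ∃ w : ℝ, w = (n : ℝ) + (k + 1) / 2 := ⟨_, rfl⟩
  have hw1 : (k : ℝ) / 2 < w := by rw [hw]; linarith
  have hw0 : 0 < w := by linarith
  have hc : (k : ℝ) ^ 2 / 4 ≤ w ^ 2 := by nlinarith
  have hsq := near_sq n k
  rw [← h, ← hw] at hsq
  have hpow : (F ^ 2) ^ k = ∏ i ∈ range k, (w ^ 2 - ((i : ℝ) - (k - 1) / 2) ^ 2) := by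
    rw [← hsq, ← pow_mul, ← pow_mul, mul_comm]
  have hup : (F ^ 2) ^ k ≤ (w ^ 2) ^ k := by
    rw [hpow]
    calc ∏ i ∈ range k, (w ^ 2 - ((i : ℝ) - (k - 1) / 2) ^ 2) ≤ ∏ _i ∈ range k, w ^ 2 := by
          apply prod_le_prod
          · intro i hi
            have := near_fac (mem_range.1 hi)
            linarith
          · intro i _
            have := sq_nonneg ((i : ℝ) - (k - 1) / 2)
            linarith
      _ = (w ^ 2) ^ k := by rw [prod_const, card_range]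
  have hlo : (w ^ 2 - (k : ℝ) ^ 2 / 4) ^ k ≤ (F ^ 2) ^ k := by
    rw [hpow]
    calc (w ^ 2 - (k : ℝ) ^ 2 / 4) ^ k = ∏ _i ∈ range k, (w ^ 2 - (k : ℝ) ^ 2 / 4) := by
          rw [prod_const, card_range]
      _ ≤ ∏ i ∈ range k, (w ^ 2 - ((i : ℝ) - (k - 1) / 2) ^ 2) := by
          apply prod_le_prod
          · intro i _
            linarith
          · intro i hi
            have := near_fac (mem_range.1 hi)
            linarith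
  have hk0 : k ≠ 0 := by omega
  have hup2 : F ^ 2 ≤ w ^ 2 :=
    (pow_le_pow_iff_left₀ (by positivity) (by positivity) hk0).1 hup
  have hlo2 : w ^ 2 - (k : ℝ) ^ 2 / 4 ≤ F ^ 2 :=
    (pow_le_pow_iff_left₀ (by linarith) (by positivity) hk0).1 hlo
  rw [← hw]
  constructor
  · exact (pow_le_pow_iff_left₀ hF.le hw0.le two_ne_zero).1 hup2
  · by_contra hcon
    rw [not_le] at hcon
    have h1 : F ^ 2 < (w - (k : ℝ) ^ 2 / 4 / w) ^ 2 := pow_lt_pow_left₀ hcon hF.le two_ne_zero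
    obtain ⟨c, hcdef⟩ : ∃ c : ℝ, c = (k : ℝ) ^ 2 / 4 := ⟨_, rfl⟩
    rw [← hcdef] at h1 hc hlo2
    have hc0 : 0 ≤ c := by rw [hcdef]; positivity
    have h2 : (w - c / w) ^ 2 = w ^ 2 - 2 * c + c * (c / w ^ 2) := by
      field_simp
      ring
    have h3 : c / w ^ 2 ≤ 1 := by
      rw [div_le_one (by positivity)]
      exact hc
    have h4 : c * (c / w ^ 2) ≤ c * 1 := mul_le_mul_of_nonneg_left h3 hc0
    linarith

theorem near (k n1 n2 : ℕ) (hk : 1 ≤ k) (hn : n1 ≤ n2) (θ : ℝ) (hθ : 0 < θ)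
    (h : θ ^ k = (B n2 k : ℝ) / (B n1 k : ℝ)) :
    |((n2 : ℝ) + (k + 1) / 2) - θ * ((n1 : ℝ) + (k + 1) / 2)| ≤
      (k : ℝ) ^ 2 / 4 * θ / ((n1 : ℝ) + (k + 1) / 2) ∧ 1 ≤ θ := by
  have hk0 : k ≠ 0 := by omega
  have hB1 : (0 : ℝ) < B n1 k := by exact_mod_cast B_pos n1 k
  have hB2 : (0 : ℝ) < B n2 k := by exact_mod_cast B_pos n2 k
  have hle : (B n1 k : ℝ) ≤ B n2 k := by
    have : B n1 k ≤ B n2 k := by
      unfold B
      exact prod_le_prod' fun i _ => by omega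
    exact_mod_cast this
  have hθ1 : 1 ≤ θ := by
    by_contra hcon
    rw [not_le] at hcon
    have h1 : θ ^ k < 1 := pow_lt_one₀ hθ.le hcon hk0
    rw [h, div_lt_one hB1] at h1
    linarith
  refine ⟨?_, hθ1⟩
  obtain ⟨F, hF, hFk⟩ : ∃ F : ℝ, 0 < F ∧ F ^ k = (B n1 k : ℝ) := by
    refine ⟨(B n1 k : ℝ) ^ ((k : ℝ)⁻¹), Real.rpow_pos_of_pos hB1 _, ?_⟩
    exact Real.rpow_inv_natCast_pow hB1.le hk0
  have hF2 : (θ * F) ^ k = (B n2 k : ℝ) := by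
    rw [mul_pow, h, hFk]
    field_simp
  obtain ⟨a1, a2⟩ := near_root n1 k hk F hF hFk
  obtain ⟨b1, b2⟩ := near_root n2 k hk (θ * F) (by positivity) hF2
  have hn' : (n1 : ℝ) ≤ n2 := by exact_mod_cast hn
  obtain ⟨u, hu⟩ : ∃ u : ℝ, u = (n1 : ℝ) + (k + 1) / 2 := ⟨_, rfl⟩
  obtain ⟨v, hv⟩ : ∃ v : ℝ, v = (n2 : ℝ) + (k + 1) / 2 := ⟨_, rfl⟩
  have huv : u ≤ v := by rw [hu, hv]; linarith
  have hu0 : 0 < u := by
    rw [hu]
    positivity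
  rw [← hu] at a1 a2
  rw [← hv] at b1 b2
  rw [← hu, ← hv]
  obtain ⟨c, hcdef⟩ : ∃ c : ℝ, c = (k : ℝ) ^ 2 / 4 := ⟨_, rfl⟩
  rw [← hcdef] at a2 b2 ⊢
  have hc0 : 0 ≤ c := by rw [hcdef]; positivity
  have h1 : c / v ≤ c / u := div_le_div_of_nonneg_left hc0 hu0 huv
  have h2 : 0 ≤ c / u := by positivity
  have h3 : c / u ≤ θ * (c / u) := le_mul_of_one_le_left h2 hθ1
  have h4 : c * θ / u = θ * (c / u) := by ring
  have h5 : θ * (u - F) ≤ θ * (c / u) := mul_le_mul_of_nonneg_left (by linarith) hθ.le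
  have h6 : 0 ≤ θ * (u - F) := mul_nonneg hθ.le (by linarith)
  rw [h4, abs_le]
  constructor
  · nlinarith
  · nlinarith

end Pool.Agent.H3.EB
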